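import Pool.Agent.Y755.Gm3

set_option autoImplicit false

/-! One block: a majorant for products of truncated exponentials with two exponents, and inner products. -/

namespace Pool.Agent.Run7.h290.PH

open Finset Filter MeasureTheory MonoidAlgebra
open Pool.Agent.Y755
open Pool.Agent.W184.NZ

section

variable {M : ℕ}

/-- the truncated exponential far away -/
lemma NK_far {R : ℕ} (hR : 1 ≤ R) {a : ℝ} (ha : |a| ≤ 2 * M) {x : ℂ} (hx : (R:ℝ) < ‖x‖) :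
    ‖NK (20 * (M * R)) a x‖ ≤ Real.exp (2 * M * R) * (‖x‖ / R) ^ (20 * (M * R)) := by
  have hR0 : (0:ℝ) < R := by exact_mod_cast hR
  have h3 : 1 ≤ ‖x‖ / R := by rw [le_div_iff₀ hR0]; linarith
  rw [NK_eq]
  refine (norm_sum_le _ _).trans ?_
  have h1 : ∀ m ∈ range (20 * (M * R) + 1), ‖((a:ℂ) * x) ^ m / (m.factorial : ℂ)‖ ≤
      (‖x‖ / R) ^ (20 * (M * R)) * ((2 * M * R) ^ m / (m.factorial : ℝ)) := by
    intro m hm
    rw [mem_range] at hm
    rw [norm_div, norm_pow, norm_mul, Complex.norm_real, Real.norm_eq_abs, Complex.norm_natCast]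
    have h2 : (|a| * ‖x‖) ^ m ≤ (2 * M * R) ^ m * (‖x‖ / R) ^ (20 * (M * R)) := by
      have e : |a| * ‖x‖ = (|a| * R) * (‖x‖ / R) := by field_simp
      rw [e, mul_pow]
      exact mul_le_mul (pow_le_pow_left₀ (by positivity) (mul_le_mul_of_nonneg_right ha hR0.le) m)
        (pow_le_pow_right₀ h3 (by omega)) (by positivity) (by positivity)
    rw [← mul_div_assoc]
    refine div_le_div_of_nonneg_right (h2.trans (le_of_eq (mul_comm _ _))) (by positivity)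
  refine (sum_le_sum h1).trans ?_
  rw [← mul_sum, mul_comm]
  refine mul_le_mul_of_nonneg_right ?_ (by positivity)
  exact Real.sum_le_exp_of_nonneg (by positivity) _

/-- the block majorant -/
lemma blk_maj {M' : ℕ} (hM : 1 ≤ M) (hM' : 1 ≤ M') {R : ℕ} (hR : 1 ≤ R) (hR7 : Real.exp (-(R:ℝ)) ≤ 1 / 7) {a b κ : ℝ}
    (ha : |a| ≤ 2 * M) (hb : |b| ≤ 2 * M) (hκ : |κ| ≤ 2 * M') (hab : a + b = 2 * κ) (x : ℂ) :
    ‖NK (20 * (M * R)) a x‖ * ‖NK (20 * (M * R)) b x‖ ≤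
      Real.exp (5 * Real.exp (-(R:ℝ))) * ‖NK (20 * (M' * R)) κ x‖ ^ 2 +
        (Real.exp (2 * M * R) * (‖x‖ / R) ^ (20 * (M * R))) ^ 2 := by
  obtain ⟨e, he⟩ : ∃ e, e = Real.exp (-(R:ℝ)) := ⟨_, rfl⟩
  have he0 : 0 < e := by rw [he]; exact Real.exp_pos _
  rw [← he] at hR7 ⊢
  rcases le_or_gt ‖x‖ (R:ℝ) with hx | hx
  · have h1 := cl_M hM hR ha x hx
    have h2 := cl_M hM hR hb x hx
    have h3 := cl_M hM' hR hκ x hx
    rw [← he] at h1 h2 h3
    have hn : ∀ c : ℝ, ‖Complex.exp ((c:ℂ) * x)‖ = Real.exp (c * x.re) := by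
      intro c
      rw [Complex.norm_exp, Complex.re_ofReal_mul]
    rw [hn] at h1 h2 h3
    have g1 : ‖NK (20 * (M * R)) a x‖ ≤ (1 + e) * Real.exp (a * x.re) := by
      have := norm_add_le (NK (20 * (M * R)) a x - Complex.exp (a * x)) (Complex.exp (a * x))
      rw [sub_add_cancel, hn] at this
      linarith
    have g2 : ‖NK (20 * (M * R)) b x‖ ≤ (1 + e) * Real.exp (b * x.re) := by
      have := norm_add_le (NK (20 * (M * R)) b x - Complex.exp (b * x)) (Complex.exp (b * x))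
      rw [sub_add_cancel, hn] at this
      linarith
    have g3 : (1 - e) * Real.exp (κ * x.re) ≤ ‖NK (20 * (M' * R)) κ x‖ := by
      have := norm_sub_norm_le (Complex.exp ((κ:ℂ) * x)) (Complex.exp (κ * x) - NK (20 * (M' * R)) κ x)
      rw [sub_sub_cancel, norm_sub_rev (Complex.exp ((κ:ℂ) * x)) (NK (20 * (M' * R)) κ x), hn] at this
      linarith
    have e1 : Real.exp (a * x.re) * Real.exp (b * x.re) = Real.exp (κ * x.re) ^ 2 := by
      rw [← Real.exp_add, ← Real.exp_nat_mul]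
      congr 1
      push_cast
      linear_combination x.re * hab
    have g4 : ‖NK (20 * (M * R)) a x‖ * ‖NK (20 * (M * R)) b x‖ ≤ (1 + e) ^ 2 * Real.exp (κ * x.re) ^ 2 := by
      calc _ ≤ ((1 + e) * Real.exp (a * x.re)) * ((1 + e) * Real.exp (b * x.re)) :=
            mul_le_mul g1 g2 (norm_nonneg _) (by positivity)
        _ = (1 + e) ^ 2 * (Real.exp (a * x.re) * Real.exp (b * x.re)) := by ring
        _ = _ := by rw [e1]
    have g5 : (1 - e) ^ 2 * Real.exp (κ * x.re) ^ 2 ≤ ‖NK (20 * (M' * R)) κ x‖ ^ 2 := by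
      rw [← mul_pow]
      exact pow_le_pow_left₀ (mul_nonneg (by linarith) (Real.exp_pos _).le) g3 2
    have g6 : (1 + e) ^ 2 ≤ Real.exp (5 * e) * (1 - e) ^ 2 := by
      have a1 : 1 + e ≤ Real.exp e := by rw [add_comm]; exact Real.add_one_le_exp e
      have a2 : 1 ≤ Real.exp (3 / 2 * e) * (1 - e) := by
        have a3 := Real.add_one_le_exp (3 / 2 * e)
        have a4 : 1 ≤ (3 / 2 * e + 1) * (1 - e) := by nlinarith
        exact a4.trans (mul_le_mul_of_nonneg_right a3 (by linarith))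
      have a5 : (1 + e) ≤ Real.exp (5 / 2 * e) * (1 - e) := by
        calc (1 + e) ≤ Real.exp e * 1 := by rw [mul_one]; exact a1
          _ ≤ Real.exp e * (Real.exp (3 / 2 * e) * (1 - e)) := mul_le_mul_of_nonneg_left a2 (Real.exp_pos _).le
          _ = Real.exp (5 / 2 * e) * (1 - e) := by rw [← mul_assoc, ← Real.exp_add]; congr 2; ring
      have a6 := pow_le_pow_left₀ (by linarith) a5 2
      rw [mul_pow, ← Real.exp_nat_mul] at a6
      refine a6.trans (le_of_eq ?_)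
      congr 2
      push_cast
      ring
    have g7 : (0:ℝ) ≤ (Real.exp (2 * M * R) * (‖x‖ / R) ^ (20 * (M * R))) ^ 2 := sq_nonneg _
    calc _ ≤ (1 + e) ^ 2 * Real.exp (κ * x.re) ^ 2 := g4
      _ ≤ (Real.exp (5 * e) * (1 - e) ^ 2) * Real.exp (κ * x.re) ^ 2 :=
          mul_le_mul_of_nonneg_right g6 (sq_nonneg _)
      _ = Real.exp (5 * e) * ((1 - e) ^ 2 * Real.exp (κ * x.re) ^ 2) := by ring
      _ ≤ Real.exp (5 * e) * ‖NK (20 * (M' * R)) κ x‖ ^ 2 := mul_le_mul_of_nonneg_left g5 (Real.exp_pos _).le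
      _ ≤ _ := by linarith
  · have g1 := NK_far (M := M) hR ha hx
    have g2 := NK_far (M := M) hR hb hx
    have g3 : (0:ℝ) ≤ Real.exp (5 * e) * ‖NK (20 * (M' * R)) κ x‖ ^ 2 := by positivity
    calc _ ≤ (Real.exp (2 * M * R) * (‖x‖ / R) ^ (20 * (M * R))) * (Real.exp (2 * M * R) * (‖x‖ / R) ^ (20 * (M * R))) :=
          mul_le_mul g1 g2 (norm_nonneg _) (by positivity)
      _ = (Real.exp (2 * M * R) * (‖x‖ / R) ^ (20 * (M * R))) ^ 2 := by ring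
      _ ≤ _ := by linarith

/-- the element for the far region -/
noncomputable def qf (M R : ℕ) (I : Finset ℕ) : P1 :=
  (Real.exp (2 * M * R) * (1 / (R:ℝ)) ^ (20 * (M * R))) • x1 I ^ (20 * (M * R))

lemma qf_mem {I : Finset ℕ} (h : ∀ p ∈ I, p.Prime) (R : ℕ) : qf M R I ∈ SA1 (M1 I) :=
  Subalgebra.smul_mem _ (Subalgebra.pow_mem _ (x1_mem h) _) _

lemma qf_map {R : ℕ} {I : Finset ℕ} (φ : P1 →ₐ[ℝ] ℂ) :
    ‖φ (qf M R I)‖ = Real.exp (2 * M * R) * (‖φ (x1 I)‖ / R) ^ (20 * (M * R)) := by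
  unfold qf
  rw [map_smul, map_pow, Complex.real_smul, norm_mul, Complex.norm_real, Real.norm_of_nonneg (by positivity), norm_pow,
    mul_assoc, ← mul_pow]
  congr 2
  ring

/-- the mean square in the far region -/
theorem qf_ip {δ c : ℝ} {I : Finset ℕ} {R : ℕ} (hM : 1 ≤ M) (hδ : 0 ≤ δ) (hI : BgM (10 * M : ℕ) I) (hv : vI I ≤ c) (hu : uI I ≤ c)
    (hR : 1 ≤ R) : ip δ (qf M R I) (qf M R I) ≤ CEM (10 * M : ℕ) c * Real.exp (-(R:ℝ)) := by
  have hP : ∀ p ∈ I, p.Prime := fun p hp => (hI p hp).1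
  have hM1 : (1:ℝ) ≤ M := by exact_mod_cast hM
  have hR1 : (1:ℝ) ≤ R := by exact_mod_cast hR
  have hR0 : (0:ℝ) < R := by linarith
  have hM10 : (1:ℝ) ≤ ((10 * M : ℕ) : ℝ) := by push_cast; linarith
  rw [ip_torus_self hP (qf_mem hP R)]
  have h1 : ∀ ω : I → ℂ, ‖ph I ω (qf M R I)‖ ^ 2 ≤ Real.exp (-(R:ℝ)) *
      ((1 + ‖Gt 2 I ω‖ ^ 2) * Real.exp (8 * ((10 * M : ℕ) : ℝ) * ‖∑ p : I, ω p‖)) := by
    intro ω
    rw [qf_map, ph_x1 hP]
    obtain ⟨u, hu⟩ : ∃ u, u = ‖∑ p : I, ω p‖ / R := ⟨_, rfl⟩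
    have hu0 : 0 ≤ u := by rw [hu]; positivity
    have huR : ‖∑ p : I, ω p‖ = u * R := by rw [hu]; field_simp
    rw [← hu, huR]
    have h2 : u ≤ Real.exp (2 * u - 1) := by
      have := Real.add_one_le_exp (2 * u - 1)
      linarith
    have h3 : u ^ (20 * (M * R)) ≤ Real.exp (((20 * (M * R) : ℕ) : ℝ) * (2 * u - 1)) := by
      rw [Real.exp_nat_mul]
      exact pow_le_pow_left₀ hu0 h2 _
    have h4 : (Real.exp (2 * M * R) * u ^ (20 * (M * R))) ^ 2 ≤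
        Real.exp (-(R:ℝ)) * Real.exp (8 * ((10 * M : ℕ) : ℝ) * (u * R)) := by
      calc _ ≤ (Real.exp (2 * M * R) * Real.exp (((20 * (M * R) : ℕ) : ℝ) * (2 * u - 1))) ^ 2 := by gcongr
        _ = Real.exp (2 * (2 * M * R + ((20 * (M * R) : ℕ) : ℝ) * (2 * u - 1))) := by
            rw [← Real.exp_add, ← Real.exp_nat_mul]; norm_num
        _ ≤ Real.exp (-(R:ℝ) + 8 * ((10 * M : ℕ) : ℝ) * (u * R)) := by
            refine Real.exp_le_exp.mpr ?_
            push_cast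
            have : (R:ℝ) ≤ M * R := le_mul_of_one_le_left hR0.le hM1
            nlinarith
        _ = _ := Real.exp_add _ _
    refine h4.trans (mul_le_mul_of_nonneg_left ?_ (Real.exp_pos _).le)
    refine le_mul_of_one_le_left (Real.exp_pos _).le ?_
    have : 0 ≤ ‖Gt 2 I ω‖ ^ 2 := by positivity
    linarith
  have hic : Continuous fun ω : I → ℂ => Real.exp (-(R:ℝ)) * ((1 + ‖Gt 2 I ω‖ ^ 2) *
        Real.exp (8 * ((10 * M : ℕ) : ℝ) * ‖∑ p : I, ω p‖)) :=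
      continuous_const.mul ((continuous_const.add ((Gt_cont 2 I).norm.pow 2)).mul (by fun_prop))
  have h3 := integral_mono (tm_integrable (δ := δ) hP ((ph_cont I (qf M R I)).norm.pow 2))
    (tm_integrable (δ := δ) hP hic) h1
  refine h3.trans ?_
  rw [integral_const_mul, mul_comm]
  exact mul_le_mul_of_nonneg_right (EM_M hM10 hδ hI hv hu le_rfl) (Real.exp_pos _).le

/-- the local integral for two exponents -/
lemma int_ab {M a b r : ℝ} (hM : 1 ≤ M) (ha : |a| ≤ 2 * M) (hb : |b| ≤ 2 * M) (hr : 0 < r) (hr1 : r ≤ 1 / (200 * M ^ 3)) :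
    ‖∫ z, Complex.exp (a * z) * starRingEnd ℂ (Complex.exp (b * z)) ∂(cm r)‖ ≤ Real.exp (a * b * r ^ 2 + 65 * M ^ 3 * r ^ 3) := by
  have hM3 : 1 ≤ M ^ 3 := one_le_pow₀ hM
  have hM0 : 0 < M := by linarith
  have r3 : 0 ≤ r ^ 3 := by positivity
  have hMr := M_r0 hM hr1
  have ha2 : a ^ 2 ≤ 4 * M ^ 2 := by
    have := pow_le_pow_left₀ (abs_nonneg a) ha 2
    rw [sq_abs] at this
    linarith
  have hb2 : b ^ 2 ≤ 4 * M ^ 2 := by
    have := pow_le_pow_left₀ (abs_nonneg b) hb 2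
    rw [sq_abs] at this
    linarith
  have hMM : M ≤ M ^ 3 := le_self_pow₀ hM (by norm_num)
  have hM2 : M ^ 2 ≤ M ^ 3 := pow_le_pow_right₀ hM (by norm_num)
  have ca : |a| ≤ 50 * M ^ 3 := by linarith
  have cb : |b| ≤ 50 * M ^ 3 := by linarith
  have da : |a ^ 2 / 2| ≤ 50 * M ^ 3 := by rw [abs_of_nonneg (by positivity)]; linarith
  have db : |b ^ 2 / 2| ≤ 50 * M ^ 3 := by rw [abs_of_nonneg (by positivity)]; linarith
  have i1 : Integrable (fun z : ℂ => Complex.exp (a * z) * starRingEnd ℂ (Complex.exp (b * z))) (cm r) :=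
    cm_integrable hr (Continuous.mul (by fun_prop) (Complex.continuous_conj.comp (by fun_prop)))
  have i2 : Integrable (fun z : ℂ => (1 + (a:ℂ) * z + ((a ^ 2 / 2 : ℝ) : ℂ) * z ^ 2) *
        starRingEnd ℂ (1 + (b:ℂ) * z + ((b ^ 2 / 2 : ℝ) : ℂ) * z ^ 2)) (cm r) := cm_integrable hr (by fun_prop)
  have h2 : ‖∫ z, (Complex.exp (a * z) * starRingEnd ℂ (Complex.exp (b * z)) -
        (1 + (a:ℂ) * z + ((a ^ 2 / 2 : ℝ) : ℂ) * z ^ 2) *
        starRingEnd ℂ (1 + (b:ℂ) * z + ((b ^ 2 / 2 : ℝ) : ℂ) * z ^ 2)) ∂(cm r)‖ ≤ 64 * M ^ 3 * r ^ 3 := by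
    have h3 : ∀ᵐ z ∂(cm r), ‖Complex.exp (a * z) * starRingEnd ℂ (Complex.exp (b * z)) -
        (1 + (a:ℂ) * z + ((a ^ 2 / 2 : ℝ) : ℂ) * z ^ 2) *
        starRingEnd ℂ (1 + (b:ℂ) * z + ((b ^ 2 / 2 : ℝ) : ℂ) * z ^ 2)‖ ≤ 64 * M ^ 3 * r ^ 3 := by
      filter_upwards [cm_norm hr] with z hz
      have hz1 : ‖z‖ ≤ 1 / (200 * M ^ 3) := by rw [hz]; exact hr1
      have a1 := (E4_exp' hM ha hz1).1
      obtain ⟨a2, a3⟩ := E4_exp' hM hb hz1
      have a4 := (E4_norm hM (E4_exp hM ha) ca da hz1).2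
      have e : Complex.exp (a * z) * starRingEnd ℂ (Complex.exp (b * z)) -
        (1 + (a:ℂ) * z + ((a ^ 2 / 2 : ℝ) : ℂ) * z ^ 2) *
        starRingEnd ℂ (1 + (b:ℂ) * z + ((b ^ 2 / 2 : ℝ) : ℂ) * z ^ 2) =
        (Complex.exp (a * z) - (1 + (a:ℂ) * z + ((a ^ 2 / 2 : ℝ) : ℂ) * z ^ 2)) * starRingEnd ℂ (Complex.exp (b * z)) +
        (1 + (a:ℂ) * z + ((a ^ 2 / 2 : ℝ) : ℂ) * z ^ 2) *
          starRingEnd ℂ (Complex.exp (b * z) - (1 + (b:ℂ) * z + ((b ^ 2 / 2 : ℝ) : ℂ) * z ^ 2)) := by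
        rw [map_sub]; ring
      rw [e]
      refine (norm_add_le _ _).trans ?_
      rw [norm_mul, norm_mul, RCLike.norm_conj, RCLike.norm_conj]
      rw [hz] at a1 a2
      calc _ ≤ (16 * M ^ 3 * r ^ 3) * 2 + 2 * (16 * M ^ 3 * r ^ 3) := add_le_add
            (mul_le_mul a1 a3 (norm_nonneg _) (by positivity)) (mul_le_mul a4 a2 (norm_nonneg _) (by norm_num))
        _ = 64 * M ^ 3 * r ^ 3 := by ring
    refine (norm_integral_le_of_norm_le_const h3).trans ?_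
    simp
  have e1 : ∫ z, Complex.exp (a * z) * starRingEnd ℂ (Complex.exp (b * z)) ∂(cm r) =
      (∫ z, (Complex.exp (a * z) * starRingEnd ℂ (Complex.exp (b * z)) -
        (1 + (a:ℂ) * z + ((a ^ 2 / 2 : ℝ) : ℂ) * z ^ 2) *
        starRingEnd ℂ (1 + (b:ℂ) * z + ((b ^ 2 / 2 : ℝ) : ℂ) * z ^ 2)) ∂(cm r)) +
      ((1 + a * b * r ^ 2 + (a ^ 2 / 2) * (b ^ 2 / 2) * r ^ 4 : ℝ) : ℂ) := by
    rw [integral_sub i1 i2, P_int hr]
    push_cast
    ring
  rw [e1]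
  have hab : |a * b| ≤ 4 * M ^ 2 := by
    rw [abs_mul]
    calc |a| * |b| ≤ (2 * M) * (2 * M) := mul_le_mul ha hb (abs_nonneg _) (by positivity)
      _ = _ := by ring
  have hMr2 : (M * r) ^ 2 ≤ (1 / 200) ^ 2 := pow_le_pow_left₀ (by positivity) hMr 2
  have hp : 0 ≤ 1 + a * b * r ^ 2 := by
    have h5 : -(4 * M ^ 2) ≤ a * b := (abs_le.mp hab).1
    have h6 : -(4 * M ^ 2) * r ^ 2 ≤ a * b * r ^ 2 := mul_le_mul_of_nonneg_right h5 (sq_nonneg r)
    nlinarith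
  have h4 : (a ^ 2 / 2) * (b ^ 2 / 2) * r ^ 4 ≤ M ^ 3 * r ^ 3 := by
    calc (a ^ 2 / 2) * (b ^ 2 / 2) * r ^ 4 ≤ (4 * M ^ 2 / 2) * (4 * M ^ 2 / 2) * r ^ 4 := by gcongr
      _ = 4 * (M * r) * (M ^ 3 * r ^ 3) := by ring
      _ ≤ 1 * (M ^ 3 * r ^ 3) := mul_le_mul_of_nonneg_right (by linarith) (by positivity)
      _ = _ := one_mul _
  refine (norm_add_le _ _).trans ?_
  rw [Complex.norm_real, Real.norm_of_nonneg (by positivity)]
  have h7 := Real.add_one_le_exp (a * b * r ^ 2 + 65 * M ^ 3 * r ^ 3)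
  linarith

/-- the inner product of two truncated exponentials -/
theorem ip_ab {δ c : ℝ} {I : Finset ℕ} {R : ℕ} (hM : 1 ≤ M) (hδ : 0 ≤ δ) (hI : BgM M I) (hv : vI I ≤ c) (hu : uI I ≤ c)
    (hR : 1 ≤ R) {a b : ℝ} (ha : |a| ≤ 2 * M) (hb : |b| ≤ 2 * M) :
    |ip δ (NK (20 * (M * R)) a (x1 I)) (NK (20 * (M * R)) b (x1 I))| ≤
      Real.exp (a * b * vd δ I + 65 * (M:ℝ) ^ 3 * uI I) + 4 * CEM M c * Real.exp (-(R:ℝ)) := by
  have hP : ∀ p ∈ I, p.Prime := fun p hp => (hI p hp).1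
  have hM1 : (1:ℝ) ≤ M := by exact_mod_cast hM
  have hma : NK (20 * (M * R)) a (x1 I) ∈ SA1 (M1 I) := NK_mem1 (x1_mem hP) _ _
  have hmb : NK (20 * (M * R)) b (x1 I) ∈ SA1 (M1 I) := NK_mem1 (x1_mem hP) _ _
  have ht := ip_torus (δ := δ) hP hma hmb
  have e1 : ∀ (c : ℝ) (ω : I → ℂ), ph I ω (NK (20 * (M * R)) c (x1 I)) = NK (20 * (M * R)) c (∑ p : I, ω p) := by
    intro c ω
    rw [NK_map, ph_x1 hP]
  simp_rw [e1] at ht
  have hn : |ip δ (NK (20 * (M * R)) a (x1 I)) (NK (20 * (M * R)) b (x1 I))| =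
      ‖((ip δ (NK (20 * (M * R)) a (x1 I)) (NK (20 * (M * R)) b (x1 I)) : ℝ) : ℂ)‖ := by
    rw [Complex.norm_real, Real.norm_eq_abs]
  rw [hn, ht]
  have hNc : ∀ a : ℝ, Continuous fun ω : I → ℂ => NK (20 * (M * R)) a (∑ p : I, ω p) := by
    intro a
    unfold NK
    fun_prop
  have c1 : Continuous fun ω : I → ℂ => NK (20 * (M * R)) a (∑ p : I, ω p) *
      starRingEnd ℂ (NK (20 * (M * R)) b (∑ p : I, ω p)) :=
    (hNc a).mul (Complex.continuous_conj.comp (hNc b))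
  have c2 : Continuous fun ω : I → ℂ => Complex.exp (a * ∑ p : I, ω p) *
      starRingEnd ℂ (Complex.exp (b * ∑ p : I, ω p)) :=
    Continuous.mul (by fun_prop) (Complex.continuous_conj.comp (by fun_prop))
  have h1 : ‖(∫ ω, NK (20 * (M * R)) a (∑ p : I, ω p) * starRingEnd ℂ (NK (20 * (M * R)) b (∑ p : I, ω p))
      ∂(tm δ I)) - ∫ ω, Complex.exp (a * ∑ p : I, ω p) *
      starRingEnd ℂ (Complex.exp (b * ∑ p : I, ω p)) ∂(tm δ I)‖ ≤ 4 * CEM M c * Real.exp (-(R:ℝ)) := by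
    rw [← integral_sub (tm_integrable hP c1) (tm_integrable hP c2)]
    have hb2 : ∀ ω : I → ℂ, ‖NK (20 * (M * R)) a (∑ p : I, ω p) *
        starRingEnd ℂ (NK (20 * (M * R)) b (∑ p : I, ω p)) -
        Complex.exp (a * ∑ p : I, ω p) * starRingEnd ℂ (Complex.exp (b * ∑ p : I, ω p))‖ ≤
        4 * Real.exp (-(R:ℝ)) * ((1 + ‖Gt 2 I ω‖ ^ 2) * Real.exp (8 * M * ‖∑ p : I, ω p‖)) := by
      intro ω
      set Z := ∑ p : I, ω p with hZ
      have hZ0 := norm_nonneg Z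
      have hMZ : 0 ≤ (M:ℝ) * ‖Z‖ := by positivity
      have e1 : NK (20 * (M * R)) a Z * starRingEnd ℂ (NK (20 * (M * R)) b Z) -
        Complex.exp (a * Z) * starRingEnd ℂ (Complex.exp (b * Z)) =
        (NK (20 * (M * R)) a Z - Complex.exp (a * Z)) * starRingEnd ℂ (NK (20 * (M * R)) b Z) +
          Complex.exp (a * Z) * starRingEnd ℂ (NK (20 * (M * R)) b Z - Complex.exp (b * Z)) := by
        rw [map_sub]; ring
      rw [e1]
      refine (norm_add_le _ _).trans ?_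
      rw [norm_mul, norm_mul, RCLike.norm_conj, RCLike.norm_conj]
      have a1 := rho_leM hM hR ha Z
      have a2 := rho_leM hM hR hb Z
      have a3 := NK_norm_leM hM (20 * (M * R)) hb Z
      have a4 := exp_norm_leM hM ha Z
      have x0 := Real.exp_pos (-(R:ℝ))
      have x1 : Real.exp (3 * M * ‖Z‖) * Real.exp (2 * M * ‖Z‖) ≤ Real.exp (8 * M * ‖Z‖) := by
        rw [← Real.exp_add]; exact Real.exp_le_exp.mpr (by linarith)
      calc _ ≤ (2 * Real.exp (-(R:ℝ)) * Real.exp (3 * M * ‖Z‖)) * Real.exp (2 * M * ‖Z‖) +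
            Real.exp (2 * M * ‖Z‖) * (2 * Real.exp (-(R:ℝ)) * Real.exp (3 * M * ‖Z‖)) := by gcongr
        _ = 4 * Real.exp (-(R:ℝ)) * (Real.exp (3 * M * ‖Z‖) * Real.exp (2 * M * ‖Z‖)) := by ring
        _ ≤ 4 * Real.exp (-(R:ℝ)) * Real.exp (8 * M * ‖Z‖) := by gcongr
        _ ≤ _ := by
            refine mul_le_mul_of_nonneg_left (le_mul_of_one_le_left (Real.exp_pos _).le ?_) (by positivity)
            have : 0 ≤ ‖Gt 2 I ω‖ ^ 2 := by positivity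
            linarith
    have hic : Continuous fun ω : I → ℂ => 4 * Real.exp (-(R:ℝ)) * ((1 + ‖Gt 2 I ω‖ ^ 2) *
        Real.exp (8 * M * ‖∑ p : I, ω p‖)) :=
      continuous_const.mul ((continuous_const.add ((Gt_cont 2 I).norm.pow 2)).mul (by fun_prop))
    refine (norm_integral_le_of_norm_le (tm_integrable hP hic) (ae_of_all _ hb2)).trans ?_
    rw [integral_const_mul]
    have h3 := EM_M hM1 hδ hI hv hu le_rfl
    have x0 := Real.exp_pos (-(R:ℝ))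
    calc _ ≤ 4 * Real.exp (-(R:ℝ)) * CEM M c := mul_le_mul_of_nonneg_left h3 (by positivity)
      _ = _ := by ring
  have h2 : ‖∫ ω, Complex.exp (a * ∑ p : I, ω p) * starRingEnd ℂ (Complex.exp (b * ∑ p : I, ω p)) ∂(tm δ I)‖ ≤
      Real.exp (a * b * vd δ I + 65 * (M:ℝ) ^ 3 * uI I) := by
    have e2 : ∀ ω : I → ℂ, Complex.exp (a * ∑ p : I, ω p) * starRingEnd ℂ (Complex.exp (b * ∑ p : I, ω p)) =
        ∏ p : I, (fun (_ : I) (z : ℂ) => Complex.exp (a * z) * starRingEnd ℂ (Complex.exp (b * z))) p (ω p) := by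
      intro ω
      rw [expZ, expZ, map_prod, ← prod_mul_distrib]
    rw [integral_congr_ae (ae_of_all _ e2),
      tm_prod (δ := δ) (fun (_ : I) (z : ℂ) => Complex.exp (a * z) * starRingEnd ℂ (Complex.exp (b * z))), norm_prod]
    refine (Finset.prod_le_prod (fun p _ => norm_nonneg _) (fun (p : I) _ => int_ab (M := (M:ℝ)) hM1 ha hb
      (rp_pos δ (hI p.1 p.2).1) (rp_smallM hM1 hδ (hI p.1 p.2).2))).trans ?_
    rw [← Real.exp_sum, sum_add_distrib, ← mul_sum, ← mul_sum]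
    refine Real.exp_le_exp.mpr ?_
    rw [Finset.sum_coe_sort I (fun p => rp δ p ^ 2), Finset.sum_coe_sort I (fun p => rp δ p ^ 3)]
    have h5 := mul_le_mul_of_nonneg_left (cube_le hδ (hI.bg hM1)) (by positivity : 0 ≤ 65 * (M:ℝ) ^ 3)
    unfold vd
    linarith
  have h3 := norm_add_le ((∫ ω, NK (20 * (M * R)) a (∑ p : I, ω p) * starRingEnd ℂ (NK (20 * (M * R)) b (∑ p : I, ω p))
      ∂(tm δ I)) - ∫ ω, Complex.exp (a * ∑ p : I, ω p) *
      starRingEnd ℂ (Complex.exp (b * ∑ p : I, ω p)) ∂(tm δ I)) (∫ ω, Complex.exp (a * ∑ p : I, ω p) *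
      starRingEnd ℂ (Complex.exp (b * ∑ p : I, ω p)) ∂(tm δ I))
  rw [sub_add_cancel] at h3
  linarith

end

end Pool.Agent.Run7.h290.PH
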