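import Pool.Agent.Y753.NL.All0
import Pool.Agent.Y755.Gm7

set_option autoImplicit false

/-! The moment functions with phases, and closeness on the good set. -/

namespace Pool.Agent.Run7.h290.PH

open Finset Filter MeasureTheory MonoidAlgebra Topology
open Pool.Agent.Y755
open Pool.Agent.Y753.NL
open Pool.Agent.W184.NZ
open Pool.Agent.H306R2 (lc lc_zero lc_nonneg lc_pos lc_summable)

/-- the power of the modulus times the power of the phase -/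
noncomputable def Ph (α : ℝ) (m : ℤ) (w : ℂ) : ℂ := ((‖w‖ ^ (2 * α) : ℝ) : ℂ) * (w / (‖w‖ : ℂ)) ^ m

lemma phase_norm {w : ℂ} (hw : w ≠ 0) : ‖w / (‖w‖ : ℂ)‖ = 1 := by
  rw [norm_div, Complex.norm_real, norm_norm, div_self (norm_ne_zero_iff.mpr hw)]

lemma Ph_norm {α : ℝ} {m : ℤ} {w : ℂ} (hw : w ≠ 0) : ‖Ph α m w‖ = ‖w‖ ^ (2 * α) := by
  unfold Ph
  rw [norm_mul, norm_zpow, phase_norm hw, one_zpow, mul_one, Complex.norm_real, Real.norm_of_nonneg (by positivity)]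

lemma Ph_norm_le {α : ℝ} (hα : 0 < α) (m : ℤ) (w : ℂ) : ‖Ph α m w‖ ≤ ‖w‖ ^ (2 * α) := by
  by_cases hw : w = 0
  · subst hw
    unfold Ph
    rw [norm_zero, Real.zero_rpow (by positivity)]
    simp
  · exact (Ph_norm hw).le

lemma Ph_mul {α : ℝ} {m : ℤ} (w v : ℂ) : Ph α m (w * v) = Ph α m w * Ph α m v := by
  unfold Ph
  rw [norm_mul, Real.mul_rpow (norm_nonneg _) (norm_nonneg _)]
  have e : w * v / (((‖w‖ * ‖v‖ : ℝ)) : ℂ) = (w / (‖w‖ : ℂ)) * (v / (‖v‖ : ℂ)) := by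
    rw [Complex.ofReal_mul, mul_div_mul_comm]
  rw [e, mul_zpow]
  push_cast
  ring

lemma Ph_ne {α : ℝ} {m : ℤ} {w : ℂ} (hw : w ≠ 0) : Ph α m w ≠ 0 := by
  rw [← norm_pos_iff, Ph_norm hw]
  have := norm_pos_iff.mpr hw
  positivity

lemma Ph_exp {α a b : ℝ} {m : ℤ} (h1 : a + b = 2 * α) (h2 : a - b = m) (S : ℂ) :
    Ph α m (Complex.exp S) = Complex.exp (a * S) * starRingEnd ℂ (Complex.exp (b * S)) := by
  have e0 : ‖Complex.exp S‖ = Real.exp S.re := Complex.norm_exp S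
  unfold Ph
  rw [e0, ← Real.exp_mul, ← Complex.exp_conj, ← Complex.exp_add, Complex.ofReal_exp, Complex.ofReal_exp, ← Complex.exp_sub,
    ← Complex.exp_int_mul, ← Complex.exp_add]
  congr 1
  rw [map_mul, Complex.conj_ofReal]
  apply Complex.ext
  · simp
    linear_combination (-S.re) * h1
  · simp
    have h3 : (m:ℝ) = a - b := h2.symm
    rw [h3]
    ring

/-- powers of a unit vector -/
lemma unit_pow {w : ℂ} (hw : ‖w‖ = 1) (m : ℤ) : ‖w ^ m - 1‖ ≤ |(m:ℝ)| * ‖w - 1‖ := by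
  have hn : ∀ n : ℕ, ‖w ^ n - 1‖ ≤ (n:ℝ) * ‖w - 1‖ := by
    intro n
    induction n with
    | zero => simp
    | succ n ih =>
      have e : w ^ (n + 1) - 1 = w * (w ^ n - 1) + (w - 1) := by ring
      rw [e]
      refine (norm_add_le _ _).trans ?_
      rw [norm_mul, hw, one_mul]
      push_cast
      linarith
  obtain ⟨n, rfl | rfl⟩ := m.eq_nat_or_neg
  · rw [zpow_natCast]
    simpa using hn n
  · have hw0 : w ≠ 0 := by
      intro h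
      rw [h, norm_zero] at hw
      exact zero_ne_one hw
    have e : w ^ (-(n:ℤ)) - 1 = -(w ^ (-(n:ℤ))) * (w ^ n - 1) := by
      rw [zpow_neg, zpow_natCast]
      have := pow_ne_zero n hw0
      field_simp
      ring
    rw [e, norm_mul, norm_neg, norm_zpow, hw, one_zpow, one_mul]
    simpa using hn n

/-- the moment functions near one -/
lemma Ph_near {α e1 ε : ℝ} {M : ℕ} {m : ℤ} (hα : 0 ≤ α) (hαM : α ≤ M) (hm : |(m:ℝ)| ≤ M) (hM : 1 ≤ M) (he1 : 0 < e1)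
    (hε1 : ε ≤ 1 / 10) (h1 : (1 + e1) ^ (2 * (M:ℝ)) ≤ 1 + ε) (h2 : 1 - ε ≤ (1 - e1) ^ (2 * (M:ℝ)))
    {u : ℂ} (hu : ‖u‖ ≤ e1) : ‖Ph α m (1 + u) - 1‖ ≤ 3 * ε := by
  have hM1 : (1:ℝ) ≤ M := by exact_mod_cast hM
  have hb : 1 + 2 * (M:ℝ) * e1 ≤ (1 + e1) ^ (2 * (M:ℝ)) := one_add_mul_self_le_rpow_one_add (by linarith) (by linarith)
  have he2 : 2 * (M:ℝ) * e1 ≤ ε := by linarith
  have he3 : e1 ≤ ε / 2 := by nlinarith
  have hε0 : 0 < ε := by nlinarith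
  obtain ⟨r, hr⟩ : ∃ r, r = ‖1 + u‖ := ⟨_, rfl⟩
  have hr1 : r ≤ 1 + e1 := by
    have := norm_add_le (1:ℂ) u
    rw [norm_one] at this
    rw [hr]; linarith
  have hr2 : 1 - e1 ≤ r := by
    have := norm_sub_norm_le (1:ℂ) (-u)
    rw [norm_one, norm_neg, sub_neg_eq_add] at this
    rw [hr]; linarith
  have hr0 : 0 < r := by linarith
  have hw0 : (1 + u : ℂ) ≠ 0 := by
    intro h
    rw [h, norm_zero] at hr
    linarith
  have g1 : |r ^ (2 * α) - 1| ≤ ε := by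
    rw [abs_le]
    constructor
    · have : (1 - e1) ^ (2 * (M:ℝ)) ≤ r ^ (2 * α) := by
        calc (1 - e1) ^ (2 * (M:ℝ)) ≤ (1 - e1) ^ (2 * α) :=
              Real.rpow_le_rpow_of_exponent_ge (by linarith) (by linarith) (by linarith)
          _ ≤ _ := Real.rpow_le_rpow (by linarith) hr2 (by linarith)
      linarith
    · have : r ^ (2 * α) ≤ (1 + e1) ^ (2 * (M:ℝ)) := by
        calc r ^ (2 * α) ≤ (1 + e1) ^ (2 * α) := Real.rpow_le_rpow hr0.le hr1 (by linarith)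
          _ ≤ _ := Real.rpow_le_rpow_of_exponent_le (by linarith) (by linarith)
      linarith
  obtain ⟨w, hw⟩ : ∃ w, w = (1 + u) / ((‖1 + u‖ : ℝ) : ℂ) := ⟨_, rfl⟩
  have hw1 : ‖w‖ = 1 := by rw [hw]; exact phase_norm hw0
  have g2 : ‖w - 1‖ ≤ 3 * e1 := by
    have hrc : (r:ℂ) ≠ 0 := by exact_mod_cast hr0.ne'
    have e : w - 1 = (u + (1 - (r:ℂ))) / (r:ℂ) := by
      rw [hw, ← hr]; field_simp; ring
    rw [e, norm_div, Complex.norm_real, Real.norm_of_nonneg hr0.le, div_le_iff₀ hr0]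
    have g3 : ‖(1:ℂ) - (r:ℂ)‖ ≤ e1 := by
      have : (1:ℂ) - (r:ℂ) = ((1 - r : ℝ) : ℂ) := by push_cast; ring
      rw [this, Complex.norm_real, Real.norm_eq_abs, abs_le]
      constructor <;> linarith
    have := norm_add_le u (1 - (r:ℂ))
    nlinarith
  have g4 : ‖w ^ m - 1‖ ≤ 3 / 2 * ε := by
    refine (unit_pow hw1 m).trans ?_
    calc |(m:ℝ)| * ‖w - 1‖ ≤ M * (3 * e1) := mul_le_mul hm g2 (norm_nonneg _) (by linarith)
      _ ≤ _ := by linarith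
  have e2 : Ph α m (1 + u) - 1 = ((r ^ (2 * α) - 1 : ℝ) : ℂ) * w ^ m + (w ^ m - 1) := by
    unfold Ph
    rw [← hw, ← hr]
    push_cast
    ring
  rw [e2]
  refine (norm_add_le _ _).trans ?_
  rw [norm_mul, norm_zpow, hw1, one_zpow, mul_one, Complex.norm_real, Real.norm_eq_abs]
  linarith

/-- closeness on the good set -/
theorem on_good_ph {J Rs : ℕ} {K : ℕ → ℕ} {M : ℕ} {e1 ε α a b : ℝ} {m : ℤ} (hα : 0 < α) (hαM : α ≤ M) (hm : |(m:ℝ)| ≤ M)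
    (hM : 1 ≤ M) (h1 : a + b = 2 * α) (h2 : a - b = m) (he1 : 0 < e1) (hε : 0 < ε) (hε1 : ε ≤ 1 / 10)
    (p1 : (1 + e1) ^ (2 * (M:ℝ)) ≤ 1 + ε) (p2 : 1 - ε ≤ (1 - e1) ^ (2 * (M:ℝ)))
    (hca : ∀ i, Cl (K i) a (RR Rs i)) (hcb : ∀ i, Cl (K i) b (RR Rs i))
    (h4 : 4 * Real.exp (-(2 * (Rs:ℝ))) ≤ ε / 4) (ζ P A1 A2 : ℂ) (hP : P ≠ 0) (X : ℕ → ℂ) (hG : Gd J Rs e1 (ζ * P) X)
    (hPA : ‖Ph α m P * (A1 * starRingEnd ℂ A2) - 1‖ ≤ ε) :
    ‖Ph α m ζ - (A1 * ∏ i ∈ range J, NK (K i) a (X i)) * starRingEnd ℂ (A2 * ∏ i ∈ range J, NK (K i) b (X i))‖ ≤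
      12 * ε * ‖ζ‖ ^ (2 * α) := by
  obtain ⟨hX, hv⟩ := hG
  obtain ⟨θ, hθ, hθe⟩ := prod_Cl hca hX (h4.trans (by linarith))
  obtain ⟨φ, hφ, hφe⟩ := prod_Cl hcb hX (h4.trans (by linarith))
  rw [hθe, hφe]
  obtain ⟨S, hS⟩ : ∃ S, S = ∑ i ∈ range J, X i := ⟨_, rfl⟩
  rw [← hS] at hv ⊢
  obtain ⟨ψ, hψ⟩ : ∃ ψ, ψ = Ph α m P * (A1 * starRingEnd ℂ A2) - 1 := ⟨_, rfl⟩
  rw [← hψ] at hPA
  obtain ⟨u, hu⟩ : ∃ u, u = ζ * P * Complex.exp (-S) - 1 := ⟨_, rfl⟩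
  rw [← hu] at hv
  have hexp : Complex.exp (-S) * Complex.exp S = 1 := by rw [← Complex.exp_add]; simp
  have hz : ζ * P = Complex.exp S * (1 + u) := by
    rw [hu]
    linear_combination (-(ζ * P)) * hexp
  have hnear := Ph_near (α := α) hα.le hαM hm hM he1 hε1 p1 p2 hv
  obtain ⟨E, hE⟩ : ∃ E, E = Complex.exp (a * S) * starRingEnd ℂ (Complex.exp (b * S)) := ⟨_, rfl⟩
  have hΦ : Ph α m ζ * Ph α m P = E * Ph α m (1 + u) := by
    rw [← Ph_mul, hz, Ph_mul, Ph_exp h1 h2, hE]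
  have hPn := Ph_ne (α := α) (m := m) hP
  have hPn0 : 0 < ‖Ph α m P‖ := norm_pos_iff.mpr hPn
  have key : Ph α m P * (Ph α m ζ - (A1 * (Complex.exp (a * S) * (1 + θ))) *
      starRingEnd ℂ (A2 * (Complex.exp (b * S) * (1 + φ)))) =
      E * ((Ph α m (1 + u) - 1) - ((1 + ψ) * ((1 + θ) * (1 + starRingEnd ℂ φ)) - 1)) := by
    have e1 : (1 + ψ) = Ph α m P * (A1 * starRingEnd ℂ A2) := by rw [hψ]; ring
    rw [e1, hE]
    simp only [map_mul, map_add, map_one]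
    rw [hE] at hΦ
    linear_combination hΦ
  have hθ' : ‖θ‖ ≤ ε / 4 := hθ.trans h4
  have hφ' : ‖starRingEnd ℂ φ‖ ≤ ε / 4 := by rw [RCLike.norm_conj]; exact hφ.trans h4
  have g1 : ‖(1 + ψ) * ((1 + θ) * (1 + starRingEnd ℂ φ)) - 1‖ ≤ 2 * ε := by
    have e1 : (1 + ψ) * ((1 + θ) * (1 + starRingEnd ℂ φ)) - 1 = ψ * ((1 + θ) * (1 + starRingEnd ℂ φ)) + θ * (1 + starRingEnd ℂ φ) +
        starRingEnd ℂ φ := by ring
    have n1 : ‖1 + θ‖ ≤ 1 + ε / 4 := (norm_add_le _ _).trans (by rw [norm_one]; linarith)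
    have n2 : ‖1 + starRingEnd ℂ φ‖ ≤ 1 + ε / 4 := (norm_add_le _ _).trans (by rw [norm_one]; linarith)
    rw [e1]
    refine (norm_add_le _ _).trans (le_trans (add_le_add (norm_add_le _ _) le_rfl) ?_)
    rw [norm_mul, norm_mul, norm_mul]
    have m1 : ‖1 + θ‖ * ‖1 + starRingEnd ℂ φ‖ ≤ (1 + ε / 4) * (1 + ε / 4) :=
      mul_le_mul n1 n2 (norm_nonneg _) (by linarith)
    have m2 : ‖ψ‖ * (‖1 + θ‖ * ‖1 + starRingEnd ℂ φ‖) ≤ ε * ((1 + ε / 4) * (1 + ε / 4)) :=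
      mul_le_mul hPA m1 (by positivity) hε.le
    have m3 : ‖θ‖ * ‖1 + starRingEnd ℂ φ‖ ≤ ε / 4 * (1 + ε / 4) := mul_le_mul hθ' n2 (norm_nonneg _) (by linarith)
    have q0 : 1 + ε / 4 ≤ 41 / 40 := by linarith
    have q1 : (1 + ε / 4) * (1 + ε / 4) ≤ 11 / 10 :=
      (mul_le_mul q0 q0 (by linarith) (by norm_num)).trans (by norm_num)
    have q2 : ε * ((1 + ε / 4) * (1 + ε / 4)) ≤ ε * (11 / 10) := mul_le_mul_of_nonneg_left q1 hε.le
    have q3 : ε / 4 * (1 + ε / 4) ≤ ε / 4 * (41 / 40) := mul_le_mul_of_nonneg_left q0 (by linarith)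
    linarith
  have g2 : ‖Ph α m P‖ * ‖Ph α m ζ - (A1 * (Complex.exp (a * S) * (1 + θ))) *
      starRingEnd ℂ (A2 * (Complex.exp (b * S) * (1 + φ)))‖ ≤ ‖E‖ * (5 * ε) := by
    rw [← norm_mul, key, norm_mul]
    refine mul_le_mul_of_nonneg_left ?_ (norm_nonneg _)
    refine (norm_sub_le _ _).trans ?_
    linarith
  have g3 : ‖E‖ * (1 - 3 * ε) ≤ ‖Ph α m ζ‖ * ‖Ph α m P‖ := by
    rw [← norm_mul, hΦ, norm_mul]
    refine mul_le_mul_of_nonneg_left ?_ (norm_nonneg _)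
    have := norm_sub_norm_le (1:ℂ) (1 - Ph α m (1 + u))
    rw [norm_one, sub_sub_cancel, norm_sub_rev] at this
    linarith
  have g4 : ‖E‖ ≤ 10 / 7 * (‖Ph α m ζ‖ * ‖Ph α m P‖) := by nlinarith [norm_nonneg E]
  have g5 : ‖Ph α m P‖ * ‖Ph α m ζ - (A1 * (Complex.exp (a * S) * (1 + θ))) *
      starRingEnd ℂ (A2 * (Complex.exp (b * S) * (1 + φ)))‖ ≤ ‖Ph α m P‖ * (12 * ε * ‖Ph α m ζ‖) := by
    refine g2.trans ?_
    have := mul_le_mul_of_nonneg_right g4 (by positivity : 0 ≤ 5 * ε)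
    refine this.trans ?_
    have : 0 ≤ ε * (‖Ph α m ζ‖ * ‖Ph α m P‖) := by positivity
    linarith
  refine (le_of_mul_le_mul_left g5 hPn0).trans ?_
  exact mul_le_mul_of_nonneg_left (Ph_norm_le hα m ζ) (by positivity)

/-- the logarithm of the small factor -/
noncomputable def Lz (z : ℕ) (s : ℂ) : ℂ := ∑ p ∈ S0 z, Complex.log (1 - (p:ℂ) ^ (-s))

lemma one_sub_ne {x : ℂ} (hx : ‖x‖ < 1) : (1:ℂ) - x ≠ 0 := by
  intro h
  have : x = 1 := by linear_combination -h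
  rw [this, norm_one] at hx
  exact lt_irrefl _ hx

lemma p_lt_one {p : ℕ} (hp : p.Prime) {s : ℂ} (hs : 1 / 2 ≤ s.re) : ‖(p:ℂ) ^ (-s)‖ < 1 :=
  (norm_p_le hp.two_le hs).trans_lt (half_lt_one hp.two_le)

lemma exp_Lz (z : ℕ) {s : ℂ} (hs : 1 / 2 ≤ s.re) : Complex.exp (Lz z s) = es s (Pz z) := by
  unfold Lz Pz
  rw [Complex.exp_sum, map_prod]
  refine prod_congr rfl fun p hp => ?_
  rw [Complex.exp_log (one_sub_ne (p_lt_one (mem_S0.mp hp).2 hs)), map_sub, map_one, es_single, Complex.ofReal_one, one_mul]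

/-- uniform local approximation, real exponents -/
lemma loc_unif_r {α : ℝ} (hα : 0 < α) {r : ℝ} (hr : 0 < r) (hr1 : r < 1) {η : ℝ} (hη : 0 < η) :
    ∃ K0 : ℕ, ∀ K : ℕ, K0 ≤ K → ∀ x : ℂ, ‖x‖ ≤ r →
      ‖Complex.exp (α * Complex.log (1 - x)) * ∑ j ∈ range (K + 1), (lc α j : ℂ) * x ^ j - 1‖ ≤ η := by
  have hs := lc_summable hα hr hr1
  have ht := hs.hasSum.tendsto_sum_nat
  have h2 : (0:ℝ) < η / 2 ^ α := by positivity
  have h3 := ht.eventually (lt_mem_nhds (sub_lt_self _ h2))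
  obtain ⟨K0, hK0⟩ := eventually_atTop.mp h3
  refine ⟨K0, fun K hK x hx => ?_⟩
  have hx1 : ‖x‖ < 1 := lt_of_le_of_lt hx hr1
  have hsum := lc_hasSum α hx1
  have hK := hK0 (K + 1) (by omega)
  have h4 := tail_close (f := fun j => lc α j * r ^ j) (g := fun j => (lc α j : ℂ) * x ^ j) hs (fun j => by
    rw [norm_mul, norm_pow, Complex.norm_real, Real.norm_of_nonneg (lc_nonneg hα.le j)]
    exact mul_le_mul_of_nonneg_left (pow_le_pow_left₀ (norm_nonneg _) hx j) (lc_nonneg hα.le j))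
    (F := range (K + 1)) (e := η / 2 ^ α) (by linarith)
  rw [hsum.tsum_eq] at h4
  have hne := one_sub_ne hx1
  have e1 : Complex.exp (α * Complex.log (1 - x)) = (1 - x) ^ (α:ℂ) := by
    rw [Complex.cpow_def_of_ne_zero hne, mul_comm]
  rw [e1]
  have hc0 : (1 - x) ^ (α:ℂ) ≠ 0 := by
    rw [← e1]; exact Complex.exp_ne_zero _
  set S := ∑ j ∈ range (K + 1), (lc α j : ℂ) * x ^ j with hS
  have hle : ‖1 - x‖ ≤ 2 := by
    refine (norm_sub_le _ _).trans ?_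
    rw [norm_one]; linarith
  have h7 : (1 - x) ^ (α:ℂ) * S - 1 = (1 - x) ^ (α:ℂ) * (S - 1 / (1 - x) ^ (α:ℂ)) := by
    field_simp
  rw [h7, norm_mul, Complex.norm_cpow_real, norm_sub_rev S]
  calc ‖1 - x‖ ^ α * ‖1 / (1 - x) ^ (α:ℂ) - S‖ ≤ 2 ^ α * (η / 2 ^ α) :=
        mul_le_mul (Real.rpow_le_rpow (norm_nonneg _) hle hα.le) h4 (norm_nonneg _) (by positivity)
    _ = η := by field_simp

lemma prod_close_c' (P : Finset ℕ) {η : ℝ} (hη : 0 < η) : ∃ e : ℝ, 0 < e ∧ ∀ f : ℕ → ℂ, (∀ p ∈ P, ‖f p - 1‖ ≤ e) →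
    ‖∏ p ∈ P, f p - 1‖ ≤ η := by
  classical
  induction P using Finset.induction_on generalizing η with
  | empty => exact ⟨1, one_pos, fun f _ => by simpa using hη.le⟩
  | insert a P ha ih =>
    obtain ⟨e, he, h⟩ := ih (η := min (η / 3) 1) (lt_min (by positivity) one_pos)
    refine ⟨min e (min (η / 3) 1), lt_min he (lt_min (by positivity) one_pos), fun f hf => ?_⟩
    rw [prod_insert ha]
    have h1 := h f fun p hp => (hf p (mem_insert_of_mem hp)).trans (min_le_left _ _)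
    have h2 := (hf a (mem_insert_self _ _)).trans (min_le_right _ _)
    set x := f a
    set y := ∏ p ∈ P, f p
    have h3 : ‖y - 1‖ ≤ η / 3 := h1.trans (min_le_left _ _)
    have h4 : ‖y - 1‖ ≤ 1 := h1.trans (min_le_right _ _)
    have h5 : ‖x - 1‖ ≤ η / 3 := h2.trans (min_le_left _ _)
    have e1 : x * y - 1 = (x - 1) * (y - 1) + (x - 1) + (y - 1) := by ring
    rw [e1]
    refine (norm_add_le _ _).trans ?_
    refine (add_le_add (norm_add_le _ _) le_rfl).trans ?_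
    rw [norm_mul]
    have h6 : ‖x - 1‖ * ‖y - 1‖ ≤ η / 3 * 1 := mul_le_mul h5 h4 (norm_nonneg _) (by positivity)
    linarith

/-- polynomials over the small primes, all real exponents -/
theorem AP_ex (z : ℕ) (a : ℝ) {η : ℝ} (hη : 0 < η) : ∃ A : P1, (∃ m : ℝ, Bd1 m A) ∧ A ∈ SA1 (M1 (S0 z)) ∧
    ∀ s : ℂ, 1 / 2 ≤ s.re → ‖es s A * Complex.exp (a * Lz z s) - 1‖ ≤ η := by
  obtain ⟨n, hn⟩ : ∃ n : ℕ, 0 < a + n := by
    obtain ⟨n, hn⟩ := exists_nat_gt (-a)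
    exact ⟨n, by linarith⟩
  obtain ⟨e, he, hp⟩ := prod_close_c' (S0 z) hη
  have hr0 : (0:ℝ) < (2:ℝ) ^ (-(1 / 2 : ℝ)) := by positivity
  have hr1 : (2:ℝ) ^ (-(1 / 2 : ℝ)) < 1 := Real.rpow_lt_one_of_one_lt_of_neg (by norm_num) (by norm_num)
  obtain ⟨K, hK⟩ := loc_unif_r hn hr0 hr1 he
  have hmem : Az (a + n) K z * Pz z ^ n ∈ SA1 (M1 (S0 z)) :=
    Subalgebra.mul_mem _ (Az_mem _ K z) (Subalgebra.pow_mem _ (Pz_mem z) n)
  refine ⟨Az (a + n) K z * Pz z ^ n, Bd1_of fun x hx => (hmem x hx).1, hmem, fun s hs => ?_⟩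
  have h1 := hp (fun p => Complex.exp (((a + n : ℝ) : ℂ) * Complex.log (1 - (p:ℂ) ^ (-s))) *
      ∑ j ∈ range (K + 1), (lc (a + n) j : ℂ) * ((p:ℂ) ^ (-s)) ^ j)
    (fun p hpp => by
      have hpr := (mem_S0.mp hpp).2
      refine hK K le_rfl _ ((norm_p_le hpr.two_le hs).trans ?_)
      exact Real.rpow_le_rpow_of_nonpos (by norm_num) (by exact_mod_cast hpr.two_le) (by norm_num))
  refine le_trans (le_of_eq ?_) h1
  congr 2
  rw [prod_mul_distrib, ← Complex.exp_sum, ← mul_sum]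
  have e2 : ∏ p ∈ S0 z, ∑ j ∈ range (K + 1), (lc (a + n) j : ℂ) * ((p:ℂ) ^ (-s)) ^ j = es s (Az (a + n) K z) := by
    unfold Az
    rw [map_prod]
    exact prod_congr rfl fun p hpp => by rw [es_Lp s (mem_S0.mp hpp).2]
  rw [e2, map_mul, map_pow, ← exp_Lz z hs, ← Complex.exp_nat_mul]
  have e3 : Complex.exp (((a + n : ℝ) : ℂ) * ∑ p ∈ S0 z, Complex.log (1 - (p:ℂ) ^ (-s))) =
      Complex.exp ((n:ℂ) * Lz z s) * Complex.exp (a * Lz z s) := by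
    rw [← Complex.exp_add]
    congr 1
    unfold Lz
    push_cast
    ring
  rw [e3]
  ring

/-- the pair of polynomials over the small primes -/
theorem pair_ex {z : ℕ} {ε : ℝ} (hε : 0 < ε) (hε1 : ε ≤ 1 / 10) : ∃ ρ : ℝ, 0 < ρ ∧ ∀ (α0 : ℝ) (m : ℤ),
    ∃ A1 A2 : P1, (∃ m1 : ℝ, Bd1 m1 A1) ∧ (∃ m2 : ℝ, Bd1 m2 A2) ∧ A1 ∈ SA1 (M1 (S0 z)) ∧ A2 ∈ SA1 (M1 (S0 z)) ∧
      ∀ α : ℝ, |α - α0| ≤ ρ → ∀ s : ℂ, 1 / 2 ≤ s.re →
        ‖Ph α m (es s (Pz z)) * (es s A1 * starRingEnd ℂ (es s A2)) - 1‖ ≤ ε := by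
  obtain ⟨M0, hM0, hM⟩ := Pz_range (z := z)
  refine ⟨ε / (16 * (M0 + 1)), by positivity, fun α0 m => ?_⟩
  obtain ⟨A1, h1, h2, h3⟩ := AP_ex z (α0 + m / 2) (η := ε / 8) (by positivity)
  obtain ⟨A2, k1, k2, k3⟩ := AP_ex z (α0 - m / 2) (η := ε / 8) (by positivity)
  refine ⟨A1, A2, h1, k1, h2, k2, fun α hα s hs => ?_⟩
  obtain ⟨φ, hφ⟩ : ∃ φ, φ = es s A1 * Complex.exp (((α0 + m / 2 : ℝ) : ℂ) * Lz z s) - 1 := ⟨_, rfl⟩
  obtain ⟨ψ, hψ⟩ : ∃ ψ, ψ = es s A2 * Complex.exp (((α0 - m / 2 : ℝ) : ℂ) * Lz z s) - 1 := ⟨_, rfl⟩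
  have g1 := h3 s hs
  have g2 := k3 s hs
  rw [← hφ] at g1
  rw [← hψ] at g2
  have hP : Ph α m (es s (Pz z)) = Complex.exp (((α + m / 2 : ℝ) : ℂ) * Lz z s) *
      starRingEnd ℂ (Complex.exp (((α - m / 2 : ℝ) : ℂ) * Lz z s)) := by
    rw [← exp_Lz z hs]
    exact Ph_exp (by ring) (by ring) _
  have hre : (Lz z s).re = Real.log ‖es s (Pz z)‖ := by
    rw [← exp_Lz z hs, Complex.norm_exp, Real.log_exp]
  have e1 : Ph α m (es s (Pz z)) * (es s A1 * starRingEnd ℂ (es s A2)) =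
      ((Real.exp (2 * (α - α0) * (Lz z s).re) : ℝ) : ℂ) * ((1 + φ) * starRingEnd ℂ (1 + ψ)) := by
    have a1 : 1 + φ = es s A1 * Complex.exp (((α0 + m / 2 : ℝ) : ℂ) * Lz z s) := by rw [hφ]; ring
    have a2 : 1 + ψ = es s A2 * Complex.exp (((α0 - m / 2 : ℝ) : ℂ) * Lz z s) := by rw [hψ]; ring
    have a3 : Complex.exp (((α + m / 2 : ℝ) : ℂ) * Lz z s) = Complex.exp (((α - α0 : ℝ) : ℂ) * Lz z s) *
        Complex.exp (((α0 + m / 2 : ℝ) : ℂ) * Lz z s) := by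
      rw [← Complex.exp_add]; congr 1; push_cast; ring
    have a4 : Complex.exp (((α - m / 2 : ℝ) : ℂ) * Lz z s) = Complex.exp (((α - α0 : ℝ) : ℂ) * Lz z s) *
        Complex.exp (((α0 - m / 2 : ℝ) : ℂ) * Lz z s) := by
      rw [← Complex.exp_add]; congr 1; push_cast; ring
    have a5 : Complex.exp (((α - α0 : ℝ) : ℂ) * Lz z s) * starRingEnd ℂ (Complex.exp (((α - α0 : ℝ) : ℂ) * Lz z s)) =
        ((Real.exp (2 * (α - α0) * (Lz z s).re) : ℝ) : ℂ) := by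
      rw [Complex.mul_conj, Complex.normSq_eq_norm_sq, Complex.norm_exp, Complex.re_ofReal_mul, ← Real.exp_nat_mul]
      congr 2
      push_cast
      ring
    rw [hP, a1, a2, a3, a4, ← a5]
    simp only [map_mul]
    ring
  rw [e1]
  obtain ⟨X, hX⟩ : ∃ X, X = Real.exp (2 * (α - α0) * (Lz z s).re) := ⟨_, rfl⟩
  rw [← hX]
  have g3 : |X - 1| ≤ ε / 4 := by
    have h5 : |2 * (α - α0) * (Lz z s).re| ≤ ε / 8 := by
      rw [hre, abs_mul, abs_mul, abs_two]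
      have := hM s hs
      calc 2 * |α - α0| * |Real.log ‖es s (Pz z)‖| ≤ 2 * (ε / (16 * (M0 + 1))) * (M0 + 1) := by
            gcongr
            linarith
        _ = ε / 8 := by field_simp; ring
    have h6 := exp_near (h5.trans (by linarith))
    rw [hX]
    linarith
  have e2 : (X:ℂ) * ((1 + φ) * starRingEnd ℂ (1 + ψ)) - 1 = ((X - 1 : ℝ) : ℂ) * ((1 + φ) * (1 + starRingEnd ℂ ψ)) +
      (φ * (1 + starRingEnd ℂ ψ) + starRingEnd ℂ ψ) := by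
    rw [map_add, map_one]; push_cast; ring
  rw [e2]
  have n1 : ‖1 + φ‖ ≤ 1 + ε / 8 := (norm_add_le _ _).trans (by rw [norm_one]; linarith)
  have n2 : ‖1 + starRingEnd ℂ ψ‖ ≤ 1 + ε / 8 := (norm_add_le _ _).trans (by rw [norm_one, RCLike.norm_conj]; linarith)
  refine (norm_add_le _ _).trans ?_
  rw [norm_mul, norm_mul, Complex.norm_real, Real.norm_eq_abs]
  have m1 : ‖1 + φ‖ * ‖1 + starRingEnd ℂ ψ‖ ≤ (1 + ε / 8) * (1 + ε / 8) := mul_le_mul n1 n2 (norm_nonneg _) (by linarith)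
  have m2 : |X - 1| * (‖1 + φ‖ * ‖1 + starRingEnd ℂ ψ‖) ≤ ε / 4 * ((1 + ε / 8) * (1 + ε / 8)) :=
    mul_le_mul g3 m1 (by positivity) (by linarith)
  have m3 : ‖φ * (1 + starRingEnd ℂ ψ) + starRingEnd ℂ ψ‖ ≤ ε / 8 * (1 + ε / 8) + ε / 8 := by
    refine (norm_add_le _ _).trans (add_le_add ?_ (by rw [RCLike.norm_conj]; exact g2))
    rw [norm_mul]
    exact mul_le_mul g1 n2 (norm_nonneg _) (by linarith)
  have q0 : 1 + ε / 8 ≤ 81 / 80 := by linarith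
  have q1 : (1 + ε / 8) * (1 + ε / 8) ≤ 11 / 10 :=
    (mul_le_mul q0 q0 (by linarith) (by norm_num)).trans (by norm_num)
  have q2 : ε / 4 * ((1 + ε / 8) * (1 + ε / 8)) ≤ ε / 4 * (11 / 10) := mul_le_mul_of_nonneg_left q1 (by linarith)
  have q3 : ε / 8 * (1 + ε / 8) ≤ ε / 8 * (81 / 80) := mul_le_mul_of_nonneg_left q0 (by linarith)
  linarith

end Pool.Agent.Run7.h290.PH
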