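import Pool.Agent.Run7.h290.PH.A
import Pool.Agent.Run7.h290.PH.B
import Pool.Agent.Y753.NL.All3

set_option autoImplicit false

/-! Products over the blocks: the majorant off the good set, and mean values with two exponents. -/

namespace Pool.Agent.Run7.h290.PH

open Finset Filter MeasureTheory MonoidAlgebra
open Pool.Agent.Y755
open Pool.Agent.Y753.NL
open Pool.Agent.W184.NZ

section

variable {M M' : ℕ} {c y δ κ W X1 X2 : ℝ} {z J Rs N K : ℕ} {A0 : P1} {m : ℝ}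

/-- one factor of a mixed product -/
noncomputable def gt (M M' : ℕ) (κ : ℝ) (z : ℕ) (y : ℝ) (Rs : ℕ) (t : Finset ℕ) (i : ℕ) : P1 :=
  if i ∈ t then NK (20 * (M' * RR Rs i)) κ (x1 (IZ z y i)) else qf M (RR Rs i) (IZ z y i)

/-- the mixed products -/
noncomputable def PT (M M' : ℕ) (κ : ℝ) (z : ℕ) (y : ℝ) (J Rs : ℕ) (t : Finset ℕ) : P1 :=
  ∏ i ∈ range J, gt M M' κ z y Rs t i

lemma PT_full : PT M M' κ z y J Rs (range J) = Bm M' κ z y J Rs := by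
  unfold PT Bm gt
  exact prod_congr rfl fun i hi => by rw [if_pos hi]

lemma gt_mem (t : Finset ℕ) (i : ℕ) : gt M M' κ z y Rs t i ∈ SA1 (M1 (IZ z y i)) := by
  unfold gt
  split_ifs
  · exact NK_mem1 (x1_mem (IZ_prime i)) _ _
  · exact qf_mem (IZ_prime i) _

lemma PT_mem (t : Finset ℕ) : PT M M' κ z y J Rs t ∈ SA1 (M1 ((range J).biUnion (IZ z y))) :=
  prod_mem1 J fun i _ => gt_mem t i

lemma PT_Bd (h : Sy c z y J Rs N K) (hM'M : M' ≤ M) (t : Finset ℕ) :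
    Bd1 (Real.exp (Real.log y * (80 * (M * ((Rs:ℝ) + 1))))) (PT M M' κ z y J Rs t) := by
  have h1 := Bd1_prod J (f := fun i => gt M M' κ z y Rs t i)
    (N := fun i => bb y i ^ (40 * M * (Rs + i))) fun i hi => by
      have hb : 1 ≤ bb y i := by have := h.rg.b10 i hi; linarith
      have hx := x1_Bd (rg_b h.rg i)
      unfold gt
      split_ifs
      · refine (NK_Bd1 hb hx (20 * (M' * RR Rs i)) κ).mono (pow_le_pow_right₀ hb ?_)
        unfold RR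
        have : M' * (Rs + i) ≤ M * (Rs + i) := Nat.mul_le_mul_right _ hM'M
        nlinarith
      · refine ((hx.pow _).smul _).mono (pow_le_pow_right₀ hb ?_)
        unfold RR
        nlinarith
  refine h1.mono ((len h.y1 Rs J (40 * M)).trans (le_of_eq ?_))
  push_cast
  congr 1; ring

lemma qf_l1 {b : ℝ} (hb : 10 ≤ b) {I : Finset ℕ} (hf : l1' (x1 I) ≤ b) {R : ℕ} (hR : 1 ≤ R) :
    l1' (qf M R I) ≤ b ^ (22 * (M * R)) := by
  have hb0 : 0 < b := by linarith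
  have hR1 : (1:ℝ) ≤ R := by exact_mod_cast hR
  unfold qf
  refine (l1'_smul _ _).trans ?_
  have h1 : l1' (x1 I ^ (20 * (M * R))) ≤ b ^ (20 * (M * R)) :=
    (l1'_pow _ _).trans (pow_le_pow_left₀ (l1'_nonneg _) hf _)
  have h2 : |Real.exp (2 * M * R) * (1 / (R:ℝ)) ^ (20 * (M * R))| ≤ b ^ (2 * (M * R)) := by
    rw [abs_of_nonneg (by positivity)]
    have h3 : (1 / (R:ℝ)) ^ (20 * (M * R)) ≤ 1 := pow_le_one₀ (by positivity) (by rw [div_le_one (by linarith)]; exact hR1)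
    have h4 : Real.exp (2 * M * R) = Real.exp 1 ^ (2 * (M * R)) := by
      rw [← Real.exp_nat_mul]; congr 1; push_cast; ring
    have h5 : Real.exp 1 ≤ b := by have := Real.exp_one_lt_d9; linarith
    rw [h4]
    calc _ ≤ b ^ (2 * (M * R)) * 1 := mul_le_mul (pow_le_pow_left₀ (Real.exp_pos 1).le h5 _) h3 (by positivity) (by positivity)
      _ = _ := mul_one _
  calc _ ≤ b ^ (2 * (M * R)) * b ^ (20 * (M * R)) := mul_le_mul h2 h1 (l1'_nonneg _) (by positivity)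
    _ = _ := by rw [← pow_add]; congr 1; ring

lemma PT_l1 (h : Sy c z y J Rs N K) (hM : 1 ≤ M) (hM'M : M' ≤ M) (hκ : |κ| ≤ 2 * M') (t : Finset ℕ) :
    l1' (PT M M' κ z y J Rs t) ≤ Real.exp (Real.log y * (88 * (M * ((Rs:ℝ) + 1)))) := by
  have h1 := l1'_prod J (f := fun i => gt M M' κ z y Rs t i)
  refine h1.trans ?_
  have h2 : ∏ i ∈ range J, l1' (gt M M' κ z y Rs t i) ≤ ∏ i ∈ range J, bb y i ^ (44 * M * (Rs + i)) := by
    refine prod_le_prod (fun i _ => l1'_nonneg _) fun i hi => ?_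
    rw [mem_range] at hi
    have hb10 : 10 ≤ bb y i := h.rg.b10 i hi
    have hRs := h.R1
    have hx := x1_l1 (by linarith) (rg_b h.rg i)
    unfold gt
    split_ifs
    · refine (NK_l1M hb10 hx (20 * (M' * RR Rs i)) M' hκ).trans ?_
      refine pow_le_pow_right₀ (by linarith) ?_
      have e1 : M' * (Rs + i) ≤ M * (Rs + i) := Nat.mul_le_mul_right _ hM'M
      have e2 : M' * 1 ≤ M' * (Rs + i) := Nat.mul_le_mul_left M' (by omega)
      unfold RR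
      nlinarith
    · refine (qf_l1 hb10 hx (hRR h i)).trans (le_of_eq ?_)
      congr 1
      unfold RR
      ring
  refine h2.trans ((len h.y1 Rs J (44 * M)).trans (le_of_eq ?_))
  push_cast
  congr 1; ring

lemma PT_l1W (h : Sy c z y J Rs N K) (hM : 1 ≤ M) (hM'M : M' ≤ M) (hκ : |κ| ≤ 2 * M')
    (hW : Real.exp (Real.log y * (180 * (M * ((Rs:ℝ) + 1)))) ≤ W) (t : Finset ℕ) :
    l1' (A0 * PT M M' κ z y J Rs t) ^ 2 ≤ l1' A0 ^ 2 * W := by
  refine (pow_le_pow_left₀ (l1'_nonneg _) (l1'_mul _ _) 2).trans ?_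
  rw [mul_pow]
  refine mul_le_mul_of_nonneg_left ?_ (sq_nonneg _)
  refine (pow_le_pow_left₀ (l1'_nonneg _) (PT_l1 h hM hM'M hκ t) 2).trans ?_
  rw [← Real.exp_nat_mul]
  refine le_trans (le_of_eq ?_) (Wm_mono h hW (k := 176) (by norm_num))
  congr 1; push_cast; ring

lemma APT_Bd (h : Sy c z y J Rs N K) (hM'M : M' ≤ M) (hA : Bd1 m A0) (hm : 0 ≤ m)
    (hW : Real.exp (Real.log y * (180 * (M * ((Rs:ℝ) + 1)))) ≤ W) (t : Finset ℕ) : Bd1 (m * W) (A0 * PT M M' κ z y J Rs t) :=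
  (hA.mul (PT_Bd h hM'M t)).mono (mul_le_mul_of_nonneg_left (Wm_mono h hW (by norm_num)) hm)

lemma split_prod {f g : ℕ → ℝ} {t : Finset ℕ} (ht : t ⊆ range J) :
    ∏ i ∈ range J, (if i ∈ t then f i else g i) = (∏ i ∈ t, f i) * ∏ i ∈ range J \ t, g i := by
  rw [← prod_sdiff ht, mul_comm]
  congr 1
  · exact prod_congr rfl fun i hi => by rw [if_pos hi]
  · exact prod_congr rfl fun i hi => by rw [if_neg (mem_sdiff.mp hi).2]

/-- the majorant -/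
theorem w_maj (h : Sy c z y J Rs N K) (hM : 1 ≤ M) (hM' : 1 ≤ M') {a b : ℝ} (ha : |a| ≤ 2 * M) (hb : |b| ≤ 2 * M)
    (hκ : |κ| ≤ 2 * M') (hab : a + b = 2 * κ) {A1 A2 : P1} {s : ℂ}
    (hA : ‖es s A1‖ * ‖es s A2‖ ≤ 2 * ‖es s A0‖ ^ 2)
    (hE : ∑ i ∈ range J, 5 * Real.exp (-(RR Rs i : ℝ)) ≤ 1 / 2) :
    ‖es s (A1 * Bm M a z y J Rs)‖ * ‖es s (A2 * Bm M b z y J Rs)‖ ≤
      4 * ∑ t ∈ (range J).powerset, ‖es s (A0 * PT M M' κ z y J Rs t)‖ ^ 2 := by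
  have e1 : ∀ t ∈ (range J).powerset, ‖es s (A0 * PT M M' κ z y J Rs t)‖ ^ 2 = ‖es s A0‖ ^ 2 *
      ((∏ i ∈ t, ‖NK (20 * (M' * RR Rs i)) κ (PI (IZ z y i) s)‖ ^ 2) *
        ∏ i ∈ range J \ t, (Real.exp (2 * M * RR Rs i) * (‖PI (IZ z y i) s‖ / RR Rs i) ^ (20 * (M * RR Rs i))) ^ 2) := by
    intro t ht
    rw [mem_powerset] at ht
    rw [map_mul, norm_mul, mul_pow, PT, map_prod, norm_prod, ← prod_pow]
    congr 1
    rw [← split_prod ht]
    refine prod_congr rfl fun i _ => ?_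
    unfold gt
    split_ifs
    · rw [NK_map, es_x1]
    · rw [qf_map, es_x1]
  rw [sum_congr rfl e1, ← mul_sum]
  have e2 : ∑ t ∈ (range J).powerset, ((∏ i ∈ t, ‖NK (20 * (M' * RR Rs i)) κ (PI (IZ z y i) s)‖ ^ 2) *
        ∏ i ∈ range J \ t, (Real.exp (2 * M * RR Rs i) * (‖PI (IZ z y i) s‖ / RR Rs i) ^ (20 * (M * RR Rs i))) ^ 2) =
      ∏ i ∈ range J, (‖NK (20 * (M' * RR Rs i)) κ (PI (IZ z y i) s)‖ ^ 2 +
        (Real.exp (2 * M * RR Rs i) * (‖PI (IZ z y i) s‖ / RR Rs i) ^ (20 * (M * RR Rs i))) ^ 2) :=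
    (prod_add _ _ _).symm
  rw [e2, map_mul, map_mul, norm_mul, norm_mul, es_Bm, es_Bm, norm_prod, norm_prod]
  have h1 : (∏ i ∈ range J, ‖NK (20 * (M * RR Rs i)) a (PI (IZ z y i) s)‖) *
      (∏ i ∈ range J, ‖NK (20 * (M * RR Rs i)) b (PI (IZ z y i) s)‖) ≤
      2 * ∏ i ∈ range J, (‖NK (20 * (M' * RR Rs i)) κ (PI (IZ z y i) s)‖ ^ 2 +
        (Real.exp (2 * M * RR Rs i) * (‖PI (IZ z y i) s‖ / RR Rs i) ^ (20 * (M * RR Rs i))) ^ 2) := by
    rw [← prod_mul_distrib]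
    have h2 : ∏ i ∈ range J, ‖NK (20 * (M * RR Rs i)) a (PI (IZ z y i) s)‖ * ‖NK (20 * (M * RR Rs i)) b (PI (IZ z y i) s)‖ ≤
        ∏ i ∈ range J, (Real.exp (5 * Real.exp (-(RR Rs i : ℝ))) * (‖NK (20 * (M' * RR Rs i)) κ (PI (IZ z y i) s)‖ ^ 2 +
        (Real.exp (2 * M * RR Rs i) * (‖PI (IZ z y i) s‖ / RR Rs i) ^ (20 * (M * RR Rs i))) ^ 2)) := by
      refine prod_le_prod (fun i _ => by positivity) fun i _ => ?_
      refine (blk_maj hM hM' (hRR h i) (exp_RR_small h.R1 i) ha hb hκ hab (PI (IZ z y i) s)).trans ?_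
      rw [mul_add]
      refine add_le_add le_rfl (le_mul_of_one_le_left (sq_nonneg _) (Real.one_le_exp (by positivity)))
    refine h2.trans ?_
    rw [prod_mul_distrib, ← Real.exp_sum]
    refine mul_le_mul_of_nonneg_right ?_ (prod_nonneg fun i _ => by positivity)
    refine (Real.exp_le_exp.mpr hE).trans ?_
    have h3 : Real.exp (1 / 2) ^ 2 = Real.exp 1 := by rw [← Real.exp_nat_mul]; norm_num
    have h4 := Real.exp_one_lt_d9
    nlinarith [Real.exp_pos (1 / 2 : ℝ)]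
  have h5 : 0 ≤ ∏ i ∈ range J, (‖NK (20 * (M' * RR Rs i)) κ (PI (IZ z y i) s)‖ ^ 2 +
        (Real.exp (2 * M * RR Rs i) * (‖PI (IZ z y i) s‖ / RR Rs i) ^ (20 * (M * RR Rs i))) ^ 2) :=
    prod_nonneg fun i _ => by positivity
  calc _ = (‖es s A1‖ * ‖es s A2‖) * ((∏ i ∈ range J, ‖NK (20 * (M * RR Rs i)) a (PI (IZ z y i) s)‖) *
      (∏ i ∈ range J, ‖NK (20 * (M * RR Rs i)) b (PI (IZ z y i) s)‖)) := by ring
    _ ≤ (2 * ‖es s A0‖ ^ 2) * (2 * ∏ i ∈ range J, (‖NK (20 * (M' * RR Rs i)) κ (PI (IZ z y i) s)‖ ^ 2 +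
        (Real.exp (2 * M * RR Rs i) * (‖PI (IZ z y i) s‖ / RR Rs i) ^ (20 * (M * RR Rs i))) ^ 2)) :=
        mul_le_mul hA h1 (mul_nonneg (prod_nonneg fun _ _ => norm_nonneg _) (prod_nonneg fun _ _ => norm_nonneg _)) (by positivity)
    _ = _ := by ring

/-- sums over proper subsets -/
lemma subset_sum {n τ u v : ℕ → ℝ} (hn : ∀ i ∈ range J, 0 ≤ n i ∧ n i ≤ u i) (hτ : ∀ i ∈ range J, 0 ≤ τ i ∧ τ i ≤ v i)
    (hu : ∀ i ∈ range J, 1 ≤ u i) :
    ∑ t ∈ (range J).powerset.erase (range J), (∏ i ∈ t, n i) * ∏ i ∈ range J \ t, τ i ≤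
      (∏ i ∈ range J, u i) * (Real.exp (∑ i ∈ range J, v i) - 1) := by
  have h1 : ∑ t ∈ (range J).powerset.erase (range J), (∏ i ∈ t, n i) * ∏ i ∈ range J \ t, τ i ≤
      ∑ t ∈ (range J).powerset.erase (range J), (∏ i ∈ t, u i) * ∏ i ∈ range J \ t, v i := by
    refine sum_le_sum fun t ht => ?_
    rw [mem_erase, mem_powerset] at ht
    refine mul_le_mul (prod_le_prod (fun i hi => (hn i (ht.2 hi)).1) fun i hi => (hn i (ht.2 hi)).2)
      (prod_le_prod (fun i hi => (hτ i (mem_sdiff.mp hi).1).1) fun i hi => (hτ i (mem_sdiff.mp hi).1).2)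
      (prod_nonneg fun i hi => (hτ i (mem_sdiff.mp hi).1).1) (prod_nonneg fun i hi => by have := hu i (ht.2 hi); linarith)
  refine h1.trans ?_
  have h2 : ∏ i ∈ range J, (u i + v i) = ∑ t ∈ (range J).powerset, (∏ i ∈ t, u i) * ∏ i ∈ range J \ t, v i :=
    prod_add _ _ _
  have h3 := add_sum_erase (range J).powerset (fun t => (∏ i ∈ t, u i) * ∏ i ∈ range J \ t, v i)
    (mem_powerset.mpr (subset_refl (range J)))
  rw [← h2] at h3
  simp only [sdiff_self, Finset.bot_eq_empty, prod_empty, mul_one] at h3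
  have h4 : ∏ i ∈ range J, (u i + v i) ≤ (∏ i ∈ range J, u i) * Real.exp (∑ i ∈ range J, v i) := by
    rw [Real.exp_sum, ← prod_mul_distrib]
    refine prod_le_prod (fun i hi => ?_) fun i hi => ?_
    · have := hu i hi
      have := (hτ i hi).1.trans (hτ i hi).2
      linarith
    · have a1 := hu i hi
      have a2 := (hτ i hi).1.trans (hτ i hi).2
      have a3 := Real.add_one_le_exp (v i)
      nlinarith
  rw [mul_sub, mul_one]
  linarith

/-- the total error controls the constants -/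
lemma er_far (M : ℕ) (c : ℝ) (z : ℕ) (y : ℝ) (Rs i : ℕ) :
    4 * CEM M c * Real.exp (-(RR Rs i : ℝ)) + CEM M c * Real.exp (-(RR Rs i : ℝ)) ≤ 2 * erM M c z y Rs i := by
  have h1 := uI_nonneg (IZ z y i)
  have h2 : 1 ≤ Real.exp (750000 * (M:ℝ) ^ 9 * uI (IZ z y i)) := Real.one_le_exp (by positivity)
  have h3 := CEM_pos M c
  have h4 : 0 ≤ CEM M c * Real.exp (-(RR Rs i : ℝ)) := by positivity
  have h5 : 0 ≤ CEM M c * Real.exp (-(2 * (RR Rs i : ℝ))) := by positivity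
  unfold erM ebM
  linarith

/-- the mean values of the mixed products -/
theorem sum_PT (h : Sy c z y J Rs N K) (hM : 1 ≤ M) (hM' : 1 ≤ M') (hM'M : M' ≤ M) (hκ : |κ - 1| ≤ M')
    (hz : 40000 * M' ^ 6 ≤ z) (hz10 : 40000 * (10 * M) ^ 6 ≤ z)
    (hδ : 0 ≤ δ) (hA : Bd1 m A0) (hm : 0 ≤ m) (hAm : A0 ∈ SA1 (M1 (S0 z))) (hX1 : 0 ≤ X1) (hX12 : X1 ≤ X2)
    (hW : Real.exp (Real.log y * (180 * (M * ((Rs:ℝ) + 1)))) ≤ W) (hW0 : 0 ≤ W) :
    ∑ t ∈ (range J).powerset.erase (range J), ∫ x in X1..X2, ‖es (1 / 2 + δ + x * Complex.I) (A0 * PT M M' κ z y J Rs t)‖ ^ 2 ≤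
      X2 * (ip δ A0 A0 * (Real.exp (κ ^ 2 * Vd δ z y J + ETM M' c z y J Rs) * (Real.exp (2 * ETM (10 * M) c z y J Rs) - 1))) +
        2 ^ J * (4 * (m * W) * (l1' A0 ^ 2 * W)) := by
  obtain ⟨k0, k1, _⟩ := k_absM hM' hκ
  have e0 : 1 + (κ - 1) = κ := by ring
  rw [e0] at k1
  have h1 : ∀ t ∈ (range J).powerset.erase (range J),
      ∫ x in X1..X2, ‖es (1 / 2 + δ + x * Complex.I) (A0 * PT M M' κ z y J Rs t)‖ ^ 2 ≤
      X2 * (ip δ A0 A0 * ((∏ i ∈ t, ip δ (NK (20 * (M' * RR Rs i)) κ (x1 (IZ z y i))) (NK (20 * (M' * RR Rs i)) κ (x1 (IZ z y i)))) *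
        ∏ i ∈ range J \ t, ip δ (qf M (RR Rs i) (IZ z y i)) (qf M (RR Rs i) (IZ z y i)))) + 4 * (m * W) * (l1' A0 ^ 2 * W) := by
    intro t ht
    rw [mem_erase, mem_powerset] at ht
    have g1 := mvt_up (X1 := X1) (X2 := X2) hδ hX1 (APT_Bd (κ := κ) h hM'M hA hm hW t)
    have g2 : ip δ (A0 * PT M M' κ z y J Rs t) (A0 * PT M M' κ z y J Rs t) = ip δ A0 A0 *
        ((∏ i ∈ t, ip δ (NK (20 * (M' * RR Rs i)) κ (x1 (IZ z y i))) (NK (20 * (M' * RR Rs i)) κ (x1 (IZ z y i)))) *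
        ∏ i ∈ range J \ t, ip δ (qf M (RR Rs i) (IZ z y i)) (qf M (RR Rs i) (IZ z y i))) := by
      rw [Pool.Agent.Y755.ip2 hAm (PT_mem t) hAm (PT_mem t)]
      unfold PT
      rw [ip_prod δ J (IZ_dj h) (fun i => gt_mem t i) (fun i => gt_mem t i), ← split_prod ht.2]
      congr 1
      refine prod_congr rfl fun i _ => ?_
      unfold gt
      split_ifs <;> rfl
    rw [g2] at g1
    refine g1.trans (add_le_add le_rfl ?_)
    exact mul_le_mul_of_nonneg_left (PT_l1W (A0 := A0) h hM hM'M k1 hW t) (by positivity)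
  refine (sum_le_sum h1).trans ?_
  rw [sum_add_distrib]
  refine add_le_add ?_ ?_
  · rw [← mul_sum, ← mul_sum]
    refine mul_le_mul_of_nonneg_left (mul_le_mul_of_nonneg_left ?_ (ip_self_nonneg _ _)) (hX1.trans hX12)
    have h2 := subset_sum (J := J)
      (n := fun i => ip δ (NK (20 * (M' * RR Rs i)) κ (x1 (IZ z y i))) (NK (20 * (M' * RR Rs i)) κ (x1 (IZ z y i))))
      (τ := fun i => ip δ (qf M (RR Rs i) (IZ z y i)) (qf M (RR Rs i) (IZ z y i)))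
      (u := fun i => Real.exp (κ ^ 2 * vd δ (IZ z y i) + erM M' c z y Rs i)) (v := fun i => 2 * erM (10 * M) c z y Rs i)
      (fun i hi => by
        rw [mem_range] at hi
        refine ⟨ip_self_nonneg _ _, ?_⟩
        have g1 := blk3M hM' hδ (BgM_IZ hz y i) (h.rg.v i hi) (h.rg.u hi) (hRR h i) hκ
        rw [e0] at g1
        have g2 := (abs_le.mp g1).2
        have g3 := ebM_le_erM M' c z y Rs i
        have g4 : 0 < Real.exp (κ ^ 2 * vd δ (IZ z y i)) := Real.exp_pos _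
        have g5 := Real.add_one_le_exp (erM M' c z y Rs i)
        rw [Real.exp_add]
        nlinarith)
      (fun i hi => by
        rw [mem_range] at hi
        refine ⟨ip_self_nonneg _ _, ?_⟩
        have g1 := qf_ip hM hδ (BgM_IZ (M := 10 * M) hz10 y i) (h.rg.v i hi) (h.rg.u hi) (hRR h i)
        have g2 := er_far (10 * M) c z y Rs i
        have g3 := CEM_pos (10 * M : ℕ) c
        have g4 : 0 ≤ CEM (10 * M : ℕ) c * Real.exp (-(RR Rs i : ℝ)) := by positivity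
        linarith)
      (fun i _ => Real.one_le_exp (add_nonneg (mul_nonneg (sq_nonneg _) (vd_nonneg _ _)) (erM_nonneg _ _ _ _ _ _)))
    refine h2.trans (le_of_eq ?_)
    rw [← Real.exp_sum, sum_add_distrib, ← mul_sum, ← mul_sum]
    rfl
  · rw [sum_const, nsmul_eq_mul]
    refine mul_le_mul_of_nonneg_right ?_ (by positivity)
    have h2 : ((range J).powerset.erase (range J)).card ≤ 2 ^ J := by
      refine (card_le_card (erase_subset _ _)).trans ?_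
      rw [card_powerset, card_range]
    exact_mod_cast h2

/-- the number of blocks -/
lemma J_bound (h : Sy c z y J Rs N K) : (2:ℝ) ^ J ≤ Real.log y := by
  have hz : (1000:ℝ) ≤ z := by exact_mod_cast h.z1
  have hy : (1000:ℝ) ≤ y := hz.trans h.zy
  have he := Real.exp_one_lt_d9
  have he0 := Real.exp_pos 1
  have he2 : Real.exp 2 = Real.exp 1 ^ 2 := by rw [← Real.exp_nat_mul]; norm_num
  rcases Nat.eq_zero_or_pos J with hJ | hJ
  · subst hJ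
    rw [pow_zero, Real.le_log_iff_exp_le (by linarith)]
    linarith
  · have h1 := h.rg.b10 (J - 1) (by omega)
    unfold bb at h1
    have h2 : 2 ≤ Real.log y * (1 / 4) ^ (J - 1) := by
      have h3 : Real.exp 2 ≤ 10 := by rw [he2]; nlinarith
      exact Real.exp_le_exp.mp (h3.trans h1)
    obtain ⟨j, rfl⟩ : ∃ j, J = j + 1 := ⟨J - 1, by omega⟩
    have e1 : j + 1 - 1 = j := by omega
    rw [e1] at h2
    have h4 : (2:ℝ) ^ j ≤ 4 ^ j := pow_le_pow_left₀ (by norm_num) (by norm_num) j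
    have h5 : (4:ℝ) ^ j * (1 / 4) ^ j = 1 := by rw [← mul_pow]; norm_num
    have h6 : (0:ℝ) < 4 ^ j := by positivity
    have h7 : 2 * 4 ^ j ≤ Real.log y := by
      calc (2:ℝ) * 4 ^ j ≤ (Real.log y * (1 / 4) ^ j) * 4 ^ j := mul_le_mul_of_nonneg_right h2 h6.le
        _ = Real.log y * (4 ^ j * (1 / 4) ^ j) := by ring
        _ = Real.log y := by rw [h5, mul_one]
    rw [pow_succ]
    linarith

lemma abs_ip_le {f g : P1} {m1 m2 : ℝ} (hδ : 0 ≤ δ) (hf : Bd1 m1 f) (hg : Bd1 m2 g) : |ip δ f g| ≤ l1' f ^ 2 + l1' g ^ 2 := by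
  have h1 := ip_self_nonneg δ (f - g)
  have h2 := ip_self_nonneg δ (f + g)
  rw [ip_sub_self] at h1
  have e : f + g = f - (-1:ℝ) • g := by simp
  have h3 : ip δ (f + g) (f + g) = ip δ f f + 2 * ip δ f g + ip δ g g := by
    rw [ip_add_left, ip_add_right, ip_add_right, ip_comm δ g f]
    ring
  rw [h3] at h2
  have h4 := ip_le_l1 hδ hf
  have h5 := ip_le_l1 hδ hg
  have h6 : 0 ≤ l1' f ^ 2 := sq_nonneg _
  have h7 : 0 ≤ l1' g ^ 2 := sq_nonneg _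
  rw [abs_le]
  constructor <;> linarith

lemma tw_split {h k : ℕ} (h0 : h ≠ 0) (k0 : k ≠ 0) (t : ℝ) (f g : P1) :
    es (1 / 2 + δ + t * Complex.I) f * starRingEnd ℂ (es (1 / 2 + δ + t * Complex.I) g) * tw h k t =
      ((((h * k : ℕ) : ℝ) ^ (1 / 2 + δ) : ℝ) : ℂ) * (es (1 / 2 + δ + t * Complex.I) (single h 1 * f) *
        starRingEnd ℂ (es (1 / 2 + δ + t * Complex.I) (single k 1 * g))) := by
  have h1 := tw_eq (δ := δ) h0 k0 t 1
  rw [map_one, norm_one, one_pow, Complex.ofReal_one, one_mul, mul_one, mul_one] at h1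
  rw [h1, map_mul (es _) (single h 1) f, map_mul (es _) (single k 1) g]
  simp only [map_mul]
  ring

/-- the error in the inner products -/
lemma er_ab {i : ℕ} (h : Sy c z y J Rs N K) (hi : i < J) (hM : 1 ≤ M) (hc : 0 ≤ c) (hδ : 0 ≤ δ) {a b : ℝ} (ha : |a| ≤ 2 * M)
    (hb : |b| ≤ 2 * M) :
    Real.exp (a * b * vd δ (IZ z y i) + 65 * (M:ℝ) ^ 3 * uI (IZ z y i)) + 4 * CEM M c * Real.exp (-(RR Rs i : ℝ)) ≤
      Real.exp (a * b * vd δ (IZ z y i) + 2 * erM (10 * M) c z y Rs i) := by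
  have hM1 : (1:ℝ) ≤ M := by exact_mod_cast hM
  have hM0 : (0:ℝ) < M := by linarith
  have hv0 := vd_nonneg δ (IZ z y i)
  have hu0 := uI_nonneg (IZ z y i)
  have hvc : vd δ (IZ z y i) ≤ c := by
    refine (vd_le hδ ?_).trans (h.rg.v i hi)
    intro p hp
    exact ⟨IZ_prime i p hp, h.z1.trans (mem_IZ.mp hp).2⟩
  have hab : |a * b| ≤ 4 * (M:ℝ) ^ 2 := by
    rw [abs_mul]
    calc |a| * |b| ≤ (2 * M) * (2 * M) := mul_le_mul ha hb (abs_nonneg _) (by positivity)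
      _ = _ := by ring
  have hlow : -(4 * (M:ℝ) ^ 2 * c) ≤ a * b * vd δ (IZ z y i) := by
    have h1 : -(4 * (M:ℝ) ^ 2) * vd δ (IZ z y i) ≤ a * b * vd δ (IZ z y i) :=
      mul_le_mul_of_nonneg_right (abs_le.mp hab).1 hv0
    have h2 : 4 * (M:ℝ) ^ 2 * vd δ (IZ z y i) ≤ 4 * (M:ℝ) ^ 2 * c := mul_le_mul_of_nonneg_left hvc (by positivity)
    linarith
  obtain ⟨V, hV⟩ : ∃ V, V = vd δ (IZ z y i) := ⟨_, rfl⟩
  obtain ⟨U, hU⟩ : ∃ U, U = uI (IZ z y i) := ⟨_, rfl⟩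
  obtain ⟨r, hr⟩ : ∃ r, r = Real.exp (-(RR Rs i : ℝ)) := ⟨_, rfl⟩
  have hr0 : 0 < r := by rw [hr]; exact Real.exp_pos _
  rw [← hV] at hlow hv0 hvc ⊢
  have hU0 : 0 ≤ U := by rw [hU]; exact hu0
  have h10 : ((10 * M : ℕ) : ℝ) = 10 * (M:ℝ) := by push_cast; ring
  have her : 65 * (M:ℝ) ^ 3 * U + 4 * CEM M c * Real.exp (4 * (M:ℝ) ^ 2 * c) * r ≤ 2 * erM (10 * M) c z y Rs i := by
    have g1 : 65 * (M:ℝ) ^ 3 * U ≤ Real.exp (750000 * ((10 * M : ℕ) : ℝ) ^ 9 * U) - 1 := by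
      have g2 := Real.add_one_le_exp (750000 * ((10 * M : ℕ) : ℝ) ^ 9 * U)
      have g3 : 65 * (M:ℝ) ^ 3 ≤ 750000 * ((10 * M : ℕ) : ℝ) ^ 9 := by
        rw [h10]
        have g4 : (M:ℝ) ^ 3 ≤ (M:ℝ) ^ 9 := pow_le_pow_right₀ hM1 (by norm_num)
        have g5 : (10 * (M:ℝ)) ^ 9 = 10 ^ 9 * (M:ℝ) ^ 9 := by ring
        rw [g5]
        have g6 : 0 ≤ (M:ℝ) ^ 9 := by positivity
        linarith
      have g7 := mul_le_mul_of_nonneg_right g3 hU0
      linarith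
    have g8 : CEM M c * Real.exp (4 * (M:ℝ) ^ 2 * c) ≤ CEM ((10 * M : ℕ) : ℝ) c := by
      unfold CEM
      rw [mul_assoc, ← Real.exp_add]
      refine mul_le_mul_of_nonneg_left (Real.exp_le_exp.mpr ?_) (by norm_num)
      rw [h10]
      have g9 : (M:ℝ) ^ 2 ≤ (M:ℝ) ^ 3 := pow_le_pow_right₀ hM1 (by norm_num)
      have g10 : 2800 * (M:ℝ) ^ 3 + 4 * (M:ℝ) ^ 2 ≤ 2800 * (10 * (M:ℝ)) ^ 3 := by
        have : (10 * (M:ℝ)) ^ 3 = 1000 * (M:ℝ) ^ 3 := by ring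
        rw [this]
        have : 0 ≤ (M:ℝ) ^ 3 := by positivity
        linarith
      have := mul_le_mul_of_nonneg_right g10 hc
      linarith
    have g11 := mul_le_mul_of_nonneg_right g8 hr0.le
    have g12 := CEM_pos (10 * M : ℕ) c
    have g13 : 0 ≤ CEM ((10 * M : ℕ) : ℝ) c * Real.exp (-(2 * (RR Rs i : ℝ))) := by positivity
    have g14 := ebM_nonneg (10 * M) c (IZ z y i) (RR Rs i)
    have e1 : erM (10 * M) c z y Rs i = (Real.exp (750000 * ((10 * M : ℕ) : ℝ) ^ 9 * U) - 1) +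
        4 * CEM ((10 * M : ℕ) : ℝ) c * r + CEM ((10 * M : ℕ) : ℝ) c * Real.exp (-(2 * (RR Rs i : ℝ))) := by
      unfold erM ebM
      rw [← hU, ← hr]
    have g15 := erM_nonneg (10 * M) c z y Rs i
    linarith
  rw [← hr, ← hU]
  have hEV : 1 ≤ Real.exp (4 * (M:ℝ) ^ 2 * c) * Real.exp (a * b * V) := by
    rw [← Real.exp_add]; exact Real.one_le_exp (by linarith)
  have hC0 := CEM_pos (M:ℝ) c
  obtain ⟨x, hx⟩ : ∃ x, x = 65 * (M:ℝ) ^ 3 * U := ⟨_, rfl⟩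
  obtain ⟨w, hw⟩ : ∃ w, w = 4 * CEM M c * Real.exp (4 * (M:ℝ) ^ 2 * c) * r := ⟨_, rfl⟩
  have hx0 : 0 ≤ x := by rw [hx]; positivity
  have hw0 : 0 ≤ w := by rw [hw]; positivity
  rw [← hx] at her ⊢
  rw [← hw] at her
  have s1 : 4 * CEM M c * r ≤ w * Real.exp (a * b * V) := by
    calc 4 * CEM M c * r = 4 * CEM M c * r * 1 := (mul_one _).symm
      _ ≤ 4 * CEM M c * r * (Real.exp (4 * (M:ℝ) ^ 2 * c) * Real.exp (a * b * V)) :=
          mul_le_mul_of_nonneg_left hEV (by positivity)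
      _ = _ := by rw [hw]; ring
  have s2 : Real.exp x + w ≤ Real.exp (x + w) := by
    rw [Real.exp_add]
    have a1 := Real.add_one_le_exp w
    have a2 := Real.one_le_exp hx0
    nlinarith
  calc Real.exp (a * b * V + x) + 4 * CEM M c * r ≤ Real.exp (a * b * V) * Real.exp x + w * Real.exp (a * b * V) := by
        rw [Real.exp_add]; linarith
    _ = Real.exp (a * b * V) * (Real.exp x + w) := by ring
    _ ≤ Real.exp (a * b * V) * Real.exp (x + w) := mul_le_mul_of_nonneg_left s2 (Real.exp_pos _).le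
    _ = Real.exp (a * b * V + (x + w)) := (Real.exp_add _ _).symm
    _ ≤ _ := Real.exp_le_exp.mpr (by linarith)

/-- the mean value with two exponents -/
theorem ab_mean {hh kk : ℕ} (h : Sy c z y J Rs N K) (h0 : hh ≠ 0) (k0 : kk ≠ 0) (hpz : ∀ p, p.Prime → p ∣ hh * kk → p < z)
    (hM : 1 ≤ M) (hc : 0 ≤ c) (hz : 40000 * M ^ 6 ≤ z)
    (hδ : 0 ≤ δ) (hδ1 : δ ≤ 1 / 16) {a b : ℝ} (ha : |a| ≤ 2 * M) (hb : |b| ≤ 2 * M) {A1 A2 : P1} {m1 : ℝ} (hm : 0 ≤ m1)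
    (hA1 : Bd1 m1 A1) (hA2 : Bd1 m1 A2) (g1 : A1 ∈ SA1 (M1 (S0 z))) (g2 : A2 ∈ SA1 (M1 (S0 z))) (hX1 : 0 ≤ X1) (hX12 : X1 ≤ X2)
    (hW : Real.exp (Real.log y * (180 * (M * ((Rs:ℝ) + 1)))) ≤ W) (hW0 : 0 ≤ W) :
    ‖∫ x in X1..X2, es (1 / 2 + δ + x * Complex.I) (A1 * Bm M a z y J Rs) *
        starRingEnd ℂ (es (1 / 2 + δ + x * Complex.I) (A2 * Bm M b z y J Rs)) * tw hh kk x‖ ≤
      ((hh * kk : ℕ) : ℝ) * (X2 * ((l1' A1 ^ 2 + l1' A2 ^ 2) * Real.exp (a * b * Vd δ z y J + 2 * ETM (10 * M) c z y J Rs)) +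
        2 * (((hh * kk : ℕ) : ℝ) * (m1 * W)) * ((l1' A1 ^ 2 + l1' A2 ^ 2) * W)) := by
  obtain ⟨q, hq⟩ : ∃ q : ℝ, q = ((hh * kk : ℕ) : ℝ) := ⟨_, rfl⟩
  have hhk0 : hh * kk ≠ 0 := mul_ne_zero h0 k0
  have hq1 : 1 ≤ q := by rw [hq]; exact_mod_cast Nat.pos_of_ne_zero hhk0
  have hhq : (hh:ℝ) ≤ q := by rw [hq]; exact_mod_cast Nat.le_mul_of_pos_right hh (Nat.pos_of_ne_zero k0)
  have hkq : (kk:ℝ) ≤ q := by rw [hq]; exact_mod_cast Nat.le_mul_of_pos_left kk (Nat.pos_of_ne_zero h0)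
  have hu1 : hh ∈ M1 (S0 z) := mem_M1.mpr ⟨h0, fun p hp hd => mem_S0.mpr ⟨hpz p hp (hd.mul_right kk), hp⟩⟩
  have hv1 : kk ∈ M1 (S0 z) := mem_M1.mpr ⟨k0, fun p hp hd => mem_S0.mpr ⟨hpz p hp (hd.mul_left hh), hp⟩⟩
  have e1 : ∫ x in X1..X2, es (1 / 2 + δ + x * Complex.I) (A1 * Bm M a z y J Rs) *
        starRingEnd ℂ (es (1 / 2 + δ + x * Complex.I) (A2 * Bm M b z y J Rs)) * tw hh kk x =
      ((q ^ (1 / 2 + δ) : ℝ) : ℂ) * ∫ x in X1..X2, (es (1 / 2 + δ + x * Complex.I) (single hh 1 * (A1 * Bm M a z y J Rs)) *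
        starRingEnd ℂ (es (1 / 2 + δ + x * Complex.I) (single kk 1 * (A2 * Bm M b z y J Rs)))) := by
    rw [← intervalIntegral.integral_const_mul]
    refine intervalIntegral.integral_congr fun x _ => ?_
    rw [tw_split h0 k0, hq]
  rw [e1, norm_mul, Complex.norm_real, Real.norm_of_nonneg (by positivity)]
  have hqp : q ^ (1 / 2 + δ) ≤ q := by
    calc q ^ (1 / 2 + δ) ≤ q ^ (1:ℝ) := Real.rpow_le_rpow_of_exponent_le hq1 (by linarith)
      _ = q := Real.rpow_one q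
  rw [← hq]
  refine mul_le_mul hqp ?_ (norm_nonneg _) (by linarith)
  have hf : Bd1 (q * (m1 * W)) (single hh 1 * (A1 * Bm M a z y J Rs)) :=
    (Bd1.single ⟨h0, hhq⟩ 1).mul (ABm_Bd (a := a) h hA1 hm hW)
  have hg : Bd1 (q * (m1 * W)) (single kk 1 * (A2 * Bm M b z y J Rs)) :=
    (Bd1.single ⟨k0, hkq⟩ 1).mul (ABm_Bd (a := b) h hA2 hm hW)
  have h1 := mvt2 (δ := δ) hδ (by positivity) hf hg X1 X2
  have e2 : ip δ (single hh 1 * (A1 * Bm M a z y J Rs)) (single kk 1 * (A2 * Bm M b z y J Rs)) =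
      ip δ (single hh 1 * A1) (single kk 1 * A2) * ∏ i ∈ range J, ip δ (NK (20 * (M * RR Rs i)) a (x1 (IZ z y i)))
        (NK (20 * (M * RR Rs i)) b (x1 (IZ z y i))) := by
    rw [← mul_assoc, ← mul_assoc, Pool.Agent.Y755.ip2 (Subalgebra.mul_mem _ (single_mem_SA1 hu1 1) g1) Bm_mem
      (Subalgebra.mul_mem _ (single_mem_SA1 hv1 1) g2) Bm_mem]
    unfold Bm
    rw [ip_prod δ J (IZ_dj h) (fun i => NK_mem1 (x1_mem (IZ_prime i)) _ _) (fun i => NK_mem1 (x1_mem (IZ_prime i)) _ _)]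
  have h2 : |ip δ (single hh 1 * A1) (single kk 1 * A2)| ≤ l1' A1 ^ 2 + l1' A2 ^ 2 := by
    refine (abs_ip_le hδ ((Bd1.single ⟨h0, hhq⟩ 1).mul hA1) ((Bd1.single ⟨k0, hkq⟩ 1).mul hA2)).trans ?_
    exact add_le_add (pow_le_pow_left₀ (l1'_nonneg _) (l1'_single_mul hh A1) 2)
      (pow_le_pow_left₀ (l1'_nonneg _) (l1'_single_mul kk A2) 2)
  have h3 : |∏ i ∈ range J, ip δ (NK (20 * (M * RR Rs i)) a (x1 (IZ z y i))) (NK (20 * (M * RR Rs i)) b (x1 (IZ z y i)))| ≤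
      Real.exp (a * b * Vd δ z y J + 2 * ETM (10 * M) c z y J Rs) := by
    rw [abs_prod]
    refine (prod_le_prod (fun i _ => abs_nonneg _) (g := fun i => Real.exp (a * b * vd δ (IZ z y i) + 2 * erM (10 * M) c z y Rs i))
      fun i hi => ?_).trans (le_of_eq ?_)
    · rw [mem_range] at hi
      exact (ip_ab hM hδ (BgM_IZ hz y i) (h.rg.v i hi) (h.rg.u hi) (hRR h i) ha hb).trans (er_ab h hi hM hc hδ ha hb)
    · rw [← Real.exp_sum, sum_add_distrib, ← mul_sum, ← mul_sum]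
      rfl
  have h4 : l1' (single hh 1 * (A1 * Bm M a z y J Rs)) * l1' (single kk 1 * (A2 * Bm M b z y J Rs)) ≤
      (l1' A1 ^ 2 + l1' A2 ^ 2) * W := by
    have a1 := ABm_l1 (A0 := A1) h ha hW
    have a2 := ABm_l1 (A0 := A2) h hb hW
    have a3 := l1'_single_mul hh (A1 * Bm M a z y J Rs)
    have a4 := l1'_single_mul kk (A2 * Bm M b z y J Rs)
    have a5 := l1'_nonneg (A1 * Bm M a z y J Rs)
    have a6 := l1'_nonneg (A2 * Bm M b z y J Rs)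
    calc _ ≤ l1' (A1 * Bm M a z y J Rs) * l1' (A2 * Bm M b z y J Rs) := mul_le_mul a3 a4 (l1'_nonneg _) a5
      _ ≤ l1' (A1 * Bm M a z y J Rs) ^ 2 + l1' (A2 * Bm M b z y J Rs) ^ 2 := by nlinarith [sq_nonneg (l1' (A1 * Bm M a z y J Rs) - l1' (A2 * Bm M b z y J Rs))]
      _ ≤ _ := by rw [add_mul]; exact add_le_add a1 a2
  have h5 : ‖(((X2 - X1) * ip δ (single hh 1 * (A1 * Bm M a z y J Rs)) (single kk 1 * (A2 * Bm M b z y J Rs)) : ℝ) : ℂ)‖ ≤
      X2 * ((l1' A1 ^ 2 + l1' A2 ^ 2) * Real.exp (a * b * Vd δ z y J + 2 * ETM (10 * M) c z y J Rs)) := by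
    rw [Complex.norm_real, Real.norm_eq_abs, abs_mul, e2]
    have b1 := abs_mul (ip δ (single hh 1 * A1) (single kk 1 * A2)) (∏ i ∈ range J, ip δ (NK (20 * (M * RR Rs i)) a (x1 (IZ z y i)))
        (NK (20 * (M * RR Rs i)) b (x1 (IZ z y i))))
    rw [b1]
    have b2 : |X2 - X1| ≤ X2 := by rw [abs_of_nonneg (by linarith : 0 ≤ X2 - X1)]; linarith
    have b3 := mul_le_mul h2 h3 (abs_nonneg _) (add_nonneg (sq_nonneg _) (sq_nonneg _))
    exact mul_le_mul b2 b3 (mul_nonneg (abs_nonneg _) (abs_nonneg _)) (hX1.trans hX12)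
  have h6 := norm_add_le ((∫ x in X1..X2, (es (1 / 2 + δ + x * Complex.I) (single hh 1 * (A1 * Bm M a z y J Rs)) *
        starRingEnd ℂ (es (1 / 2 + δ + x * Complex.I) (single kk 1 * (A2 * Bm M b z y J Rs))))) -
      (((X2 - X1) * ip δ (single hh 1 * (A1 * Bm M a z y J Rs)) (single kk 1 * (A2 * Bm M b z y J Rs)) : ℝ) : ℂ))
      (((X2 - X1) * ip δ (single hh 1 * (A1 * Bm M a z y J Rs)) (single kk 1 * (A2 * Bm M b z y J Rs)) : ℝ) : ℂ)
  rw [sub_add_cancel] at h6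
  have h7 := mul_le_mul_of_nonneg_left h4 (by positivity : 0 ≤ 2 * (q * (m1 * W)))
  linarith

end

end Pool.Agent.Run7.h290.PH
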