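import Pool.Agent.Run7.h290.PH.C

set_option autoImplicit false

/-! The moments with phases over the good set of a window. -/

namespace Pool.Agent.Run7.h290.PH

open Finset Filter MeasureTheory MonoidAlgebra Topology
open Pool.Agent.Y755
open Pool.Agent.Y753.NL
open Pool.Agent.W184.NZ
open Pool.Agent.W184 (zn zn_nonneg zn_cont zn_le')

/-- the integral over the good part -/
lemma asm {X1 X2 C1 : ℝ} (hX : X1 ≤ X2) {G : Set ℝ} (hG : MeasurableSet G) {Φ w τ : ℝ → ℂ} {zf g : ℝ → ℝ}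
    (hΦ : IntegrableOn Φ (Set.Ioc X1 X2)) (hw : Continuous w) (hτ : Continuous τ) (hτ1 : ∀ t, ‖τ t‖ = 1)
    (hz : IntegrableOn zf (Set.Ioc X1 X2)) (hg : IntegrableOn g (Set.Ioc X1 X2))
    (h1 : ∀ t ∈ G, ‖Φ t - w t‖ ≤ C1 * zf t) (h2 : ∀ t, ‖w t‖ ≤ g t) :
    ‖∫ t in Set.Ioc X1 X2 ∩ G, Φ t * τ t‖ ≤ C1 * (∫ t in Set.Ioc X1 X2 ∩ G, zf t) + ‖∫ t in X1..X2, w t * τ t‖ +
      ∫ t in Set.Ioc X1 X2 \ G, g t := by
  have hwi : IntegrableOn w (Set.Ioc X1 X2) := by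
    rw [← intervalIntegrable_iff_integrableOn_Ioc_of_le hX]; exact hw.intervalIntegrable _ _
  have hmul : ∀ {f : ℝ → ℂ}, IntegrableOn f (Set.Ioc X1 X2) → IntegrableOn (fun t => f t * τ t) (Set.Ioc X1 X2) := by
    intro f hf
    refine Integrable.mul_bdd (c := 1) hf hτ.aestronglyMeasurable (Eventually.of_forall fun t => ?_)
    rw [hτ1]
  have i1 := hmul hΦ
  have i2 := hmul hwi
  have sub1 : Set.Ioc X1 X2 ∩ G ⊆ Set.Ioc X1 X2 := Set.inter_subset_left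
  have sub2 : Set.Ioc X1 X2 \ G ⊆ Set.Ioc X1 X2 := Set.sdiff_subset
  have e1 : ∫ t in Set.Ioc X1 X2 ∩ G, Φ t * τ t = (∫ t in Set.Ioc X1 X2 ∩ G, (Φ t * τ t - w t * τ t)) +
      ∫ t in Set.Ioc X1 X2 ∩ G, w t * τ t := by
    rw [integral_sub (i1.mono_set sub1) (i2.mono_set sub1)]
    ring
  have e2 := integral_inter_add_sdiff hG i2
  rw [← intervalIntegral.integral_of_le hX] at e2
  have e3 : ∫ t in Set.Ioc X1 X2 ∩ G, Φ t * τ t = (∫ t in Set.Ioc X1 X2 ∩ G, (Φ t * τ t - w t * τ t)) +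
      ((∫ t in X1..X2, w t * τ t) - ∫ t in Set.Ioc X1 X2 \ G, w t * τ t) := by
    rw [e1, ← e2]; ring
  rw [e3]
  have g1 : ‖∫ t in Set.Ioc X1 X2 ∩ G, (Φ t * τ t - w t * τ t)‖ ≤ C1 * ∫ t in Set.Ioc X1 X2 ∩ G, zf t := by
    rw [← integral_const_mul]
    refine norm_integral_le_of_norm_le ((hz.mono_set sub1).const_mul C1) ?_
    refine (ae_restrict_iff' (measurableSet_Ioc.inter hG)).mpr (Eventually.of_forall fun t ht => ?_)
    rw [← sub_mul, norm_mul, hτ1, mul_one]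
    exact h1 t ht.2
  have g2 : ‖∫ t in Set.Ioc X1 X2 \ G, w t * τ t‖ ≤ ∫ t in Set.Ioc X1 X2 \ G, g t := by
    refine norm_integral_le_of_norm_le (hg.mono_set sub2) (Eventually.of_forall fun t => ?_)
    rw [norm_mul, hτ1, mul_one]
    exact h2 t
  refine (norm_add_le _ _).trans ?_
  have g3 := norm_sub_le (∫ t in X1..X2, w t * τ t) (∫ t in Set.Ioc X1 X2 \ G, w t * τ t)
  linarith

lemma Ph_meas (α : ℝ) (m : ℤ) : Measurable (Ph α m) := by
  unfold Ph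
  have h1 : Measurable fun w : ℂ => ((‖w‖ ^ (2 * α) : ℝ) : ℂ) :=
    Complex.measurable_ofReal.comp (measurable_norm.pow_const _)
  have h2 : Measurable fun w : ℂ => w / (‖w‖ : ℂ) :=
    measurable_id.div (Complex.measurable_ofReal.comp measurable_norm)
  refine h1.mul ?_
  rcases m with n | n
  · simp only [Int.ofNat_eq_natCast, zpow_natCast]
    exact h2.pow_const n
  · simp only [zpow_negSucc]
    exact (h2.pow_const (n + 1)).inv

lemma Ph_int {α δ : ℝ} {X1 X2 : ℝ} (hα : 0 < α) (hδ : δ ≤ 1 / 16) (m : ℤ) :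
    IntegrableOn (fun t : ℝ => Ph α m (riemannZeta (1 / 2 + δ + t * Complex.I))) (Set.Ioc X1 X2) := by
  have hc : Continuous fun t : ℝ => riemannZeta (1 / 2 + δ + t * Complex.I) := by
    have h1 := zeta_cont (σ := 1 / 2 + δ) (by linarith)
    refine h1.congr fun t => ?_
    rw [s_eq]
  have hz : Continuous fun t => zn (1 / 2 + δ) t ^ (2 * α) := znp_cont (by linarith) (by linarith)
  have hi : IntegrableOn (fun t => zn (1 / 2 + δ) t ^ (2 * α)) (Set.Ioc X1 X2) := by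
    rcases le_total X1 X2 with h | h
    · rw [← intervalIntegrable_iff_integrableOn_Ioc_of_le h]; exact hz.intervalIntegrable _ _
    · rw [Set.Ioc_eq_empty (not_lt.mpr h)]; exact integrableOn_empty
  refine Integrable.mono' hi ((Ph_meas α m).comp hc.measurable).aestronglyMeasurable (Eventually.of_forall fun t => ?_)
  have e3 : zn (1 / 2 + δ) t = ‖riemannZeta (1 / 2 + δ + t * Complex.I)‖ := by
    unfold zn; rw [s_eq]
  rw [e3]
  exact Ph_norm_le hα m _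

lemma es_cc (δ : ℝ) {M : ℝ} {f : P1} (hf : Bd1 M f) : Continuous fun t : ℝ => es (1 / 2 + δ + t * Complex.I) f :=
  (es_diff hf).continuous.comp (by fun_prop : Continuous fun t : ℝ => (1 / 2 + (δ:ℂ) + t * Complex.I))

/-- the phases near a given exponent -/
theorem win_ph {M z Rs : ℕ} {ε e1 c η d x0 : ℝ} (P : Pk M z Rs ε e1 c η d x0) (hε40 : ε ≤ 1 / 40)
    (hz10 : 40000 * (10 * M) ^ 6 ≤ z)
    (hE10 : ∀ (y : ℝ) (J : ℕ), Rg c J (IZ z y) (bb y) → ETM (10 * M) c z y J Rs ≤ ε / 8)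
    {α0 ρ m' m1 : ℝ} {A0 A1 A2 : P1} {h k : ℕ}
    (hh : h ≠ 0) (hk : k ≠ 0) (hpz : ∀ p, p.Prime → p ∣ h * k → p < z) (hA' : Bd1 m' A0) (hAm : A0 ∈ SA1 (M1 (S0 z)))
    (hge : ∀ δ, 1 ≤ ip δ A0 A0)
    (hsize : ∀ α : ℝ, |α - α0| ≤ ρ → ∀ s : ℂ, 1 / 2 ≤ s.re →
        1 - ε ≤ ‖es s (Pz z)‖ ^ (2 * α) * ‖es s A0‖ ^ 2 ∧ ‖es s (Pz z)‖ ^ (2 * α) * ‖es s A0‖ ^ 2 ≤ 1 + ε)
    {mm : ℤ} (hm0' : mm ≠ 0) (hmM : |(mm:ℝ)| ≤ M) (hA1 : Bd1 m1 A1) (hA2 : Bd1 m1 A2) (g1 : A1 ∈ SA1 (M1 (S0 z)))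
    (g2 : A2 ∈ SA1 (M1 (S0 z)))
    (hpair : ∀ α : ℝ, |α - α0| ≤ ρ → ∀ s : ℂ, 1 / 2 ≤ s.re →
        ‖Ph α mm (es s (Pz z)) * (es s A1 * starRingEnd ℂ (es s A2)) - 1‖ ≤ ε) :
    ∃ lam δ0 : ℝ, 1 ≤ lam ∧ 0 < δ0 ∧ ∀ᶠ T : ℝ in atTop, ∀ δ : ℝ, lam / Real.log T ≤ δ → δ ≤ δ0 →
      ∀ J : ℕ, PJ c z η Rs d T J → ∀ α : ℝ, 0 < α → α ≤ M → |α - α0| ≤ ρ →
        ‖∫ t in Set.Ioc (T ^ ((4:ℝ)/5)) (T / 2) ∩ Gh z (yT η T) J Rs e1 δ,
            Ph α mm (riemannZeta (1 / 2 + δ + t * Complex.I)) * tw h k t‖ ≤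
          40 * ε * ∫ t in Set.Ioc (T ^ ((4:ℝ)/5)) (T / 2) ∩ Gh z (yT η T) J Rs e1 δ, zn (1 / 2 + δ) t ^ (2 * α) := by
  have hMn := P.M1
  have hM1 : (1:ℝ) ≤ M := by exact_mod_cast P.M1
  have hM0 : (0:ℝ) < M := by linarith
  have hε := P.e0
  have hε1 := P.e01
  have he1 := P.e10
  have he11 := P.e11
  have hc := P.c0
  obtain ⟨m, hm⟩ : ∃ m : ℝ, m = max (max m' m1) 1 := ⟨_, rfl⟩
  obtain ⟨l, hl⟩ : ∃ l : ℝ, l = max (l1' A0) 1 := ⟨_, rfl⟩
  have hm1 : 1 ≤ m := by rw [hm]; exact le_max_right _ _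
  have hm0 : 0 ≤ m := by linarith
  have hl1 : 1 ≤ l := by rw [hl]; exact le_max_right _ _
  have hA : Bd1 m A0 := hA'.mono (by rw [hm]; exact (le_max_left _ _).trans (le_max_left _ _))
  have hA1' : Bd1 m A1 := hA1.mono (by rw [hm]; exact (le_max_right _ _).trans (le_max_left _ _))
  have hA2' : Bd1 m A2 := hA2.mono (by rw [hm]; exact (le_max_right _ _).trans (le_max_left _ _))
  have hlA : l1' A0 ≤ l := by rw [hl]; exact le_max_left _ _
  obtain ⟨δv, Cv, hδv, hδv2, hCv, hVn⟩ := V_near one_pos hε z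
  obtain ⟨lam, hlam1, hlamx, hkey⟩ := key P (m := m) (l := l) (c2 := Real.exp (-((M:ℝ) ^ 2 * Cv))) hm1 hl1 (Real.exp_pos _)
  obtain ⟨q, hq⟩ : ∃ q : ℝ, q = ((h * k : ℕ) : ℝ) := ⟨_, rfl⟩
  have hhk0 : h * k ≠ 0 := mul_ne_zero hh hk
  have hq1 : 1 ≤ q := by rw [hq]; exact_mod_cast Nat.pos_of_ne_zero hhk0
  obtain ⟨Cc, hCc⟩ : ∃ Cc : ℝ, Cc = l1' A1 ^ 2 + l1' A2 ^ 2 := ⟨_, rfl⟩
  have hCc0 : 0 ≤ Cc := by rw [hCc]; positivity
  obtain ⟨L0, hL0d⟩ : ∃ L0 : ℝ, L0 = 4 * (2 * q * Cc / ε) := ⟨_, rfl⟩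
  have hL00 : 0 ≤ L0 := by rw [hL0d]; positivity
  obtain ⟨δ0, hδ00, hδ016, hδ0v, hδ0e⟩ : ∃ δ0 : ℝ, 0 < δ0 ∧ δ0 ≤ 1 / 16 ∧ δ0 ≤ δv ∧ δ0 ≤ Real.exp (-(Cv + L0)) :=
    ⟨min (1 / 16) (min δv (Real.exp (-(Cv + L0)))), lt_min (by norm_num) (lt_min hδv (Real.exp_pos _)), min_le_left _ _,
      (min_le_right _ _).trans (min_le_left _ _), (min_le_right _ _).trans (min_le_right _ _)⟩
  refine ⟨lam, δ0, hlam1, hδ00, ?_⟩
  obtain ⟨K0, hK0⟩ : ∃ K0 : ℝ, K0 = 2 * (q ^ 2 * m) * Cc := ⟨_, rfl⟩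
  obtain ⟨K1, hK1⟩ : ∃ K1 : ℝ, K1 = η * 25 * (4 * m * l1' A0 ^ 2) := ⟨_, rfl⟩
  filter_upwards [hkey, windows_ev, eventually_ge_atTop (10 ^ 10),
    rpow_ev (p := 4 / 5) (q := 1) (by norm_num) (2 / ε), rpow_ev (p := 1 / 25) (q := 1) (by norm_num) (2 * K0 / ε),
    rpow_ev (p := 2 / 25) (q := 1) (by norm_num) (2 * K1 / ε),
    Real.tendsto_log_atTop.eventually_ge_atTop 1] with T tk t3 t4 t8 t7 t6 t9 δ hδ1 hδ2 J hPJ
  have hT0 : 0 < T := by linarith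
  have hT1 : 1 ≤ T := by linarith
  have hL0 : 0 < Real.log T := by linarith
  have hx : lam ≤ δ * Real.log T := by rwa [div_le_iff₀ hL0] at hδ1
  have hδ0 : 0 < δ := lt_of_lt_of_le (div_pos (lt_of_lt_of_le one_pos hlam1) hL0) hδ1
  have hδ16 := hδ2.trans hδ016
  have hkk := tk δ hδ1 hδ16 J hPJ
  have hS := hPJ.1
  have hη := P.η0
  have hη2 := P.η1
  obtain ⟨y, hy⟩ : ∃ y, y = yT η T := ⟨_, rfl⟩
  have hly : Real.log (yT η T) = η * Real.log T := Real.log_exp _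
  have hX2 : (0:ℝ) ≤ T / 2 := by linarith only [hT0]
  have hX1 : 0 ≤ T ^ ((4:ℝ)/5) := by positivity
  obtain ⟨e, he⟩ : ∃ e, e = ε * e1 ^ 2 / 600 := ⟨_, rfl⟩
  have he0 : 0 < e := by rw [he]; positivity
  have he600 : e ≤ ε / 600 := by
    have h1 : e1 ^ 2 ≤ 1 := pow_le_one₀ he1.le he11.le
    have : ε * e1 ^ 2 ≤ ε * 1 := mul_le_mul_of_nonneg_left h1 hε.le
    rw [he]; linarith
  rw [← hy] at hly hS hkk
  rw [← he] at hkk
  rw [← hy]
  have hcm := P.cm 1 one_pos hM1 y δ hS.zy hδ0 (by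
    rw [hly]
    have h1 : x0 ≤ lam * η := by rwa [div_le_iff₀ hη] at hlamx
    calc x0 ≤ lam * η := h1
      _ ≤ (δ * Real.log T) * η := mul_le_mul_of_nonneg_right hx hη.le
      _ = _ := by ring) J hS.J1
  have hVc := hVn δ (Vd δ z y J) hδ0 (hδ2.trans hδ0v) hcm.1 hcm.2
  have hB1 := hge δ
  have hVd0 : 0 ≤ Vd δ z y J := sum_nonneg fun _ _ => vd_nonneg _ _
  have hX12 : (1 - ε) * (T / 2) ≤ T / 2 - T ^ ((4:ℝ)/5) := by
    rw [Real.rpow_one] at t8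
    have h8 := mul_le_mul_of_nonneg_left t8 (by positivity : 0 ≤ ε / 2)
    have e8 : ε / 2 * (2 / ε * T ^ ((4:ℝ) / 5)) = T ^ ((4:ℝ) / 5) := by field_simp
    rw [e8] at h8
    linarith only [h8]
  obtain ⟨V, hV⟩ : ∃ V, V = Vd δ z y J := ⟨_, rfl⟩
  obtain ⟨B, hB⟩ : ∃ B, B = ip δ A0 A0 := ⟨_, rfl⟩
  obtain ⟨E10, hE10d⟩ : ∃ E10, E10 = ETM (10 * M) c z y J Rs := ⟨_, rfl⟩
  have hE10' : E10 ≤ ε / 8 := by rw [hE10d]; exact hE10 y J hS.rg
  have hE100 : 0 ≤ E10 := by rw [hE10d]; exact ETM_nonneg _ _ _ _ _ _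
  rw [← hV] at hVc hVd0
  rw [← hB] at hB1
  have hVL : L0 ≤ V := by
    have h1 := (abs_le.mp hVc).1
    have h2 : Real.log (1 / δ) = -Real.log δ := by rw [one_div, Real.log_inv]
    have h3 : Real.log δ ≤ -(Cv + L0) := by
      have := Real.log_le_log hδ0 (hδ2.trans hδ0e)
      rwa [Real.log_exp] at this
    linarith
  intro α hα hαM hαρ
  have hEV1 : 1 ≤ Real.exp (α ^ 2 * V) := Real.one_le_exp (mul_nonneg (sq_nonneg _) hVd0)
  have hD1 : 1 ≤ B * Real.exp (α ^ 2 * V) := one_le_mul_of_one_le_of_one_le hB1 hEV1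
  obtain ⟨M', hcase⟩ : ∃ M' : ℕ, ((M' = 1 ∧ |α - 1| ≤ 1) ∨ (M' = M ∧ 0 ≤ α - 1 ∧ α - 1 ≤ M)) := by
    rcases le_or_gt α 1 with h | h
    · exact ⟨1, Or.inl ⟨rfl, by rw [abs_le]; constructor <;> linarith⟩⟩
    · exact ⟨M, Or.inr ⟨rfl, by linarith, by linarith⟩⟩
  have hM'M : M' ≤ M := by rcases hcase with ⟨h, _⟩ | ⟨h, _⟩ <;> omega
  have hDlow : Real.exp (-((M:ℝ) ^ 2 * Cv)) * δ ^ (-(α ^ 2)) ≤ B * Real.exp (α ^ 2 * V) := by
    have h1 : δ ^ (-(α ^ 2)) = Real.exp (α ^ 2 * Real.log (1 / δ)) := by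
      rw [Real.rpow_def_of_pos hδ0, one_div, Real.log_inv]; congr 1; ring
    rw [h1, ← Real.exp_add]
    refine le_trans (Real.exp_le_exp.mpr ?_) (le_mul_of_one_le_left (Real.exp_pos _).le hB1)
    have h2 : α ^ 2 ≤ (M:ℝ) ^ 2 := pow_le_pow_left₀ hα.le hαM 2
    have h3 : α ^ 2 * (Real.log (1 / δ) - Cv) ≤ α ^ 2 * V := mul_le_mul_of_nonneg_left (by
      have := (abs_le.mp hVc).1; linarith) (sq_nonneg _)
    have h4 : α ^ 2 * Cv ≤ (M:ℝ) ^ 2 * Cv := mul_le_mul_of_nonneg_right h2 hCv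
    linarith
  obtain ⟨hM', hκ1, hzM', hET, hWM', hE2, hoff⟩ := hkk M' α A0 (B * Real.exp (α ^ 2 * V)) hcase hα.le hαM hA hAm hlA
    (by rw [← hB]; linarith) (by rw [← hV, ← hB]; have := mul_nonneg hX2 (zero_le_one.trans hD1); linarith) hDlow hD1
  obtain ⟨Y, hY⟩ : ∃ Y, Y = T / 2 * (B * Real.exp (α ^ 2 * V)) := ⟨_, rfl⟩
  have hY0 : 0 ≤ Y := by rw [hY]; exact mul_nonneg hX2 (zero_le_one.trans hD1)
  have hYT : T / 2 ≤ Y := by rw [hY]; exact le_mul_of_one_le_right hX2 hD1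
  rw [← hY] at hE2 hoff
  obtain ⟨W, hW⟩ : ∃ W, W = T ^ ((1:ℝ) / 50) := ⟨_, rfl⟩
  have hW0 : 0 < W := by rw [hW]; positivity
  have hWW : W * W = T ^ ((1:ℝ) / 25) := by rw [hW, ← Real.rpow_add hT0]; norm_num
  have hWM : Real.exp (Real.log y * (180 * (M * ((Rs:ℝ) + 1)))) ≤ W := by
    rw [hly, hW, Real.rpow_def_of_pos hT0]
    refine Real.exp_le_exp.mpr ?_
    have e : η * Real.log T * (180 * (M * ((Rs:ℝ) + 1))) = 180 * (η * (M * ((Rs:ℝ) + 1))) * Real.log T := by ring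
    rw [e, mul_comm (Real.log T)]
    exact mul_le_mul_of_nonneg_right (by linarith only [hη2]) hL0.le
  -- the moment
  have hI : Y ≤ 2 * ∫ t in Set.Ioc (T ^ ((4:ℝ)/5)) (T / 2) ∩ Gh z y J Rs e1 δ, zn (1 / 2 + δ) t ^ (2 * α) := by
    have H : Cg M M' c y δ α ε e1 e (T ^ ((4:ℝ)/5)) (T / 2) (T ^ ((1:ℝ) / 50)) m
        Y B V z J Rs (NT T) (KT T) A0 :=
      { iM := hM', iz := hzM', iS := hS, iA := hA, iAm := hAm, im0 := hm0, id0 := hδ0.le, id1 := hδ16, ia0 := hα,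
        iaM := hαM, ia1 := hκ1, ie0 := hε, ie1 := hε1, ie10 := he1, ie11 := he11, ip1 := P.p1, ip2 := P.p2,
        iPA := hsize α hαρ, ih4 := P.h4a, iE := hET, ie := by linarith only [he600, hε], iX1 := hX1, iX12 := t3.1,
        iX := hX12, iW := hWM', iW0 := Real.rpow_nonneg hT0.le _, iB := hB, iV := hV, iB1 := by linarith only [hB1],
        iY := hY.symm, if2 := hE2, ioff := hoff }
    have h1 := (abs_le.mp H.fa).1
    have hGm : MeasurableSet (Gh z y J Rs e1 δ) := Gh_meas hS hδ16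
    rw [intervalIntegral.integral_of_le t3.1, setIntegral_indicator hGm] at h1
    have h2 : 20 * ε * Y ≤ 1 / 2 * Y := mul_le_mul_of_nonneg_right (by linarith only [hε40]) hY0
    linarith only [h1, h2]
  -- the comparison
  have ha : |α + mm / 2| ≤ 2 * M := by
    have := abs_le.mp hmM
    rw [abs_le]; constructor <;> linarith
  have hb : |α - mm / 2| ≤ 2 * M := by
    have := abs_le.mp hmM
    rw [abs_le]; constructor <;> linarith
  obtain ⟨k0, k1, _⟩ := k_absM hM' hκ1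
  have e0 : 1 + (α - 1) = α := by ring
  rw [e0] at k1
  have hGm : MeasurableSet (Gh z y J Rs e1 δ) := Gh_meas hS hδ16
  have hre : ∀ t : ℝ, (1:ℝ) / 2 ≤ (1 / 2 + (δ:ℂ) + t * Complex.I).re := fun t => by
    rw [half_re]; linarith only [hδ0]
  have hzi : IntegrableOn (fun t => zn (1 / 2 + δ) t ^ (2 * α)) (Set.Ioc (T ^ ((4:ℝ)/5)) (T / 2)) := by
    rw [← intervalIntegrable_iff_integrableOn_Ioc_of_le t3.1]
    exact (znp_cont (by linarith) (by linarith)).intervalIntegrable _ _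
  have hPTc : ∀ t : Finset ℕ, Continuous fun x : ℝ => ‖es (1 / 2 + δ + x * Complex.I) (A0 * PT M M' α z y J Rs t)‖ ^ 2 := fun t =>
    es_cont0 δ (APT_Bd (κ := α) hS hM'M hA hm0 hWM t)
  have hgc : Continuous fun x : ℝ => 4 * ∑ t ∈ (range J).powerset, ‖es (1 / 2 + δ + x * Complex.I) (A0 * PT M M' α z y J Rs t)‖ ^ 2 :=
    continuous_const.mul (continuous_finsetSum _ fun t _ => hPTc t)
  have hsum5 : ∑ i ∈ range J, 5 * Real.exp (-(RR Rs i : ℝ)) ≤ 1 / 2 := by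
    have h1 : ∑ i ∈ range J, 5 * Real.exp (-(RR Rs i : ℝ)) ≤ ∑ i ∈ range J, 2 * erM (10 * M) c z y Rs i := by
      refine sum_le_sum fun i _ => ?_
      have a1 := er_far (10 * M) c z y Rs i
      have a2 : (8:ℝ) ≤ CEM ((10 * M : ℕ) : ℝ) c := by
        unfold CEM
        have := Real.one_le_exp (show 0 ≤ 2800 * ((10 * M : ℕ) : ℝ) ^ 3 * c by positivity)
        linarith
      have a3 := mul_le_mul_of_nonneg_right a2 (Real.exp_pos (-(RR Rs i : ℝ))).le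
      have a4 := Real.exp_pos (-(RR Rs i : ℝ))
      linarith
    refine h1.trans ?_
    rw [← mul_sum]
    have : ∑ i ∈ range J, erM (10 * M) c z y Rs i = E10 := by rw [hE10d]; rfl
    rw [this]
    linarith
  have hPn : ∀ t : ℝ, es (1 / 2 + (δ:ℂ) + t * Complex.I) (Pz z) ≠ 0 := fun t => norm_pos_iff.mp (es_Pz_pos z (hre t))
  have hA12 : ∀ t : ℝ, ‖es (1 / 2 + δ + t * Complex.I) A1‖ * ‖es (1 / 2 + δ + t * Complex.I) A2‖ ≤
      2 * ‖es (1 / 2 + δ + t * Complex.I) A0‖ ^ 2 := by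
    intro t
    have a1 := hpair α hαρ _ (hre t)
    have a2 := (hsize α hαρ _ (hre t)).1
    obtain ⟨p, hp⟩ : ∃ p, p = ‖es (1 / 2 + (δ:ℂ) + t * Complex.I) (Pz z)‖ ^ (2 * α) := ⟨_, rfl⟩
    have hp0 : 0 < p := by rw [hp]; have := norm_pos_iff.mpr (hPn t); positivity
    have a3 : p * (‖es (1 / 2 + δ + t * Complex.I) A1‖ * ‖es (1 / 2 + δ + t * Complex.I) A2‖) ≤ 1 + ε := by
      have := norm_add_le (Ph α mm (es (1 / 2 + δ + t * Complex.I) (Pz z)) * (es (1 / 2 + δ + t * Complex.I) A1 *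
        starRingEnd ℂ (es (1 / 2 + δ + t * Complex.I) A2)) - 1) 1
      rw [sub_add_cancel, norm_mul, norm_mul, RCLike.norm_conj, Ph_norm (hPn t), norm_one, ← hp] at this
      linarith
    rw [← hp] at a2
    refine le_of_mul_le_mul_left ?_ hp0
    linarith
  have hmain := asm (X1 := T ^ ((4:ℝ)/5)) (X2 := T / 2) (C1 := 12 * ε) t3.1 hGm
    (Φ := fun t => Ph α mm (riemannZeta (1 / 2 + δ + t * Complex.I)))
    (w := fun t => es (1 / 2 + δ + t * Complex.I) (A1 * Bm M (α + mm / 2) z y J Rs) *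
      starRingEnd ℂ (es (1 / 2 + δ + t * Complex.I) (A2 * Bm M (α - mm / 2) z y J Rs)))
    (τ := tw h k) (zf := fun t => zn (1 / 2 + δ) t ^ (2 * α))
    (g := fun x => 4 * ∑ t ∈ (range J).powerset, ‖es (1 / 2 + δ + x * Complex.I) (A0 * PT M M' α z y J Rs t)‖ ^ 2)
    (Ph_int hα hδ16 mm)
    ((es_cc δ (ABm_Bd (a := α + mm / 2) hS hA1' hm0 hWM)).mul
      (Complex.continuous_conj.comp (es_cc δ (ABm_Bd (a := α - mm / 2) hS hA2' hm0 hWM))))
    (tw_cont h k) (tw_norm h k) hzi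
    (by rw [← intervalIntegrable_iff_integrableOn_Ioc_of_le t3.1]; exact hgc.intervalIntegrable _ _)
    (fun t ht => by
      have h1 := on_good_ph (J := J) (Rs := Rs) (K := fun i => 20 * (M * RR Rs i)) (a := α + mm / 2) (b := α - mm / 2) (m := mm)
        hα hαM hmM hMn (by ring) (by ring) he1 hε hε1 P.p1 P.p2
        (fun i => cl_M hMn (hRR hS i) ha) (fun i => cl_M hMn (hRR hS i) hb) P.h4a
        (riemannZeta (1 / 2 + δ + t * Complex.I)) (es (1 / 2 + δ + t * Complex.I) (Pz z))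
        (es (1 / 2 + δ + t * Complex.I) A1) (es (1 / 2 + δ + t * Complex.I) A2) (hPn t)
        (fun i => PI (IZ z y i) (1 / 2 + δ + t * Complex.I)) ht (hpair α hαρ _ (hre t))
      rw [← es_Bm, ← es_Bm, ← map_mul, ← map_mul] at h1
      have e3 : zn (1 / 2 + δ) t = ‖riemannZeta (1 / 2 + δ + t * Complex.I)‖ := by
        unfold zn; rw [s_eq]
      rw [e3]
      exact h1)
    (fun t => by
      rw [norm_mul, RCLike.norm_conj]
      exact w_maj hS hMn hM' ha hb k1 (by ring) (hA12 t) hsum5)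
  -- the parts
  have hW25 : Real.log T ≤ 25 * T ^ ((1:ℝ) / 25) := by
    have h8 := Real.log_le_rpow_div hT0.le (show (0:ℝ) < 1 / 25 by norm_num)
    have e1 : T ^ ((1:ℝ) / 25) / (1 / 25) = 25 * T ^ ((1:ℝ) / 25) := by ring
    rwa [e1] at h8
  have hoffg : ∫ x in Set.Ioc (T ^ ((4:ℝ)/5)) (T / 2) \ Gh z y J Rs e1 δ,
      4 * ∑ t ∈ (range J).powerset, ‖es (1 / 2 + δ + x * Complex.I) (A0 * PT M M' α z y J Rs t)‖ ^ 2 ≤ 12 * ε * Y := by
    have hint : ∀ t : Finset ℕ, IntegrableOn (fun x : ℝ => ‖es (1 / 2 + δ + x * Complex.I) (A0 * PT M M' α z y J Rs t)‖ ^ 2)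
        (Set.Ioc (T ^ ((4:ℝ)/5)) (T / 2)) := fun t => by
      rw [← intervalIntegrable_iff_integrableOn_Ioc_of_le t3.1]; exact (hPTc t).intervalIntegrable _ _
    rw [integral_const_mul, integral_finsetSum _ fun t _ => (hint t).mono_set Set.sdiff_subset]
    rw [← add_sum_erase (range J).powerset _ (mem_powerset.mpr (subset_refl (range J)))]
    have h1 : ∫ x in Set.Ioc (T ^ ((4:ℝ)/5)) (T / 2) \ Gh z y J Rs e1 δ,
        ‖es (1 / 2 + δ + x * Complex.I) (A0 * PT M M' α z y J Rs (range J))‖ ^ 2 ≤ ε * Y := by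
      rw [PT_full]; exact hoff
    have h2 : ∑ t ∈ (range J).powerset.erase (range J), ∫ x in Set.Ioc (T ^ ((4:ℝ)/5)) (T / 2) \ Gh z y J Rs e1 δ,
        ‖es (1 / 2 + δ + x * Complex.I) (A0 * PT M M' α z y J Rs t)‖ ^ 2 ≤
        ∑ t ∈ (range J).powerset.erase (range J), ∫ x in (T ^ ((4:ℝ)/5))..(T / 2),
        ‖es (1 / 2 + δ + x * Complex.I) (A0 * PT M M' α z y J Rs t)‖ ^ 2 := by
      refine sum_le_sum fun t _ => ?_
      rw [intervalIntegral.integral_of_le t3.1]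
      exact setIntegral_mono_set (hint t) (Eventually.of_forall fun x => sq_nonneg _) (Eventually.of_forall Set.sdiff_subset)
    have h3 := sum_PT (κ := α) hS hMn hM' hM'M hκ1 hzM' hz10 hδ0.le hA hm0 hAm hX1 t3.1 hWM hW0.le
    rw [← hB, ← hV, ← hE10d] at h3
    have hETM0 := ETM_nonneg M' c z y J Rs
    have h4 : Real.exp (α ^ 2 * V + ETM M' c z y J Rs) ≤ 2 * Real.exp (α ^ 2 * V) := by
      rw [Real.exp_add, mul_comm]
      refine mul_le_mul_of_nonneg_right ?_ (Real.exp_pos _).le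
      have := exp_le_two hETM0 (by linarith)
      linarith
    have h5 : Real.exp (2 * E10) - 1 ≤ ε / 2 := by
      have := exp_le_two (ε := 2 * E10) (by positivity) (by linarith)
      linarith
    have h6 : T / 2 * (B * (Real.exp (α ^ 2 * V + ETM M' c z y J Rs) * (Real.exp (2 * E10) - 1))) ≤ ε * Y := by
      have h50 : 0 ≤ Real.exp (2 * E10) - 1 := by
        have := Real.one_le_exp (show 0 ≤ 2 * E10 by positivity)
        linarith
      calc _ ≤ T / 2 * (B * (2 * Real.exp (α ^ 2 * V) * (ε / 2))) := by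
            refine mul_le_mul_of_nonneg_left (mul_le_mul_of_nonneg_left ?_ (by linarith)) hX2
            exact mul_le_mul h4 h5 h50 (by positivity)
        _ = ε * Y := by rw [hY]; ring
    have h7 : 2 ^ J * (4 * (m * W) * (l1' A0 ^ 2 * W)) ≤ ε * Y := by
      have a1 := J_bound hS
      rw [hly] at a1
      have a2 : (2:ℝ) ^ J ≤ η * (25 * T ^ ((1:ℝ) / 25)) := a1.trans (mul_le_mul_of_nonneg_left hW25 hη.le)
      have a3 : 4 * (m * W) * (l1' A0 ^ 2 * W) = 4 * m * l1' A0 ^ 2 * T ^ ((1:ℝ) / 25) := by rw [← hWW]; ring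
      rw [a3]
      have a4 : T ^ ((2:ℝ) / 25) = T ^ ((1:ℝ) / 25) * T ^ ((1:ℝ) / 25) := by rw [← Real.rpow_add hT0]; norm_num
      calc 2 ^ J * (4 * m * l1' A0 ^ 2 * T ^ ((1:ℝ) / 25)) ≤ (η * (25 * T ^ ((1:ℝ) / 25))) * (4 * m * l1' A0 ^ 2 * T ^ ((1:ℝ) / 25)) :=
            mul_le_mul_of_nonneg_right a2 (by positivity)
        _ = K1 * T ^ ((2:ℝ) / 25) := by rw [a4, hK1]; ring
        _ = ε / 2 * (2 * K1 / ε * T ^ ((2:ℝ) / 25)) := by field_simp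
        _ ≤ ε / 2 * T ^ (1:ℝ) := mul_le_mul_of_nonneg_left t6 (by positivity)
        _ = ε * (T / 2) := by rw [Real.rpow_one]; ring
        _ ≤ ε * Y := mul_le_mul_of_nonneg_left hYT hε.le
    linarith
  have hfull : ‖∫ x in (T ^ ((4:ℝ)/5))..(T / 2), es (1 / 2 + δ + x * Complex.I) (A1 * Bm M (α + mm / 2) z y J Rs) *
        starRingEnd ℂ (es (1 / 2 + δ + x * Complex.I) (A2 * Bm M (α - mm / 2) z y J Rs)) * tw h k x‖ ≤ 2 * ε * Y := by
    have h1 := ab_mean (X1 := T ^ ((4:ℝ)/5)) (X2 := T / 2) hS hh hk hpz hMn hc P.zM hδ0.le hδ16 ha hb hm0 hA1' hA2' g1 g2 hX1 t3.1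
      hWM hW0.le
    rw [← hq, ← hCc, ← hV, ← hE10d] at h1
    have h2 : Real.exp ((α + mm / 2) * (α - mm / 2) * V + 2 * E10) ≤ 2 * Real.exp (-(V / 4)) * Real.exp (α ^ 2 * V) := by
      have a1 : (1:ℝ) ≤ (mm:ℝ) ^ 2 := by
        have h9 : (1:ℤ) ≤ mm ^ 2 := by
          rw [← sq_abs]
          exact one_le_pow₀ (Int.one_le_abs hm0')
        exact_mod_cast h9
      have a2 : (α + mm / 2) * (α - mm / 2) * V ≤ α ^ 2 * V - V / 4 := by
        have h9 := mul_le_mul_of_nonneg_right a1 hVd0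
        have e9 : (α + mm / 2) * (α - mm / 2) * V = α ^ 2 * V - (mm:ℝ) ^ 2 * V / 4 := by ring
        rw [e9]
        linarith only [h9]
      have a3 : Real.exp (2 * E10) ≤ 2 := by
        have := exp_le_two (ε := 2 * E10) (by positivity) (by linarith)
        linarith
      calc _ ≤ Real.exp ((α ^ 2 * V - V / 4) + 2 * E10) := Real.exp_le_exp.mpr (by linarith)
        _ = Real.exp (-(V / 4)) * Real.exp (α ^ 2 * V) * Real.exp (2 * E10) := by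
            rw [← Real.exp_add, ← Real.exp_add]; congr 1; ring
        _ ≤ Real.exp (-(V / 4)) * Real.exp (α ^ 2 * V) * 2 := mul_le_mul_of_nonneg_left a3 (by positivity)
        _ = _ := by ring
    have h3 : q * Cc * (2 * Real.exp (-(V / 4))) ≤ ε := by
      have a1 : 2 * q * Cc / ε ≤ V / 4 := by rw [hL0d] at hVL; linarith
      have a2 : V / 4 ≤ Real.exp (V / 4) := by have := Real.add_one_le_exp (V / 4); linarith
      have a3 := a1.trans a2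
      rw [div_le_iff₀ hε] at a3
      rw [Real.exp_neg]
      have a4 := Real.exp_pos (V / 4)
      have e2 : q * Cc * (2 * (Real.exp (V / 4))⁻¹) = 2 * q * Cc / Real.exp (V / 4) := by field_simp
      rw [e2, div_le_iff₀ a4]
      linarith
    have h4 : q * (T / 2 * (Cc * Real.exp ((α + mm / 2) * (α - mm / 2) * V + 2 * E10))) ≤ ε * Y := by
      calc _ ≤ q * (T / 2 * (Cc * (2 * Real.exp (-(V / 4)) * Real.exp (α ^ 2 * V)))) := by gcongr
        _ = (q * Cc * (2 * Real.exp (-(V / 4)))) * (T / 2 * Real.exp (α ^ 2 * V)) := by ring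
        _ ≤ ε * (T / 2 * Real.exp (α ^ 2 * V)) := mul_le_mul_of_nonneg_right h3 (by positivity)
        _ ≤ ε * Y := by
            refine mul_le_mul_of_nonneg_left ?_ hε.le
            rw [hY]
            exact mul_le_mul_of_nonneg_left (le_mul_of_one_le_left (Real.exp_pos _).le hB1) hX2
    have h5 : q * (2 * (q * (m * W)) * (Cc * W)) ≤ ε * Y := by
      have a1 : q * (2 * (q * (m * W)) * (Cc * W)) = K0 * T ^ ((1:ℝ) / 25) := by rw [← hWW, hK0]; ring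
      rw [a1]
      calc K0 * T ^ ((1:ℝ) / 25) = ε / 2 * (2 * K0 / ε * T ^ ((1:ℝ) / 25)) := by field_simp
        _ ≤ ε / 2 * T ^ (1:ℝ) := mul_le_mul_of_nonneg_left t7 (by positivity)
        _ = ε * (T / 2) := by rw [Real.rpow_one]; ring
        _ ≤ ε * Y := mul_le_mul_of_nonneg_left hYT hε.le
    rw [mul_add] at h1
    linarith
  refine hmain.trans ?_
  have hεY : ε * Y ≤ 2 * (ε * ∫ t in Set.Ioc (T ^ ((4:ℝ)/5)) (T / 2) ∩ Gh z y J Rs e1 δ, zn (1 / 2 + δ) t ^ (2 * α)) := by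
    have := mul_le_mul_of_nonneg_left hI hε.le
    linarith
  linarith

end Pool.Agent.Run7.h290.PH
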