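import Pool.Agent.Run7.h290.PH.D
import Pool.Agent.Y753.NL.All4
import Pool.Agent.Y755.Gn3

set_option autoImplicit false

/-! Stages with phases. -/

namespace Pool.Agent.Run7.h290.PH

open Finset Filter MeasureTheory MonoidAlgebra Topology
open Pool.Agent.Y755
open Pool.Agent.Y753.NL
open Pool.Agent.W184.NZ
open Pool.Agent.W184 (zn zn_nonneg zn_cont zn_le')

/-- the parameters exist -/
theorem Pk_ex' {M : ℕ} (hM : 1 ≤ M) {ε : ℝ} (hε : 0 < ε) (hε1 : ε ≤ 1 / 10) (z0 : ℕ) :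
    ∃ (z Rs : ℕ) (e1 c η d x0 : ℝ), z0 ≤ z ∧ Pk M z Rs ε e1 c η d x0 ∧ 40000 * (10 * M) ^ 6 ≤ z ∧
      ∀ (y : ℝ) (J : ℕ), Rg c J (IZ z y) (bb y) → ETM (10 * M) c z y J Rs ≤ ε / 8 := by
  have hM1 : (1:ℝ) ≤ M := by exact_mod_cast hM
  have hM0 : (0:ℝ) < M := by linarith
  obtain ⟨e1, he1, he11, hp1, hp2⟩ := e1_ex hM hε hε1
  set e := ε * e1 ^ 2 / 600 with he
  have he0 : 0 < e := by positivity
  obtain ⟨c, hc, hpar⟩ := par_ex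
  obtain ⟨z1, R1, hET1⟩ := ETM_small M hc he0
  obtain ⟨z2, R2, hET2⟩ := ETM_small 1 hc he0
  obtain ⟨z4, R4, hET4⟩ := ETM_small (10 * M) hc (show 0 < ε / 8 by positivity)
  obtain ⟨z3, x0, hx0, hcmp⟩ := cmp_u (Mx := M) hM0 hε
  obtain ⟨z, hzz0, hzz1, hzz2, hzz3, hzz4, hzM, hz1000, hz40, hz10⟩ : ∃ z : ℕ, z0 ≤ z ∧ z1 ≤ z ∧ z2 ≤ z ∧ z3 ≤ z ∧ z4 ≤ z ∧
      40000 * M ^ 6 ≤ z ∧ 1000 ≤ z ∧ 40000 * 1 ^ 6 ≤ z ∧ 40000 * (10 * M) ^ 6 ≤ z := by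
    have h1 : 1 ≤ M ^ 6 := Nat.one_le_pow _ _ (by omega)
    refine ⟨z0 + z1 + z2 + z3 + z4 + 40000 * M ^ 6 + 40000 * (10 * M) ^ 6, by omega, by omega, by omega, by omega, by omega,
      by omega, by omega, by omega, by omega⟩
  obtain ⟨Rs, hRok, hRRm, h4, _⟩ := Rs_exists (c := c) (ε := min (ε / 4) (e1 / 8)) (by positivity) (max (max R1 R2) R4)
  have hR1 : R1 ≤ Rs := ((le_max_left _ _).trans (le_max_left _ _)).trans hRRm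
  have hR2 : R2 ≤ Rs := ((le_max_right _ _).trans (le_max_left _ _)).trans hRRm
  have hR4 : R4 ≤ Rs := (le_max_right _ _).trans hRRm
  have hRs1 : 1 ≤ Rs := hRok.1
  obtain ⟨ηm, hηm, hmono⟩ := mono_moment
  have hq0 : 0 < min ηm (1 / 4) := lt_min hηm (by norm_num)
  have hq1 : min ηm (1 / 4) ≤ 1 / 4 := min_le_right _ _
  have hRp : (0:ℝ) < M * ((Rs:ℝ) + 1) := by positivity
  set η : ℝ := min ηm (1 / 4) / 4000 / (M * ((Rs:ℝ) + 1)) with hηd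
  have hη : 0 < η := by positivity
  have hη1 : η * (M * ((Rs:ℝ) + 1)) = min ηm (1 / 4) / 4000 := by rw [hηd]; field_simp
  have hη2 : η * (M * ((Rs:ℝ) + 1)) ≤ 1 / 16000 := by rw [hη1]; linarith
  have hη16 : η ≤ 1 / 16 := by
    have : η * 1 ≤ η * (M * ((Rs:ℝ) + 1)) := mul_le_mul_of_nonneg_left (by
      have : (0:ℝ) ≤ Rs := Nat.cast_nonneg _
      nlinarith) hη.le
    linarith
  obtain ⟨d, hd, hpar2⟩ := hpar z Rs hz1000 hRs1 η hη hη16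
  refine ⟨z, Rs, e1, c, η, d, x0, hzz0, ⟨hM, hε, hε1, he1, he11, hp1, hp2, hc, hzM, hz40,
    fun y J hJ => hET1 z hzz1 Rs hR1 y J hJ, fun y J hJ => hET2 z hzz2 Rs hR2 y J hJ, hx0,
    fun α h1 h2 y δ h3 h4 h5 J h6 => hcmp α h1 h2 z hzz3 hz1000 y δ h3 h4 h5 J h6, hRok,
    h4.trans (min_le_left _ _), h4.trans (min_le_right _ _), hη, hη2, hd, hpar2,
    onl_all (M := M) hM hc hηm hmono hη hη1.le hRok hd⟩, hz10, fun y J hJ => hET4 z hzz4 Rs hR4 y J hJ⟩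

/-- the phases along a path -/
theorem tripP {M z Rs : ℕ} {ε e1 c η d x0 : ℝ} (P : Pk M z Rs ε e1 c η d x0) (hε40 : ε ≤ 1 / 40)
    (hz10 : 40000 * (10 * M) ^ 6 ≤ z)
    (hE10 : ∀ (y : ℝ) (J : ℕ), Rg c J (IZ z y) (bb y) → ETM (10 * M) c z y J Rs ≤ ε / 8)
    {α0 ρ m' m1 : ℝ} {A0 A1 A2 : P1} {h k : ℕ}
    (hh : h ≠ 0) (hk : k ≠ 0) (hpz : ∀ p, p.Prime → p ∣ h * k → p < z) (hA' : Bd1 m' A0) (hAm : A0 ∈ SA1 (M1 (S0 z)))
    (hge : ∀ δ, 1 ≤ ip δ A0 A0)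
    (hsize : ∀ α : ℝ, |α - α0| ≤ ρ → ∀ s : ℂ, 1 / 2 ≤ s.re →
        1 - ε ≤ ‖es s (Pz z)‖ ^ (2 * α) * ‖es s A0‖ ^ 2 ∧ ‖es s (Pz z)‖ ^ (2 * α) * ‖es s A0‖ ^ 2 ≤ 1 + ε)
    {mm : ℤ} (hm0' : mm ≠ 0) (hmM : |(mm:ℝ)| ≤ M) (hA1 : Bd1 m1 A1) (hA2 : Bd1 m1 A2) (g1 : A1 ∈ SA1 (M1 (S0 z)))
    (g2 : A2 ∈ SA1 (M1 (S0 z)))
    (hpair : ∀ α : ℝ, |α - α0| ≤ ρ → ∀ s : ℂ, 1 / 2 ≤ s.re →
        ‖Ph α mm (es s (Pz z)) * (es s A1 * starRingEnd ℂ (es s A2)) - 1‖ ≤ ε)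
    {δ : ℝ → ℝ} (hδ0 : Tendsto δ atTop (𝓝 0)) (hδL : Tendsto (fun T => δ T * Real.log T) atTop atTop) :
    ∀ᶠ X : ℝ in atTop, ∀ J : ℕ, PJ c z η Rs d (2 * X) J →
      ∀ α : ℝ, 0 < α → α ≤ M → |α - α0| ≤ ρ →
        ‖∫ t in Set.Ioc ((2 * X) ^ ((4:ℝ)/5)) X ∩ Gh z (yT η (2 * X)) J Rs e1 (δ X),
            Ph α mm (riemannZeta (1 / 2 + δ X + t * Complex.I)) * tw h k t‖ ≤
          40 * ε * ∫ t in Set.Ioc ((2 * X) ^ ((4:ℝ)/5)) X ∩ Gh z (yT η (2 * X)) J Rs e1 (δ X),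
            zn (1 / 2 + δ X) t ^ (2 * α) := by
  have hpos : ∀ᶠ T in atTop, 0 < δ T := by
    filter_upwards [hδL.eventually_gt_atTop 0, eventually_gt_atTop 1] with T hT hT1
    exact (pos_iff_pos_of_mul_pos hT).mpr (Real.log_pos hT1)
  obtain ⟨lam, δ0, hlam, hδ00, hev⟩ := win_ph P hε40 hz10 hE10 hh hk hpz hA' hAm hge hsize hm0' hmM hA1 hA2 g1 g2 hpair
  filter_upwards [two_mul_tendsto.eventually hev, hδL.eventually_ge_atTop lam, hpos,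
    hδ0.eventually (gt_mem_nhds hδ00), eventually_gt_atTop 1] with X t1 t2 t3 t4 t5 J hJ α h1 h2 h3
  have hL := Real.log_pos t5
  have hX0 : 0 < X := by linarith
  have hLL : Real.log X ≤ Real.log (2 * X) := Real.log_le_log hX0 (by linarith)
  have h4 := t1 (δ X) (by
    rw [div_le_iff₀ (hL.trans_le hLL)]
    exact t2.trans (mul_le_mul_of_nonneg_left hLL t3.le)) t4.le J hJ α h1 h2 h3
  have e2 : 2 * X / 2 = X := by ring
  rw [e2] at h4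
  exact h4

/-- the phases in a stage -/
def StP (n : ℕ) (δ : ℝ) (U : Set ℝ) : Prop :=
  ∀ h k : ℕ, h ≠ 0 → k ≠ 0 → h.Coprime k → h * k ≤ n + 1 → ∀ α0 : ℝ, 1 / ((n:ℝ) + 1) ≤ α0 → α0 ≤ n →
    ∀ mm : ℤ, mm ≠ 0 → |(mm:ℝ)| ≤ n + 1 → ∀ α : ℝ, |α - α0| ≤ (n + 1) / sg δ →
      ‖∫ t in U, Ph α mm (riemannZeta (1 / 2 + δ + t * Complex.I)) * tw h k t‖ ≤
        1 / ((n:ℝ) + 1) * ∫ t in U, zn (1 / 2 + δ) t ^ (2 * α)

/-- the stages exist -/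
theorem stage' {δ : ℝ → ℝ} (hδ0 : Tendsto δ atTop (𝓝 0)) (hδL : Tendsto (fun T => δ T * Real.log T) atTop atTop) (n : ℕ) :
    ∀ᶠ X : ℝ in atTop, ∃ U : Set ℝ, Stg n X (δ X) U ∧ StP n (δ X) U := by
  have hpos : ∀ᶠ T in atTop, 0 < δ T := by
    filter_upwards [hδL.eventually_gt_atTop 0, eventually_gt_atTop 1] with T hT hT1
    exact (pos_iff_pos_of_mul_pos hT).mpr (Real.log_pos hT1)
  have hsg := sg_tendsto hpos hδ0
  have hn0 : (0:ℝ) < (n:ℝ) + 1 := by positivity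
  have hn1 : (1:ℝ) ≤ (n:ℝ) + 1 := by have : (0:ℝ) ≤ n := Nat.cast_nonneg n; linarith
  obtain ⟨ε, hεd⟩ : ∃ ε : ℝ, ε = 1 / (600 * ((n:ℝ) + 1)) := ⟨_, rfl⟩
  have hε : 0 < ε := by rw [hεd]; positivity
  have hεn : ε * (600 * ((n:ℝ) + 1)) = 1 := by rw [hεd]; field_simp
  have hε1 : ε ≤ 1 / 600 := by nlinarith
  obtain ⟨z, Rs, e1, c, η, d, x0, hz, P, hz10, hE10⟩ := Pk_ex' (M := n + 1) (by omega) hε (by linarith) (n + 2)
  obtain ⟨ρ0, hρ0, hA⟩ := A0_u hε (by linarith) z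
  obtain ⟨ρ1, hρ1, hpair⟩ := pair_ex (z := z) hε (by linarith)
  obtain ⟨ρ, hρ, hρρ, hρρ1, hρn⟩ : ∃ ρ : ℝ, 0 < ρ ∧ ρ ≤ ρ0 ∧ ρ ≤ ρ1 ∧ ρ ≤ 1 / ((n:ℝ) + 1) :=
    ⟨min (min ρ0 ρ1) (1 / ((n:ℝ) + 1)), lt_min (lt_min hρ0 hρ1) (by positivity), (min_le_left _ _).trans (min_le_left _ _),
      (min_le_left _ _).trans (min_le_right _ _), min_le_right _ _⟩
  obtain ⟨L, hL⟩ : ∃ L : ℕ, L = ⌈(n:ℝ) / (ρ / 2)⌉₊ := ⟨_, rfl⟩
  obtain ⟨Q, hQ⟩ : ∃ Q : ℝ → ℕ → ℕ → ℕ → Prop, ∀ X j h k, Q X j h k ↔ (∀ J : ℕ, PJ c z η Rs d (2 * X) J →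
      ∃ V B : ℝ, 0 < B ∧ |V - ell (δ X)| ≤ 1 / ((n:ℝ) + 1) * sg (δ X) ∧
      ∀ α : ℝ, 0 < α → α ≤ (n + 1 : ℕ) → |α - j * (ρ / 2)| ≤ ρ →
        |(∫ t in Set.Ioc ((2 * X) ^ ((4:ℝ)/5)) X ∩ Gh z (yT η (2 * X)) J Rs e1 (δ X), zn (1 / 2 + δ X) t ^ (2 * α)) -
          X * (B * Real.exp (α ^ 2 * V))| ≤ 20 * ε * (X * (B * Real.exp (α ^ 2 * V))) ∧
        ‖(∫ t in Set.Ioc ((2 * X) ^ ((4:ℝ)/5)) X ∩ Gh z (yT η (2 * X)) J Rs e1 (δ X),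
            ((zn (1 / 2 + δ X) t ^ (2 * α) : ℝ) : ℂ) * tw h k t) -
          ((X * (B * Real.exp (α ^ 2 * V)) * Nu (j * (ρ / 2)) h k : ℝ) : ℂ)‖ ≤
          20 * ε * (1 + |Nu (j * (ρ / 2)) h k|) * (X * (B * Real.exp (α ^ 2 * V)))) := ⟨_, fun _ _ _ _ => Iff.rfl⟩
  obtain ⟨Qp, hQp⟩ : ∃ Qp : ℝ → ℕ → ℕ → ℕ → ℤ → Prop, ∀ X j h k mm, Qp X j h k mm ↔ (∀ J : ℕ, PJ c z η Rs d (2 * X) J →
      ∀ α : ℝ, 0 < α → α ≤ (n + 1 : ℕ) → |α - j * (ρ / 2)| ≤ ρ →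
        ‖∫ t in Set.Ioc ((2 * X) ^ ((4:ℝ)/5)) X ∩ Gh z (yT η (2 * X)) J Rs e1 (δ X),
            Ph α mm (riemannZeta (1 / 2 + δ X + t * Complex.I)) * tw h k t‖ ≤
          40 * ε * ∫ t in Set.Ioc ((2 * X) ^ ((4:ℝ)/5)) X ∩ Gh z (yT η (2 * X)) J Rs e1 (δ X),
            zn (1 / 2 + δ X) t ^ (2 * α)) := ⟨_, fun _ _ _ _ _ => Iff.rfl⟩
  have hall : ∀ᶠ X : ℝ in atTop, ∀ j ∈ range (L + 1), ∀ h ∈ range (n + 2), ∀ k ∈ range (n + 2),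
      j ≠ 0 → h ≠ 0 → k ≠ 0 → h.Coprime k → h * k ≤ n + 1 → Q X j h k := by
    rw [eventually_all_finset]
    intro j _
    rw [eventually_all_finset]
    intro h _
    rw [eventually_all_finset]
    intro k _
    by_cases hcond : j ≠ 0 ∧ h ≠ 0 ∧ k ≠ 0 ∧ h.Coprime k ∧ h * k ≤ n + 1
    · obtain ⟨c1, c2, c3, c4, c5⟩ := hcond
      have hj0 : 0 < (j:ℝ) * (ρ / 2) := by
        have : (0:ℝ) < j := by exact_mod_cast Nat.pos_of_ne_zero c1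
        positivity
      have hpz : ∀ p, p.Prime → p ∣ h * k → p < z := fun p _ hd => by
        have := Nat.le_of_dvd (Nat.pos_of_ne_zero (mul_ne_zero c2 c3)) hd
        omega
      obtain ⟨A0, m, δr, g1, g2, g3, g4, g5, g6⟩ := hA _ hj0 h k c2 c3 c4 hpz
      have := trip P c2 c3 hpz g1 g2 g3 g4 g5 (ρ := ρ) (fun α hα => g6 α (hα.trans hρρ)) hδ0 hδL
        (κ := 1 / ((n:ℝ) + 1)) (by positivity)
      filter_upwards [this] with X hX _ _ _ _ _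
      rw [hQ]
      exact hX
    · refine Eventually.of_forall fun X c1 c2 c3 c4 c5 => absurd ⟨c1, c2, c3, c4, c5⟩ hcond
  have hallp : ∀ᶠ X : ℝ in atTop, ∀ j ∈ range (L + 1), ∀ h ∈ range (n + 2), ∀ k ∈ range (n + 2),
      ∀ mm ∈ Finset.Icc (-((n:ℤ) + 1)) ((n:ℤ) + 1),
      j ≠ 0 → h ≠ 0 → k ≠ 0 → h.Coprime k → h * k ≤ n + 1 → mm ≠ 0 → Qp X j h k mm := by
    rw [eventually_all_finset]
    intro j _
    rw [eventually_all_finset]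
    intro h _
    rw [eventually_all_finset]
    intro k _
    rw [eventually_all_finset]
    intro mm hmm
    by_cases hcond : j ≠ 0 ∧ h ≠ 0 ∧ k ≠ 0 ∧ h.Coprime k ∧ h * k ≤ n + 1 ∧ mm ≠ 0
    · obtain ⟨c1, c2, c3, c4, c5, c6⟩ := hcond
      have hj0 : 0 < (j:ℝ) * (ρ / 2) := by
        have : (0:ℝ) < j := by exact_mod_cast Nat.pos_of_ne_zero c1
        positivity
      have hpz : ∀ p, p.Prime → p ∣ h * k → p < z := fun p _ hd => by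
        have := Nat.le_of_dvd (Nat.pos_of_ne_zero (mul_ne_zero c2 c3)) hd
        omega
      obtain ⟨A0, m, δr, g1, g2, g3, g4, g5, g6⟩ := hA _ hj0 h k c2 c3 c4 hpz
      obtain ⟨A1, A2, ⟨ma, hma⟩, ⟨mb, hmb⟩, k1, k2, k3⟩ := hpair ((j:ℝ) * (ρ / 2)) mm
      have hmr : |(mm:ℝ)| ≤ ((n + 1 : ℕ) : ℝ) := by
        rw [Finset.mem_Icc] at hmm
        rw [abs_le]
        constructor
        · have : ((-((n:ℤ) + 1) : ℤ) : ℝ) ≤ (mm:ℝ) := by exact_mod_cast hmm.1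
          push_cast at this ⊢
          exact this
        · have : (mm:ℝ) ≤ (((n:ℤ) + 1 : ℤ) : ℝ) := by exact_mod_cast hmm.2
          push_cast at this ⊢
          exact this
      have := tripP P (by linarith) hz10 hE10 c2 c3 hpz g1 g2 g4 (ρ := ρ) (fun α hα => g6 α (hα.trans hρρ)) c6 hmr
        (m1 := max ma mb) (hma.mono (le_max_left _ _)) (hmb.mono (le_max_right _ _)) k1 k2
        (fun α hα => k3 α (hα.trans hρρ1)) hδ0 hδL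
      filter_upwards [this] with X hX _ _ _ _ _ _
      rw [hQp]
      exact hX
    · refine Eventually.of_forall fun X c1 c2 c3 c4 c5 c6 => absurd ⟨c1, c2, c3, c4, c5, c6⟩ hcond
  obtain ⟨lam, hlam, hw1⟩ := win1 P
  filter_upwards [hall, hallp, two_mul_tendsto.eventually hw1, two_mul_tendsto.eventually P.par,
    two_mul_tendsto.eventually windows_ev, hδL.eventually_ge_atTop lam, hpos,
    hδ0.eventually (gt_mem_nhds (show (0:ℝ) < 1 / 16 by norm_num)), eventually_gt_atTop 1,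
    (hsg.const_mul_atTop (show 0 < ρ / (2 * ((n:ℝ) + 1)) by positivity)).eventually_ge_atTop 1, hsg.eventually_gt_atTop 0,
    (two_mul_tendsto.eventually (rpow_ev (p := 4 / 5) (q := 1) (by norm_num) (1 / ε)))] with
    X t1 t1p t2 t3 t4 t5 t6 t7 t8 t9 t10 t11
  obtain ⟨J, hJ⟩ := t3
  have hLg := Real.log_pos t8
  have hX0 : 0 < X := by linarith
  have hLL : Real.log X ≤ Real.log (2 * X) := Real.log_le_log hX0 (by linarith)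
  obtain ⟨hGm, hvol, hmass⟩ := t2 (δ X) (by
    rw [div_le_iff₀ (hLg.trans_le hLL)]
    exact t5.trans (mul_le_mul_of_nonneg_left hLL t6.le)) t7.le J hJ
  have e2 : 2 * X / 2 = X := by ring
  rw [e2] at hvol hmass
  have hw := t4.1
  rw [e2] at hw
  set G := Gh z (yT η (2 * X)) J Rs e1 (δ X) with hG
  set w := (2 * X) ^ ((4:ℝ)/5) with hwd
  have hw0 : 0 ≤ w := by rw [hwd]; positivity
  have hwX : w ≤ 2 * ε * X := by
    rw [Real.rpow_one] at t11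
    have := mul_le_mul_of_nonneg_left t11 hε.le
    have e3 : ε * (1 / ε * w) = w := by field_simp
    rw [e3] at this
    linarith
  have hUm : MeasurableSet (Set.Ioc w X ∩ G) := measurableSet_Ioc.inter hGm
  have hUX : Set.Ioc w X ∩ G ⊆ Set.Icc 0 X := fun t ht => ⟨hw0.trans ht.1.1.le, ht.1.2⟩
  have hs0 : 0 < sg (δ X) := t10
  have hsρ : (n + 1) / sg (δ X) ≤ ρ / 2 := by
    rw [div_le_iff₀ hs0]
    have := mul_le_mul_of_nonneg_left t9 hn0.le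
    have e3 : ((n:ℝ) + 1) * (ρ / (2 * ((n:ℝ) + 1)) * sg (δ X)) = ρ / 2 * sg (δ X) := by field_simp
    linarith
  -- the choice of the grid point
  have grid : ∀ α0 : ℝ, 1 / ((n:ℝ) + 1) ≤ α0 → α0 ≤ n → ∃ j : ℕ, j ≠ 0 ∧ j ∈ range (L + 1) ∧ α0 ≤ (j:ℝ) * (ρ / 2) ∧
      (j:ℝ) * (ρ / 2) < α0 + ρ / 2 := by
    intro α0 h1 h2
    obtain ⟨j, hjd⟩ : ∃ j : ℕ, j = ⌈α0 / (ρ / 2)⌉₊ := ⟨_, rfl⟩
    have hα00 : 0 < α0 := lt_of_lt_of_le (by positivity) h1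
    have hr2 : 0 < ρ / 2 := by positivity
    have hj1 : α0 / (ρ / 2) ≤ j := by rw [hjd]; exact Nat.le_ceil _
    have hj2 : (j:ℝ) < α0 / (ρ / 2) + 1 := by rw [hjd]; exact Nat.ceil_lt_add_one (by positivity)
    have hj0 : j ≠ 0 := by
      rintro rfl
      have : 0 < α0 / (ρ / 2) := by positivity
      push_cast at hj1
      linarith
    have hjL : j ∈ range (L + 1) := by
      rw [mem_range, Nat.lt_succ_iff, hjd, hL]
      exact Nat.ceil_mono (div_le_div_of_nonneg_right h2 hr2.le)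
    rw [div_le_iff₀ hr2] at hj1
    have hj3 : (j:ℝ) * (ρ / 2) < α0 + ρ / 2 := by
      have := mul_lt_mul_of_pos_right hj2 hr2
      rwa [add_mul, div_mul_cancel₀ _ hr2.ne', one_mul] at this
    exact ⟨j, hj0, hjL, hj1, hj3⟩
  have rng : ∀ h k : ℕ, h ≠ 0 → k ≠ 0 → h * k ≤ n + 1 → h ∈ range (n + 2) ∧ k ∈ range (n + 2) := by
    intro h k hh hk hhk
    have hh1 : 1 ≤ h := Nat.pos_of_ne_zero hh
    have hk1 : 1 ≤ k := Nat.pos_of_ne_zero hk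
    constructor
    · rw [mem_range]
      have : h * 1 ≤ h * k := Nat.mul_le_mul_left h hk1
      omega
    · rw [mem_range]
      have : 1 * k ≤ h * k := Nat.mul_le_mul_right k hh1
      omega
  have near : ∀ (α0 α : ℝ) (j : ℕ), 1 / ((n:ℝ) + 1) ≤ α0 → α0 ≤ n → |α - α0| ≤ (n + 1) / sg (δ X) → α0 ≤ (j:ℝ) * (ρ / 2) →
      (j:ℝ) * (ρ / 2) < α0 + ρ / 2 → 0 < α ∧ α ≤ ((n + 1 : ℕ) : ℝ) ∧ |α - j * (ρ / 2)| ≤ ρ := by
    intro α0 α j h1 h2 hα hj1 hj3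
    have ha := abs_le.mp (hα.trans hsρ)
    have hρn2 : ρ / 2 ≤ 1 / ((n:ℝ) + 1) / 2 := by linarith
    have hp1 : 0 < 1 / ((n:ℝ) + 1) := by positivity
    have hp2 : 1 / ((n:ℝ) + 1) ≤ 1 := by rw [div_le_one hn0]; exact hn1
    refine ⟨by linarith only [ha.1, h1, hρn2, hp1], by push_cast; linarith only [ha.2, h2, hρn2, hp2], ?_⟩
    rw [abs_le]; constructor <;> linarith only [ha.1, ha.2, hj1, hj3]
  refine ⟨Set.Ioc w X ∩ G, ⟨⟨hUm, hUX, ?_⟩, ?_, ?_⟩, ?_⟩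
  · have h1 : Set.Icc 0 X \ (Set.Ioc w X ∩ G) ⊆ Set.Icc 0 w ∪ (Set.Ioc w X \ G) := by
      intro t ht
      by_cases h2 : t ≤ w
      · exact Or.inl ⟨ht.1.1, h2⟩
      · exact Or.inr ⟨⟨not_le.mp h2, ht.1.2⟩, fun h3 => ht.2 ⟨⟨not_le.mp h2, ht.1.2⟩, h3⟩⟩
    have h2 : volume.real (Set.Icc 0 w ∪ (Set.Ioc w X \ G)) ≤ w + ε * (2 * X) := by
      refine (measureReal_union_le _ _).trans (add_le_add ?_ hvol)
      rw [Real.volume_real_Icc_of_le hw0, sub_zero]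
    have h3 : volume.real (Set.Icc 0 X \ (Set.Ioc w X ∩ G)) ≤ volume.real (Set.Icc 0 w ∪ (Set.Ioc w X \ G)) :=
      measureReal_mono h1 (by
        refine ((measure_union_le _ _).trans_lt ?_).ne
        refine ENNReal.add_lt_top.mpr ⟨by simp, (measure_mono Set.sdiff_subset).trans_lt (by simp)⟩)
    refine h3.trans (h2.trans ?_)
    rw [le_div_iff₀ hn0]
    have h4 : w + ε * (2 * X) ≤ 4 * ε * X := by linarith
    calc (w + ε * (2 * X)) * (n + 1) ≤ 4 * ε * X * (n + 1) := mul_le_mul_of_nonneg_right h4 hn0.le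
      _ = (4 / 600) * X * (ε * (600 * ((n:ℝ) + 1))) := by ring
      _ ≤ X := by rw [hεn]; linarith
  · intro α hα hα1
    have hD := DD_ge_one hα t6
    refine (hmass α hα (by push_cast; exact hα1)).trans (mul_le_mul_of_nonneg_right ?_ (by positivity))
    rw [le_div_iff₀ hn0]
    nlinarith
  · intro h k hh hk hc hhk α0 h1 h2
    obtain ⟨j, hj0, hjL, hj1, hj3⟩ := grid α0 h1 h2
    obtain ⟨hhr, hkr⟩ := rng h k hh hk hhk
    have hq := t1 j hjL h hhr k hkr hj0 hh hk hc hhk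
    rw [hQ] at hq
    obtain ⟨V, B, hB, hV, hest⟩ := hq J hJ
    refine ⟨j * (ρ / 2), V, B, ?_, hB, hV, fun α hα => ?_⟩
    · rw [abs_le]; constructor <;> linarith
    · obtain ⟨n1, n2, n3⟩ := near α0 α j h1 h2 hα hj1 hj3
      obtain ⟨a1, a2⟩ := hest α n1 n2 n3
      have hY : 0 ≤ X * (B * Real.exp (α ^ 2 * V)) := by positivity
      rw [← hεd]
      refine ⟨a1.trans (mul_le_mul_of_nonneg_right (by linarith) hY), a2.trans (mul_le_mul_of_nonneg_right ?_ hY)⟩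
      exact mul_le_mul_of_nonneg_right (by linarith) (by positivity)
  · intro h k hh hk hc hhk α0 h1 h2 mm hm0 hmn α hα
    obtain ⟨j, hj0, hjL, hj1, hj3⟩ := grid α0 h1 h2
    obtain ⟨hhr, hkr⟩ := rng h k hh hk hhk
    obtain ⟨n1, n2, n3⟩ := near α0 α j h1 h2 hα hj1 hj3
    have hmI : mm ∈ Finset.Icc (-((n:ℤ) + 1)) ((n:ℤ) + 1) := by
      rw [Finset.mem_Icc]
      have := abs_le.mp hmn
      constructor
      · have h3 : ((-((n:ℤ) + 1) : ℤ) : ℝ) ≤ (mm:ℝ) := by push_cast; exact this.1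
        exact_mod_cast h3
      · have h3 : (mm:ℝ) ≤ (((n:ℤ) + 1 : ℤ) : ℝ) := by push_cast; exact this.2
        exact_mod_cast h3
    have hq := t1p j hjL h hhr k hkr mm hmI hj0 hh hk hc hhk hm0
    rw [hQp] at hq
    have hest := hq J hJ α n1 n2 n3
    refine hest.trans (mul_le_mul_of_nonneg_right ?_ ?_)
    · rw [le_div_iff₀ hn0]
      nlinarith
    · exact integral_nonneg fun _ => Real.rpow_nonneg (zn_nonneg _ _) _

/-- the sets along a path -/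
theorem path_U' {δ : ℝ → ℝ} (hδ0 : Tendsto δ atTop (𝓝 0)) (hδL : Tendsto (fun T => δ T * Real.log T) atTop atTop) :
    ∃ (U : ℝ → Set ℝ) (N : ℝ → ℕ), Tendsto N atTop atTop ∧ (∀ T, MeasurableSet (U T)) ∧
      (∀ᶠ T in atTop, Stg (N T) T (δ T) (U T)) ∧ ∀ᶠ T in atTop, StP (N T) (δ T) (U T) := by
  have h : ∀ n : ℕ, ∀ᶠ T in atTop, ∃ U : {U : Set ℝ // MeasurableSet U}, Stg n T (δ T) (U : Set ℝ) ∧ StP n (δ T) (U : Set ℝ) := by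
    intro n
    filter_upwards [stage' hδ0 hδL n] with T hT
    obtain ⟨U, hU, hU'⟩ := hT
    exact ⟨⟨U, hU.1.1⟩, hU, hU'⟩
  have : Nonempty {U : Set ℝ // MeasurableSet U} := ⟨⟨∅, MeasurableSet.empty⟩⟩
  obtain ⟨U, N, hN, hU⟩ := diag h
  exact ⟨fun T => U T, N, hN, fun T => (U T).2, hU.mono fun T h => h.1, hU.mono fun T h => h.2⟩

end Pool.Agent.Run7.h290.PH
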