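import Pool.Agent.Run7.h290.PH.E
import Pool.Agent.Y753.NL.All6

set_option autoImplicit false

/-! The powers of the phase average to zero under the tilted measures. -/

namespace Pool.Agent.Run7.h290.PH

open Finset Filter MeasureTheory MonoidAlgebra Topology ProbabilityTheory
open Pool.Agent.Y755
open Pool.Agent.Y753.NL
open Pool.Agent.W184.NZ
open Pool.Agent.W184 (zn zn_nonneg zn_cont zn_le')
open Pool.Agent.H306R2 (aF)

/-- zeta at the point `1/2 + δ + it` -/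
noncomputable def zs (δ t : ℝ) : ℂ := riemannZeta (1 / 2 + δ + t * Complex.I)

/-- the phase -/
noncomputable def phs (δ t : ℝ) : ℂ := zs δ t / (‖zs δ t‖ : ℂ)

lemma zn_zs (δ t : ℝ) : zn (1 / 2 + δ) t = ‖zs δ t‖ := by
  unfold zn zs; rw [s_eq]

lemma zs_meas {δ : ℝ} (hδ : δ < 1 / 2) : Measurable (zs δ) := by
  have h1 := zeta_cont (σ := 1 / 2 + δ) (by linarith)
  have hc : Continuous (zs δ) := by
    unfold zs
    refine h1.congr fun t => ?_
    rw [s_eq]
  exact hc.measurable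

lemma phs_meas {δ : ℝ} (hδ : δ < 1 / 2) : Measurable (phs δ) := by
  unfold phs
  exact (zs_meas hδ).div (Complex.measurable_ofReal.comp (zs_meas hδ).norm)

lemma phs_norm {δ t : ℝ} (h : zs δ t ≠ 0) : ‖phs δ t‖ = 1 := phase_norm h

/-- the powers of the phase times the twist -/
noncomputable def wt (m : ℤ) (h k : ℕ) (δ t : ℝ) : ℂ := phs δ t ^ m * tw h k t

lemma zpow_meas {f : ℝ → ℂ} (hf : Measurable f) (m : ℤ) : Measurable fun t => f t ^ m := by
  rcases m with n | n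
  · simp only [Int.ofNat_eq_natCast, zpow_natCast]
    exact hf.pow_const n
  · simp only [zpow_negSucc]
    exact (hf.pow_const (n + 1)).inv

lemma wt_meas {δ : ℝ} (hδ : δ < 1 / 2) (m : ℤ) (h k : ℕ) : Measurable (wt m h k δ) := by
  unfold wt
  exact (zpow_meas (phs_meas hδ) m).mul (tw_cont h k).measurable

lemma wt_norm (m : ℤ) (h k : ℕ) (δ t : ℝ) : ‖wt m h k δ t‖ ≤ 1 := by
  unfold wt
  rw [norm_mul, tw_norm, mul_one, norm_zpow]
  by_cases hz : zs δ t = 0
  · have : phs δ t = 0 := by unfold phs; rw [hz, zero_div]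
    rw [this, norm_zero]
    rcases eq_or_ne m 0 with h0 | h0
    · rw [h0, zpow_zero]
    · rw [zero_zpow m h0]; norm_num
  · rw [phs_norm hz, one_zpow]

lemma Ph_wt (α : ℝ) (m : ℤ) (h k : ℕ) (δ t : ℝ) :
    Ph α m (riemannZeta (1 / 2 + δ + t * Complex.I)) * tw h k t =
      ((zn (1 / 2 + δ) t ^ (2 * α) : ℝ) : ℂ) * wt m h k δ t := by
  rw [zn_zs]
  unfold Ph wt phs zs
  ring

section

variable {δ : ℝ → ℝ} (hδ0 : Tendsto δ atTop (𝓝 0)) (hδL : Tendsto (fun T => δ T * Real.log T) atTop atTop)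
  {U : ℝ → Set ℝ} {N : ℝ → ℕ} (hN : Tendsto N atTop atTop) (hU : ∀ᶠ T in atTop, Stg (N T) T (δ T) (U T))
  (hP : ∀ᶠ T in atTop, StP (N T) (δ T) (U T))

include hδ0 hδL hN hU hP in
/-- the ratios with phases -/
theorem ph_ratio {α0 : ℝ} (h0 : 0 < α0) {h k : ℕ} (hh : h ≠ 0) (hk : k ≠ 0) (hc : h.Coprime k) {m : ℤ} (hm : m ≠ 0) (s : ℝ) :
    Tendsto (fun T => (∫ t in U T, ((zn (1 / 2 + δ T) t ^ (2 * (α0 + s / (2 * sg (δ T)))) : ℝ) : ℂ) * wt m h k (δ T) t) *
      ((Real.exp (-(s * α0 * ell (δ T) / sg (δ T))) : ℝ) : ℂ) /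
      ((∫ t in U T, zn (1 / 2 + δ T) t ^ (2 * α0) : ℝ) : ℂ)) atTop (𝓝 0) := by
  have hpos : ∀ᶠ T in atTop, 0 < δ T := by
    filter_upwards [hδL.eventually_gt_atTop 0, eventually_gt_atTop 1] with T hT hT1
    exact (pos_iff_pos_of_mul_pos hT).mpr (Real.log_pos hT1)
  have hsg := sg_tendsto hpos hδ0
  have hi := inv_N hN
  have hR1 := (ratio_U hδ0 hδL hN hU h0 one_ne_zero one_ne_zero (Nat.coprime_one_left 1) s).norm
  have h1 := hi.mul hR1
  rw [zero_mul] at h1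
  rw [tendsto_zero_iff_norm_tendsto_zero]
  refine squeeze_zero' (Eventually.of_forall fun T => norm_nonneg _) ?_ h1
  obtain ⟨n0, hn0⟩ := exists_nat_ge (max (max (max (1 / α0) α0) (max ((h * k : ℕ) : ℝ) |s|)) |(m:ℝ)|)
  filter_upwards [hP, hN.eventually_ge_atTop n0, hsg.eventually_gt_atTop 0] with T t1 t2 t3
  have hNr : (n0:ℝ) ≤ N T := by exact_mod_cast t2
  have hm0 := (le_max_left _ _).trans (hn0.trans hNr)
  have hm1 : 1 / α0 ≤ N T := ((le_max_left _ _).trans (le_max_left _ _)).trans hm0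
  have hm2 : α0 ≤ N T := ((le_max_right _ _).trans (le_max_left _ _)).trans hm0
  have hm3 : ((h * k : ℕ) : ℝ) ≤ N T := ((le_max_left _ _).trans (le_max_right _ _)).trans hm0
  have hm4 : |s| ≤ N T := ((le_max_right _ _).trans (le_max_right _ _)).trans hm0
  have hm5 : |(m:ℝ)| ≤ N T := (le_max_right _ _).trans (hn0.trans hNr)
  have hm3' : h * k ≤ N T + 1 := by
    have : h * k ≤ N T := by exact_mod_cast hm3
    omega
  have hNp : (0:ℝ) < (N T : ℝ) + 1 := by positivity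
  have g1 := t1 h k hh hk hc hm3' α0 (by
    rw [div_le_iff₀ hNp]
    rw [div_le_iff₀ h0] at hm1
    nlinarith) hm2 m hm (by linarith) (α0 + s / (2 * sg (δ T))) (by
    rw [add_sub_cancel_left, abs_div, abs_of_pos (by linarith : 0 < 2 * sg (δ T))]
    refine (div_le_div_of_nonneg_left (abs_nonneg s) t3 (by linarith)).trans ?_
    exact div_le_div_of_nonneg_right (by linarith) t3.le)
  simp_rw [Ph_wt] at g1
  simp_rw [tw_one, mul_one]
  obtain ⟨A, hA⟩ : ∃ A : ℝ, A = ∫ t in U T, zn (1 / 2 + δ T) t ^ (2 * (α0 + s / (2 * sg (δ T)))) := ⟨_, rfl⟩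
  have e1 : ∫ t in U T, ((zn (1 / 2 + δ T) t ^ (2 * (α0 + s / (2 * sg (δ T)))) : ℝ) : ℂ) = (A : ℂ) := by
    rw [hA]; exact integral_ofReal
  have hA0 : 0 ≤ A := by rw [hA]; exact integral_nonneg fun _ => Real.rpow_nonneg (zn_nonneg _ _) _
  rw [e1]
  rw [← hA] at g1
  rw [norm_div, norm_div, norm_mul, norm_mul, ← mul_div_assoc, ← mul_assoc]
  refine div_le_div_of_nonneg_right (mul_le_mul_of_nonneg_right ?_ (norm_nonneg _)) (norm_nonneg _)
  rw [Complex.norm_real, Real.norm_of_nonneg hA0]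
  exact g1

lemma wsplit3 {f : ℝ → ℝ} {w : ℝ → ℂ} {u : ℂ} {m : Measure ℝ} (hw : Measurable w) (hw1 : ∀ t, ‖w t‖ ≤ 1) (hf : Integrable f m) :
    ∫ t, f t * (2 + (u * w t).re) ∂m = 2 * (∫ t, f t ∂m) + (u * ∫ t, ((f t : ℝ) : ℂ) * w t ∂m).re := by
  have h1 : Integrable (fun t => ((f t : ℝ) : ℂ) * w t) m := by
    have h0 : Integrable (fun t => ((f t : ℝ) : ℂ)) m := hf.ofReal
    exact h0.mul_bdd (c := 1) hw.aestronglyMeasurable (Eventually.of_forall hw1)
  have h2 := h1.const_mul u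
  have h3 : (∫ t, u * (((f t : ℝ) : ℂ) * w t) ∂m).re = ∫ t, (u * (((f t : ℝ) : ℂ) * w t)).re ∂m :=
    (integral_re h2).symm
  rw [integral_const_mul] at h3
  have h4 : Integrable (fun t => (u * (((f t : ℝ) : ℂ) * w t)).re) m := h2.re
  rw [← integral_const_mul, h3, ← integral_add (hf.const_mul 2) h4]
  refine integral_congr_ae (Eventually.of_forall fun t => ?_)
  show f t * (2 + (u * w t).re) = 2 * f t + (u * (((f t : ℝ) : ℂ) * w t)).re
  have e1 : u * (((f t : ℝ) : ℂ) * w t) = ((f t : ℝ) : ℂ) * (u * w t) := by ring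
  rw [e1, Complex.re_ofReal_mul]
  ring

lemma w_pos' {w : ℂ} {u : ℂ} (hu : ‖u‖ ≤ 1) (hw : ‖w‖ ≤ 1) : 0 ≤ 2 + (u * w).re ∧ 2 + (u * w).re ≤ 3 := by
  have h1 : |(u * w).re| ≤ 1 := by
    refine (Complex.abs_re_le_norm _).trans ?_
    rw [norm_mul]
    calc ‖u‖ * ‖w‖ ≤ 1 * 1 := mul_le_mul hu hw (norm_nonneg _) zero_le_one
      _ = 1 := one_mul 1
  have := abs_le.mp h1
  constructor <;> linarith

include hδ0 hδL hN hU hP in
/-- the limit theorem with phases -/
theorem tilt_ph {α0 : ℝ} (h0 : 0 < α0) {h k : ℕ} (hh : h ≠ 0) (hk : k ≠ 0) (hc : h.Coprime k) {m : ℤ} (hm : m ≠ 0)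
    (F : BoundedContinuousFunction ℝ ℝ) :
    Tendsto (fun T => (∫ t in U T, ((zn (1 / 2 + δ T) t ^ (2 * α0) *
        F ((Real.log (zn (1 / 2 + δ T) t) - α0 * ell (δ T)) / sg (δ T)) : ℝ) : ℂ) * wt m h k (δ T) t) /
      ((∫ t in U T, zn (1 / 2 + δ T) t ^ (2 * α0) : ℝ) : ℂ)) atTop (𝓝 0) := by
  have hpos : ∀ᶠ T in atTop, 0 < δ T := by
    filter_upwards [hδL.eventually_gt_atTop 0, eventually_gt_atTop 1] with T hT hT1
    exact (pos_iff_pos_of_mul_pos hT).mpr (Real.log_pos hT1)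
  have hlt : ∀ᶠ T in atTop, 1 / 2 + δ T < 1 := by
    filter_upwards [hδ0.eventually (gt_mem_nhds (show (0:ℝ) < 1 / 2 by norm_num))] with T hT
    linarith
  have hUs : ∀ᶠ T in atTop, U T ⊆ Set.Icc 0 T := hU.mono fun T hT => hT.1.2.1
  have hsg := sg_tendsto hpos hδ0
  have hα : ∀ s : ℝ, ∀ᶠ T in atTop, 0 < α0 + s / (2 * sg (δ T)) := by
    intro s
    have h1 : Tendsto (fun T => α0 + s / (2 * sg (δ T))) atTop (𝓝 (α0 + 0)) :=
      tendsto_const_nhds.add (tendsto_const_nhds.div_atTop (hsg.const_mul_atTop (by norm_num)))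
    rw [add_zero] at h1
    exact h1.eventually (lt_mem_nhds h0)
  obtain ⟨I0, hI0⟩ : ∃ I0 : ℝ → ℝ, ∀ T, I0 T = ∫ t in U T, zn (1 / 2 + δ T) t ^ (2 * α0) := ⟨_, fun _ => rfl⟩
  simp_rw [← hI0]
  -- the two ratios
  have hR2 := fun s => ph_ratio hδ0 hδL hN hU hP h0 hh hk hc hm s
  have hR1 := fun s => ratio_U hδ0 hδL hN hU h0 one_ne_zero one_ne_zero (Nat.coprime_one_left 1) s
  simp_rw [← hI0] at hR2
  simp_rw [← hI0, tw_one, Nu_one, mul_one] at hR1
  have hI0n : ∀ T, 0 ≤ I0 T := by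
    intro T
    rw [hI0]
    exact integral_nonneg fun _ => Real.rpow_nonneg (zn_nonneg _ _) _
  -- the weighted limits
  have key : ∀ u : ℂ, ‖u‖ ≤ 1 → Tendsto (fun T : ℝ => ∫ t in U T,
      (zn (1 / 2 + δ T) t ^ (2 * α0) * (2 + (u * wt m h k (δ T) t).re) / I0 T) *
        F ((Real.log (zn (1 / 2 + δ T) t) - α0 * ell (δ T)) / sg (δ T))) atTop
      (𝓝 (2 * ∫ x, F x ∂(gaussianReal 0 1))) := by
    intro u hu
    have hid : ∀ s : ℝ, ∀ᶠ T in atTop, ∀ t : ℝ, (zn (1 / 2 + δ T) t ^ (2 * α0) * (2 + (u * wt m h k (δ T) t).re) / I0 T) *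
        Real.exp (s * ((Real.log (zn (1 / 2 + δ T) t) - α0 * ell (δ T)) / sg (δ T))) =
        (zn (1 / 2 + δ T) t ^ (2 * (α0 + s / (2 * sg (δ T)))) * (2 + (u * wt m h k (δ T) t).re)) *
          (Real.exp (-(s * α0 * ell (δ T) / sg (δ T))) / I0 T) := by
      intro s
      filter_upwards [hα s] with T g1 t
      have g2 := tilt_id (l := ell (δ T)) (zn_nonneg (1 / 2 + δ T) t) h0 g1
      calc _ = (zn (1 / 2 + δ T) t ^ (2 * α0) *
            Real.exp (s * ((Real.log (zn (1 / 2 + δ T) t) - α0 * ell (δ T)) / sg (δ T)))) *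
            (2 + (u * wt m h k (δ T) t).re) / I0 T := by ring
        _ = _ := by rw [g2]; ring
    have hwm : ∀ {T : ℝ}, 1 / 2 + δ T < 1 → Measurable fun t => 2 + (u * wt m h k (δ T) t).re := fun {T} hT =>
      measurable_const.add (Complex.measurable_re.comp ((wt_meas (by linarith) m h k).const_mul u))
    refine clt2 (p := fun T t => zn (1 / 2 + δ T) t ^ (2 * α0) * (2 + (u * wt m h k (δ T) t).re) / I0 T)
      (Y := fun T t => (Real.log (zn (1 / 2 + δ T) t) - α0 * ell (δ T)) / sg (δ T))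
      (ms := fun T => volume.restrict (U T)) ?_ ?_ ?_ two_pos ?_ F
    · filter_upwards [hlt] with T g2
      refine ⟨((znp_cont g2 (by positivity)).measurable.mul (hwm g2)).div_const _, fun t => div_nonneg (mul_nonneg
        (Real.rpow_nonneg (zn_nonneg _ _) _) (w_pos' hu (wt_norm _ _ _ _ _)).1) (hI0n T)⟩
    · filter_upwards [hlt] with T g2
      have hz : Continuous fun t => zn (1 / 2 + δ T) t := by
        have := znp_cont (σ := 1 / 2 + δ T) (p := 1) g2 zero_le_one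
        simpa using this
      exact ((Real.measurable_log.comp hz.measurable).sub_const _).div_const _
    · intro s
      filter_upwards [hid s, hα s, hlt, hUs] with T g1 g2 g3 g4
      have e1 : (fun t => zn (1 / 2 + δ T) t ^ (2 * α0) * (2 + (u * wt m h k (δ T) t).re) / I0 T *
          Real.exp (s * ((Real.log (zn (1 / 2 + δ T) t) - α0 * ell (δ T)) / sg (δ T)))) =
          fun t => (zn (1 / 2 + δ T) t ^ (2 * (α0 + s / (2 * sg (δ T)))) * (2 + (u * wt m h k (δ T) t).re)) *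
          (Real.exp (-(s * α0 * ell (δ T) / sg (δ T))) / I0 T) := funext g1
      rw [e1]
      refine Integrable.mul_const ?_ _
      refine (int_U (znp_cont g3 (by positivity)) g4).mul_bdd (c := 3) (hwm g3).aestronglyMeasurable
        (Eventually.of_forall fun t => ?_)
      obtain ⟨a1, a2⟩ := w_pos' hu (wt_norm m h k (δ T) t)
      rw [Real.norm_of_nonneg a1]
      exact a2
    · intro s
      have a1 := (Complex.continuous_re.tendsto _).comp (hR1 s)
      have a2 := (Complex.continuous_re.tendsto _).comp ((hR2 s).const_mul u)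
      have a3 := (a1.const_mul 2).add a2
      have e2 : 2 * (((Real.exp (s ^ 2 / 2) : ℝ) : ℂ)).re + (u * (0:ℂ)).re = 2 * Real.exp (s ^ 2 / 2) := by
        rw [Complex.ofReal_re, mul_zero, Complex.zero_re, add_zero]
      rw [e2] at a3
      refine a3.congr' ?_
      filter_upwards [hid s, hα s, hlt, hUs] with T g1 g2 g3 g4
      have hf : Integrable (fun t => zn (1 / 2 + δ T) t ^ (2 * (α0 + s / (2 * sg (δ T))))) (volume.restrict (U T)) :=
        int_U (znp_cont g3 (by positivity)) g4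
      simp_rw [g1]
      rw [integral_mul_const, wsplit3 (wt_meas (by linarith) m h k) (fun t => wt_norm m h k (δ T) t) hf]
      simp only [Function.comp]
      set A := ∫ t in U T, zn (1 / 2 + δ T) t ^ (2 * (α0 + s / (2 * sg (δ T)))) with hA
      set D := ∫ t in U T, ((zn (1 / 2 + δ T) t ^ (2 * (α0 + s / (2 * sg (δ T)))) : ℝ) : ℂ) * wt m h k (δ T) t with hD
      set E := Real.exp (-(s * α0 * ell (δ T) / sg (δ T))) with hE
      have e3 : ∫ t in U T, ((zn (1 / 2 + δ T) t ^ (2 * (α0 + s / (2 * sg (δ T)))) : ℝ) : ℂ) = (A : ℂ) :=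
        integral_ofReal
      rw [e3]
      have e4 : ((A:ℂ) * (E:ℂ) / (I0 T : ℂ)).re = A * E / I0 T := by
        rw [← Complex.ofReal_mul, ← Complex.ofReal_div, Complex.ofReal_re]
      have e5 : (u * (D * (E:ℂ) / (I0 T : ℂ))).re = (u * D).re * (E / I0 T) := by
        have : u * (D * (E:ℂ) / (I0 T : ℂ)) = u * D * ((E / I0 T : ℝ) : ℂ) := by push_cast; ring
        rw [this, Complex.re_mul_ofReal]
      rw [e4, e5]
      ring
  -- conclusion
  obtain ⟨μ, hμ⟩ : ∃ μ : ℝ, μ = ∫ x, F x ∂(gaussianReal 0 1) := ⟨_, rfl⟩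
  simp_rw [← hμ] at key
  obtain ⟨G, hG⟩ : ∃ G : ℝ → ℝ, ∀ T, G T = (∫ t in U T, zn (1 / 2 + δ T) t ^ (2 * α0) *
      F ((Real.log (zn (1 / 2 + δ T) t) - α0 * ell (δ T)) / sg (δ T))) / I0 T := ⟨_, fun _ => rfl⟩
  obtain ⟨H, hH⟩ : ∃ H : ℝ → ℂ, ∀ T, H T = (∫ t in U T, ((zn (1 / 2 + δ T) t ^ (2 * α0) *
      F ((Real.log (zn (1 / 2 + δ T) t) - α0 * ell (δ T)) / sg (δ T)) : ℝ) : ℂ) * wt m h k (δ T) t) / (I0 T : ℂ) :=
    ⟨_, fun _ => rfl⟩
  simp_rw [← hH]
  have key2 : ∀ u : ℂ, ‖u‖ ≤ 1 → Tendsto (fun T : ℝ => 2 * G T + (u * H T).re) atTop (𝓝 (2 * μ)) := by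
    intro u hu
    refine (key u hu).congr' ?_
    filter_upwards [hlt, hUs] with T g1 g4
    have hf := FY_U (l := ell (δ T)) (σ := sg (δ T)) g4 g1 h0.le F
    have g2 := wsplit3 (u := u) (wt_meas (show δ T < 1 / 2 by linarith) m h k) (fun t => wt_norm m h k (δ T) t) hf
    rw [hG, hH]
    have e1 : u * ((∫ t in U T, ((zn (1 / 2 + δ T) t ^ (2 * α0) *
      F ((Real.log (zn (1 / 2 + δ T) t) - α0 * ell (δ T)) / sg (δ T)) : ℝ) : ℂ) * wt m h k (δ T) t) / (I0 T : ℂ)) =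
      (u * (∫ t in U T, ((zn (1 / 2 + δ T) t ^ (2 * α0) *
      F ((Real.log (zn (1 / 2 + δ T) t) - α0 * ell (δ T)) / sg (δ T)) : ℝ) : ℂ) * wt m h k (δ T) t)) * (((I0 T)⁻¹ : ℝ) : ℂ) := by
      rw [Complex.ofReal_inv]; ring
    rw [e1, Complex.re_mul_ofReal, ← div_eq_mul_inv, mul_div_assoc', ← add_div, ← g2, ← integral_div]
    refine integral_congr_ae (Eventually.of_forall fun t => ?_)
    show zn (1 / 2 + δ T) t ^ (2 * α0) * (2 + (u * wt m h k (δ T) t).re) / I0 T * F _ =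
      zn (1 / 2 + δ T) t ^ (2 * α0) * F _ * (2 + (u * wt m h k (δ T) t).re) / I0 T
    ring
  have k0 := key2 0 (by simp)
  have k1 := key2 1 (by simp)
  have k2 := key2 (-Complex.I) (by simp)
  simp only [zero_mul, Complex.zero_re, add_zero] at k0
  simp only [one_mul] at k1
  have r1 : Tendsto (fun T => (H T).re) atTop (𝓝 0) := by
    have := k1.sub k0
    rw [sub_self] at this
    refine this.congr fun T => ?_
    ring
  have r2 : Tendsto (fun T => (H T).im) atTop (𝓝 0) := by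
    have := k2.sub k0
    rw [sub_self] at this
    refine this.congr fun T => ?_
    simp
  have r3 := ((Complex.continuous_ofReal.tendsto _).comp r1).add
    (((Complex.continuous_ofReal.tendsto _).comp r2).mul_const Complex.I)
  simp only [Complex.ofReal_zero, zero_mul, add_zero] at r3
  refine r3.congr fun T => ?_
  simp only [Function.comp]
  exact Complex.re_add_im (H T)

include hδ0 hδL hN hU hP in
/-- the limit theorem with phases, with the mass -/
theorem ph_mass {α0 : ℝ} (h0 : 0 < α0) {h k : ℕ} (hh : h ≠ 0) (hk : k ≠ 0) (hc : h.Coprime k) {m : ℤ} (hm : m ≠ 0)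
    (F : BoundedContinuousFunction ℝ ℝ) :
    Tendsto (fun T => (((2 * δ T) ^ (α0 ^ 2) / T : ℝ) : ℂ) * ∫ t in U T, ((zn (1 / 2 + δ T) t ^ (2 * α0) *
        F ((Real.log (zn (1 / 2 + δ T) t) - α0 * ell (δ T)) / sg (δ T)) : ℝ) : ℂ) * wt m h k (δ T) t) atTop (𝓝 0) := by
  have h1 := tilt_ph hδ0 hδL hN hU hP h0 hh hk hc hm F
  have h2 := (Complex.continuous_ofReal.tendsto _).comp (mass_U hδ0 hδL hN hU h0)
  have h3 := h2.mul h1
  rw [mul_zero] at h3
  refine h3.congr' ?_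
  have hne := (mass_U hδ0 hδL hN hU h0).eventually (lt_mem_nhds (Pool.Agent.H306R2.aF_pos h0))
  filter_upwards [hne] with T hT
  have hI : (∫ t in U T, zn (1 / 2 + δ T) t ^ (2 * α0)) ≠ 0 := by
    intro h4
    rw [h4] at hT
    simp at hT
  have hI' : ((∫ t in U T, zn (1 / 2 + δ T) t ^ (2 * α0) : ℝ) : ℂ) ≠ 0 := by exact_mod_cast hI
  simp only [Function.comp]
  set A := ∫ t in U T, zn (1 / 2 + δ T) t ^ (2 * α0)
  push_cast
  field_simp

end

end Pool.Agent.Run7.h290.PH
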