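import Mathlib

set_option autoImplicit false

/-! Joint laws of a real and a circle valued function: from powers to all test functions. -/

namespace Pool.Agent.Run7.h290.PH

open MeasureTheory Filter Topology ProbabilityTheory

/-- the clamp -/
noncomputable def cR (R x : ℝ) : ℝ := max (-R) (min R x)

lemma cR_cont (R : ℝ) : Continuous (cR R) := continuous_const.max (continuous_const.min continuous_id)

lemma cR_abs {R : ℝ} (hR : 0 ≤ R) (x : ℝ) : |cR R x| ≤ R := by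
  unfold cR
  rw [abs_le]
  exact ⟨le_max_left _ _, max_le (by linarith) (min_le_left _ _)⟩

lemma cR_eq {R x : ℝ} (hx : |x| ≤ R) : cR R x = x := by
  obtain ⟨h1, h2⟩ := abs_le.mp hx
  unfold cR
  rw [min_eq_right h2, max_eq_right h1]

/-- monomials -/
noncomputable def mo (R : ℝ) (a b c : ℕ) (q : ℝ × ℂ) : ℂ := ((cR R q.1 : ℝ) : ℂ) ^ a * (q.2 ^ b * (starRingEnd ℂ q.2) ^ c)

/-- their span -/
noncomputable def MO (R : ℝ) : Submodule ℂ (ℝ × ℂ → ℂ) := Submodule.span ℂ {f | ∃ a b c, f = mo R a b c}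

lemma mo_mem (R : ℝ) (a b c : ℕ) : mo R a b c ∈ MO R := Submodule.subset_span ⟨a, b, c, rfl⟩

lemma mo_cont (R : ℝ) (a b c : ℕ) : Continuous (mo R a b c) := by
  unfold mo
  have h1 : Continuous fun q : ℝ × ℂ => ((cR R q.1 : ℝ) : ℂ) := Complex.continuous_ofReal.comp ((cR_cont R).comp continuous_fst)
  have h2 : Continuous fun q : ℝ × ℂ => starRingEnd ℂ q.2 := Complex.continuous_conj.comp continuous_snd
  exact (h1.pow a).mul ((continuous_snd.pow b).mul (h2.pow c))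

lemma mo_mul (R : ℝ) (a b c a' b' c' : ℕ) : mo R a b c * mo R a' b' c' = mo R (a + a') (b + b') (c + c') := by
  funext q
  simp only [Pi.mul_apply, mo]
  ring

lemma MO_mul {R : ℝ} {f g : ℝ × ℂ → ℂ} (hf : f ∈ MO R) (hg : g ∈ MO R) : f * g ∈ MO R := by
  have h1 : f * g ∈ MO R * MO R := Submodule.mul_mem_mul hf hg
  have h2 : MO R * MO R ≤ MO R := by
    unfold MO
    rw [Submodule.span_mul_span]
    refine Submodule.span_mono ?_
    rintro _ ⟨x, ⟨a, b, c, rfl⟩, y, ⟨a', b', c', rfl⟩, rfl⟩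
    exact ⟨a + a', b + b', c + c', mo_mul R a b c a' b' c'⟩
  exact h2 h1

lemma MO_star {R : ℝ} {f : ℝ × ℂ → ℂ} (hf : f ∈ MO R) : (fun q => starRingEnd ℂ (f q)) ∈ MO R := by
  unfold MO at hf
  induction hf using Submodule.span_induction with
  | mem x hx =>
    obtain ⟨a, b, c, rfl⟩ := hx
    have e : (fun q => starRingEnd ℂ (mo R a b c q)) = mo R a c b := by
      funext q
      simp only [mo, map_mul, map_pow, Complex.conj_ofReal, Complex.conj_conj]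
      ring
    rw [e]
    exact mo_mem _ _ _ _
  | zero =>
    have e : (fun q : ℝ × ℂ => starRingEnd ℂ ((0 : ℝ × ℂ → ℂ) q)) = 0 := by
      funext q; simp
    rw [e]
    exact (MO R).zero_mem
  | add x y _ _ hx hy =>
    have e : (fun q => starRingEnd ℂ ((x + y) q)) = (fun q => starRingEnd ℂ (x q)) + fun q => starRingEnd ℂ (y q) := by
      funext q; simp
    rw [e]
    exact (MO R).add_mem hx hy
  | smul c x _ hx =>
    have e : (fun q => starRingEnd ℂ ((c • x) q)) = (starRingEnd ℂ c) • fun q => starRingEnd ℂ (x q) := by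
      funext q; simp
    rw [e]
    exact (MO R).smul_mem _ hx

/-- the members of the span: continuity, boundedness, invariance under the clamp -/
lemma MO_prop {R : ℝ} (hR : 0 ≤ R) {f : ℝ × ℂ → ℂ} (hf : f ∈ MO R) :
    Continuous f ∧ (∃ A : ℝ, ∀ q : ℝ × ℂ, ‖q.2‖ ≤ 1 → ‖f q‖ ≤ A) ∧ ∀ q : ℝ × ℂ, f (cR R q.1, q.2) = f q := by
  unfold MO at hf
  induction hf using Submodule.span_induction with
  | mem x hx =>
    obtain ⟨a, b, c, rfl⟩ := hx
    refine ⟨mo_cont R a b c, ⟨R ^ a, fun q hq => ?_⟩, fun q => ?_⟩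
    · unfold mo
      rw [norm_mul, norm_mul, norm_pow, norm_pow, norm_pow, Complex.norm_real, Real.norm_eq_abs, RCLike.norm_conj]
      have h1 : |cR R q.1| ^ a ≤ R ^ a := pow_le_pow_left₀ (abs_nonneg _) (cR_abs hR _) a
      have h2 : ‖q.2‖ ^ b * ‖q.2‖ ^ c ≤ 1 :=
        mul_le_one₀ (pow_le_one₀ (norm_nonneg _) hq) (by positivity) (pow_le_one₀ (norm_nonneg _) hq)
      calc _ ≤ R ^ a * 1 := mul_le_mul h1 h2 (by positivity) (by positivity)
        _ = _ := mul_one _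
    · unfold mo
      rw [cR_eq (cR_abs hR q.1)]
  | zero => exact ⟨continuous_zero, ⟨0, fun q _ => by simp⟩, fun q => rfl⟩
  | add x y _ _ hx hy =>
    obtain ⟨h1, ⟨A, h2⟩, h3⟩ := hx
    obtain ⟨k1, ⟨B, k2⟩, k3⟩ := hy
    refine ⟨h1.add k1, ⟨A + B, fun q hq => (norm_add_le _ _).trans (add_le_add (h2 q hq) (k2 q hq))⟩, fun q => ?_⟩
    rw [Pi.add_apply, Pi.add_apply, h3, k3]
  | smul c x _ hx =>
    obtain ⟨h1, ⟨A, h2⟩, h3⟩ := hx
    refine ⟨h1.const_smul c, ⟨‖c‖ * A, fun q hq => ?_⟩, fun q => ?_⟩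
    · rw [Pi.smul_apply, norm_smul]
      exact mul_le_mul_of_nonneg_left (h2 q hq) (norm_nonneg _)
    · rw [Pi.smul_apply, Pi.smul_apply, h3]

/-- the compact set -/
def Sq (R : ℝ) : Set (ℝ × ℂ) := Set.Icc (-R) R ×ˢ Metric.closedBall (0:ℂ) 1

lemma Sq_compact (R : ℝ) : IsCompact (Sq R) := isCompact_Icc.prod (isCompact_closedBall _ _)

/-- uniform approximation -/
theorem MO_dense {R : ℝ} {F : ℝ × ℂ → ℂ} (hF : Continuous F) {ε : ℝ} (hε : 0 < ε) :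
    ∃ Φ ∈ MO R, ∀ q ∈ Sq R, ‖F q - Φ q‖ ≤ ε := by
  have : CompactSpace (Sq R) := isCompact_iff_compactSpace.mp (Sq_compact R)
  let fx : C(Sq R, ℂ) := ⟨fun q => ((q.1.1 : ℝ) : ℂ), by fun_prop⟩
  let fw : C(Sq R, ℂ) := ⟨fun q => q.1.2, by fun_prop⟩
  let A : StarSubalgebra ℂ C(Sq R, ℂ) := StarAlgebra.adjoin ℂ {fx, fw}
  have hxA : fx ∈ A := StarAlgebra.subset_adjoin ℂ _ (by simp)
  have hwA : fw ∈ A := StarAlgebra.subset_adjoin ℂ _ (by simp)
  have hsep : A.SeparatesPoints := by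
    intro p q hpq
    by_cases h1 : p.1.1 = q.1.1
    · have h2 : p.1.2 ≠ q.1.2 := fun h2 => hpq (Subtype.ext (Prod.ext h1 h2))
      exact ⟨fw, ⟨fw, hwA, rfl⟩, h2⟩
    · refine ⟨fx, ⟨fx, hxA, rfl⟩, fun h2 => h1 ?_⟩
      have h3 : ((p.1.1 : ℝ) : ℂ) = ((q.1.1 : ℝ) : ℂ) := h2
      exact_mod_cast h3
  have htop := ContinuousMap.starSubalgebra_topologicalClosure_eq_top_of_separatesPoints A hsep
  let G : C(Sq R, ℂ) := ⟨fun q => F q.1, hF.comp continuous_subtype_val⟩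
  have hG : G ∈ A.topologicalClosure := by rw [htop]; trivial
  have hG' : G ∈ closure (A : Set C(Sq R, ℂ)) := hG
  obtain ⟨f, hfA, hfd⟩ := Metric.mem_closure_iff.mp hG' ε hε
  have hrep : ∀ f ∈ A, ∃ Φ ∈ MO R, ∀ q : Sq R, f q = Φ q.1 := by
    intro f hf
    induction hf using StarAlgebra.adjoin_induction with
    | mem x hx =>
      rcases hx with hx | hx
      · refine ⟨mo R 1 0 0, mo_mem _ _ _ _, fun q => ?_⟩
        have h1 : |q.1.1| ≤ R := abs_le.mpr q.2.1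
        rw [hx]
        simp only [mo, pow_one, pow_zero, mul_one]
        rw [cR_eq h1]
        rfl
      · refine ⟨mo R 0 1 0, mo_mem _ _ _ _, fun q => ?_⟩
        have hx' : x = fw := hx
        rw [hx']
        simp only [mo, pow_one, pow_zero, mul_one, one_mul]
        rfl
    | algebraMap r =>
      refine ⟨r • mo R 0 0 0, (MO R).smul_mem _ (mo_mem _ _ _ _), fun q => ?_⟩
      simp [mo]
    | add x y _ _ hx hy =>
      obtain ⟨Φ, h1, h2⟩ := hx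
      obtain ⟨Ψ, k1, k2⟩ := hy
      refine ⟨Φ + Ψ, (MO R).add_mem h1 k1, fun q => ?_⟩
      rw [ContinuousMap.add_apply, Pi.add_apply, h2, k2]
    | mul x y _ _ hx hy =>
      obtain ⟨Φ, h1, h2⟩ := hx
      obtain ⟨Ψ, k1, k2⟩ := hy
      refine ⟨Φ * Ψ, MO_mul h1 k1, fun q => ?_⟩
      rw [ContinuousMap.mul_apply, Pi.mul_apply, h2, k2]
    | star x _ hx =>
      obtain ⟨Φ, h1, h2⟩ := hx
      refine ⟨fun q => starRingEnd ℂ (Φ q), MO_star h1, fun q => ?_⟩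
      rw [ContinuousMap.star_apply, h2]
      rfl
  obtain ⟨Φ, hΦ, he⟩ := hrep f hfA
  refine ⟨Φ, hΦ, fun q hq => ?_⟩
  have h1 := ContinuousMap.dist_apply_le_dist (f := G) (g := f) (⟨q, hq⟩ : Sq R)
  rw [he] at h1
  rw [← dist_eq_norm]
  exact h1.trans hfd.le

/-- the law -/
noncomputable def lw : Measure (ℝ × ℝ) := (gaussianReal 0 1).prod (volume.restrict (Set.Ioc 0 (2 * Real.pi)))

instance : IsFiniteMeasure lw := by unfold lw; infer_instance

lemma lw_univ : lw.real Set.univ = 2 * Real.pi := by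
  unfold lw
  rw [Measure.real, ← Set.univ_prod_univ, Measure.prod_prod, ENNReal.toReal_mul, ← Measure.real, ← Measure.real, probReal_univ,
    one_mul, Measure.real, Measure.restrict_apply_univ, ← Measure.real, Real.volume_real_Ioc_of_le (by positivity), sub_zero]

/-- the average -/
noncomputable def cm (F : ℝ × ℂ → ℂ) : ℂ :=
  ((2 * Real.pi : ℝ) : ℂ)⁻¹ * ∫ q, F (q.1, Complex.exp (q.2 * Complex.I)) ∂lw

lemma ex_norm (θ : ℝ) : ‖Complex.exp (θ * Complex.I)‖ = 1 := Complex.norm_exp_ofReal_mul_I θ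

lemma cm_int {F : ℝ × ℂ → ℂ} (hF : Continuous F) {A : ℝ} (hA : ∀ q : ℝ × ℂ, ‖q.2‖ ≤ 1 → ‖F q‖ ≤ A) :
    Integrable (fun q : ℝ × ℝ => F (q.1, Complex.exp (q.2 * Complex.I))) lw := by
  have hc : Continuous fun q : ℝ × ℝ => F (q.1, Complex.exp (q.2 * Complex.I)) :=
    hF.comp (continuous_fst.prodMk (by fun_prop))
  refine Integrable.mono' (integrable_const A) hc.aestronglyMeasurable (Eventually.of_forall fun q => ?_)
  exact hA _ (ex_norm _).le

/-- a bound for the difference of averages -/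
lemma cm_sub {F G : ℝ × ℂ → ℂ} (hF : Continuous F) (hG : Continuous G) {A B : ℝ} (hA : ∀ q : ℝ × ℂ, ‖q.2‖ ≤ 1 → ‖F q‖ ≤ A)
    (hB : ∀ q : ℝ × ℂ, ‖q.2‖ ≤ 1 → ‖G q‖ ≤ B) {g : ℝ → ℝ} (hg : Integrable g (gaussianReal 0 1))
    (h : ∀ q : ℝ × ℂ, ‖q.2‖ ≤ 1 → ‖F q - G q‖ ≤ g q.1) :
    ‖cm F - cm G‖ ≤ ∫ x, g x ∂(gaussianReal 0 1) := by
  unfold cm
  have hπ : (0:ℝ) < 2 * Real.pi := by positivity
  rw [← mul_sub, ← integral_sub (cm_int hF hA) (cm_int hG hB), norm_mul, norm_inv, Complex.norm_real, Real.norm_of_nonneg hπ.le,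
    inv_mul_le_iff₀ hπ]
  have hgi : Integrable (fun q : ℝ × ℝ => g q.1) lw := by
    unfold lw
    exact hg.comp_fst _
  refine (norm_integral_le_of_norm_le hgi (Eventually.of_forall fun q => h (q.1, Complex.exp (q.2 * Complex.I)) (ex_norm _).le)).trans
    (le_of_eq ?_)
  unfold lw
  rw [integral_prod_symm _ (by unfold lw at hgi; exact hgi)]
  simp only
  rw [integral_const, smul_eq_mul, Measure.real, Measure.restrict_apply_univ, ← Measure.real, Real.volume_real_Ioc_of_le (by positivity),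
    sub_zero]

lemma cm_add {F G : ℝ × ℂ → ℂ} (hF : Continuous F) (hG : Continuous G) {A B : ℝ} (hA : ∀ q : ℝ × ℂ, ‖q.2‖ ≤ 1 → ‖F q‖ ≤ A)
    (hB : ∀ q : ℝ × ℂ, ‖q.2‖ ≤ 1 → ‖G q‖ ≤ B) : cm (F + G) = cm F + cm G := by
  unfold cm
  rw [← mul_add, ← integral_add (cm_int hF hA) (cm_int hG hB)]
  rfl

lemma cm_smul (c : ℂ) (F : ℝ × ℂ → ℂ) : cm (c • F) = c * cm F := by
  unfold cm
  simp only [Pi.smul_apply, smul_eq_mul]
  rw [integral_const_mul]
  ring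

lemma cm_zero : cm 0 = 0 := by
  unfold cm
  simp

lemma cm_mo (R : ℝ) (a b c : ℕ) :
    cm (mo R a b c) = if (b:ℤ) - c = 0 then ((∫ x, cR R x ^ a ∂(gaussianReal 0 1) : ℝ) : ℂ) else 0 := by
  unfold cm lw
  have e1 : ∀ q : ℝ × ℝ, mo R a b c (q.1, Complex.exp (q.2 * Complex.I)) = (((cR R q.1 ^ a : ℝ)) : ℂ) *
      Complex.exp ((((b:ℤ) - c : ℤ) : ℂ) * Complex.I * q.2) := by
    intro q
    unfold mo
    rw [← Complex.exp_conj, ← Complex.exp_nat_mul, ← Complex.exp_nat_mul, ← Complex.exp_add]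
    push_cast
    congr 2
    rw [map_mul, Complex.conj_ofReal, Complex.conj_I]
    ring
  simp_rw [e1]
  rw [integral_prod_mul (fun x : ℝ => ((cR R x ^ a : ℝ) : ℂ)) (fun y : ℝ => Complex.exp ((((b:ℤ) - c : ℤ) : ℂ) * Complex.I * y)),
    integral_complex_ofReal]
  have hπ : (0:ℝ) < 2 * Real.pi := by positivity
  rw [← intervalIntegral.integral_of_le hπ.le]
  split_ifs with h
  · rw [h]
    simp only [Int.cast_zero, zero_mul, Complex.exp_zero, intervalIntegral.integral_const, sub_zero]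
    have : ((2 * Real.pi : ℝ) : ℂ) ≠ 0 := by exact_mod_cast hπ.ne'
    rw [Complex.real_smul, mul_one]
    field_simp
  · have hc : ((((b:ℤ) - c : ℤ) : ℂ) * Complex.I) ≠ 0 := mul_ne_zero (by exact_mod_cast h) Complex.I_ne_zero
    rw [integral_exp_mul_complex hc]
    have e2 : Complex.exp ((((b:ℤ) - c : ℤ) : ℂ) * Complex.I * ((2 * Real.pi : ℝ) : ℂ)) = 1 := by
      rw [Complex.exp_eq_one_iff]
      exact ⟨(b:ℤ) - c, by push_cast; ring⟩
    rw [e2]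
    simp

/-- the data -/
structure Dat (p : ℝ → ℝ → ℝ) (X : ℝ → ℝ → ℝ) (W : ℝ → ℝ → ℂ) (τ : ℝ → ℂ) (ms : ℝ → Measure ℝ) (c : ℝ) (L : ℂ) : Prop where
  τm : Measurable τ
  τ1 : ∀ t, ‖τ t‖ ≤ 1
  ev : ∀ᶠ T in atTop, Measurable (p T) ∧ (∀ t, 0 ≤ p T t) ∧ Integrable (p T) (ms T) ∧ Measurable (X T) ∧ Measurable (W T) ∧
    (∀ t, ‖W T t‖ ≤ 1) ∧ ∀ t, p T t ≠ 0 → ‖W T t‖ = 1
  h0 : ∀ g : BoundedContinuousFunction ℝ ℝ, Tendsto (fun T => ∫ t, p T t * g (X T t) ∂(ms T)) atTop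
    (𝓝 (c * ∫ x, g x ∂(gaussianReal 0 1)))
  h1 : ∀ (g : BoundedContinuousFunction ℝ ℝ) (m : ℤ), Tendsto (fun T => ∫ t, ((p T t * g (X T t) : ℝ) : ℂ) * (W T t ^ m * τ t) ∂(ms T))
    atTop (𝓝 (if m = 0 then L * ((∫ x, g x ∂(gaussianReal 0 1) : ℝ) : ℂ) else 0))

section

variable {p : ℝ → ℝ → ℝ} {X : ℝ → ℝ → ℝ} {W : ℝ → ℝ → ℂ} {τ : ℝ → ℂ} {ms : ℝ → Measure ℝ} {c : ℝ} {L : ℂ}

lemma Dat.int (D : Dat p X W τ ms c L) {F : ℝ × ℂ → ℂ} (hF : Continuous F) {A : ℝ} (hA : ∀ q : ℝ × ℂ, ‖q.2‖ ≤ 1 → ‖F q‖ ≤ A) :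
    ∀ᶠ T in atTop, Integrable (fun t => ((p T t : ℝ) : ℂ) * (F (X T t, W T t) * τ t)) (ms T) := by
  filter_upwards [D.ev] with T ⟨h1, h2, h3, h4, h5, h6, h7⟩
  have hA0 : 0 ≤ A := (norm_nonneg _).trans (hA (0, 0) (by simp))
  refine (h3.ofReal (𝕜 := ℂ)).mul_bdd (c := A) ((hF.measurable.comp (h4.prodMk h5)).mul D.τm).aestronglyMeasurable
    (Eventually.of_forall fun t => ?_)
  rw [norm_mul]
  calc ‖F (X T t, W T t)‖ * ‖τ t‖ ≤ A * 1 := mul_le_mul (hA _ (h6 t)) (D.τ1 t) (norm_nonneg _) hA0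
    _ = A := mul_one A

/-- a bound for the difference of integrals -/
lemma Dat.diff (D : Dat p X W τ ms c L) {F G : ℝ × ℂ → ℂ} (hF : Continuous F) (hG : Continuous G) {A B : ℝ}
    (hA : ∀ q : ℝ × ℂ, ‖q.2‖ ≤ 1 → ‖F q‖ ≤ A) (hB : ∀ q : ℝ × ℂ, ‖q.2‖ ≤ 1 → ‖G q‖ ≤ B) (g : BoundedContinuousFunction ℝ ℝ)
    (h : ∀ q : ℝ × ℂ, ‖q.2‖ ≤ 1 → ‖F q - G q‖ ≤ g q.1) :
    ∀ᶠ T in atTop, ‖(∫ t, ((p T t : ℝ) : ℂ) * (F (X T t, W T t) * τ t) ∂(ms T)) -
      ∫ t, ((p T t : ℝ) : ℂ) * (G (X T t, W T t) * τ t) ∂(ms T)‖ ≤ ∫ t, p T t * g (X T t) ∂(ms T) := by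
  filter_upwards [D.ev, D.int hF hA, D.int hG hB] with T ⟨h1, h2, h3, h4, h5, h6, h7⟩ i1 i2
  rw [← integral_sub i1 i2]
  have i3 : Integrable (fun t => p T t * g (X T t)) (ms T) := h3.mul_bdd (c := ‖g‖) (g.continuous.measurable.comp h4).aestronglyMeasurable
    (Eventually.of_forall fun t => g.norm_coe_le_norm _)
  refine norm_integral_le_of_norm_le i3 (Eventually.of_forall fun t => ?_)
  have e1 : ((p T t : ℝ) : ℂ) * (F (X T t, W T t) * τ t) - ((p T t : ℝ) : ℂ) * (G (X T t, W T t) * τ t) =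
      ((p T t : ℝ) : ℂ) * ((F (X T t, W T t) - G (X T t, W T t)) * τ t) := by ring
  rw [e1, norm_mul, norm_mul, Complex.norm_real, Real.norm_of_nonneg (h2 t)]
  refine mul_le_mul_of_nonneg_left ?_ (h2 t)
  have h8 := h (X T t, W T t) (h6 t)
  have h9 : 0 ≤ g (X T t) := (norm_nonneg _).trans h8
  calc _ ≤ g (X T t) * 1 := mul_le_mul h8 (D.τ1 t) (norm_nonneg _) h9
    _ = _ := mul_one _

/-- the span -/
lemma Dat.span (D : Dat p X W τ ms c L) {R : ℝ} (hR : 0 ≤ R) {f : ℝ × ℂ → ℂ} (hf : f ∈ MO R) :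
    Tendsto (fun T => ∫ t, ((p T t : ℝ) : ℂ) * (f (X T t, W T t) * τ t) ∂(ms T)) atTop (𝓝 (L * cm f)) := by
  unfold MO at hf
  induction hf using Submodule.span_induction with
  | mem x hx =>
    obtain ⟨a, b, d, rfl⟩ := hx
    obtain ⟨g, hg⟩ : ∃ g : BoundedContinuousFunction ℝ ℝ, ∀ x, g x = cR R x ^ a :=
      ⟨BoundedContinuousFunction.ofNormedAddCommGroup (fun x => cR R x ^ a) ((cR_cont R).pow a) (R ^ a) (fun x => by
        rw [norm_pow, Real.norm_eq_abs]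
        exact pow_le_pow_left₀ (abs_nonneg _) (cR_abs hR x) a), fun x => rfl⟩
    have h1 := D.h1 g ((b:ℤ) - d)
    have e1 : L * cm (mo R a b d) = if (b:ℤ) - d = 0 then L * ((∫ x, g x ∂(gaussianReal 0 1) : ℝ) : ℂ) else 0 := by
      rw [cm_mo]
      simp_rw [hg]
      split_ifs <;> simp
    rw [e1]
    refine h1.congr' ?_
    filter_upwards [D.ev] with T ⟨_, _, _, _, _, _, h7⟩
    refine integral_congr_ae (Eventually.of_forall fun t => ?_)
    simp only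
    by_cases hp : p T t = 0
    · rw [hp]; simp
    · have hn := h7 t hp
      have hw0 : W T t ≠ 0 := by
        intro h
        rw [h, norm_zero] at hn
        exact zero_ne_one hn
      have e2 : starRingEnd ℂ (W T t) = (W T t)⁻¹ := by
        rw [Complex.inv_def, Complex.normSq_eq_norm_sq, hn]
        simp
      unfold mo
      simp only
      rw [e2, hg, zpow_sub₀ hw0, zpow_natCast, zpow_natCast, inv_pow]
      push_cast
      ring
  | zero =>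
    rw [cm_zero, mul_zero]
    refine tendsto_const_nhds.congr fun T => ?_
    simp
  | add x y hx' hy' hx hy =>
    obtain ⟨p1, ⟨A, p2⟩, p3⟩ := MO_prop hR hx'
    obtain ⟨q1, ⟨B, q2⟩, q3⟩ := MO_prop hR hy'
    rw [cm_add p1 q1 p2 q2, mul_add]
    refine (hx.add hy).congr' ?_
    filter_upwards [D.int p1 p2, D.int q1 q2] with T i1 i2
    rw [← integral_add i1 i2]
    refine integral_congr_ae (Eventually.of_forall fun t => ?_)
    simp only [Pi.add_apply]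
    ring
  | smul d x _ hx =>
    rw [cm_smul]
    have h1 := hx.const_mul d
    have e1 : d * (L * cm x) = L * (d * cm x) := by ring
    rw [e1] at h1
    refine h1.congr fun T => ?_
    rw [← integral_const_mul]
    refine integral_congr_ae (Eventually.of_forall fun t => ?_)
    simp only [Pi.smul_apply, smul_eq_mul]
    ring

/-- passing to the limit -/
lemma Dat.lim (D : Dat p X W τ ms c L) {F : ℝ × ℂ → ℂ} (hF : Continuous F) {A : ℝ} (hA : ∀ q : ℝ × ℂ, ‖q.2‖ ≤ 1 → ‖F q‖ ≤ A)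
    (h : ∀ ε : ℝ, 0 < ε → ∃ (G : ℝ × ℂ → ℂ) (B : ℝ) (g : BoundedContinuousFunction ℝ ℝ), Continuous G ∧
      (∀ q : ℝ × ℂ, ‖q.2‖ ≤ 1 → ‖G q‖ ≤ B) ∧ (∀ q : ℝ × ℂ, ‖q.2‖ ≤ 1 → ‖F q - G q‖ ≤ g q.1) ∧
      ∫ x, g x ∂(gaussianReal 0 1) ≤ ε ∧
      Tendsto (fun T => ∫ t, ((p T t : ℝ) : ℂ) * (G (X T t, W T t) * τ t) ∂(ms T)) atTop (𝓝 (L * cm G))) :
    Tendsto (fun T => ∫ t, ((p T t : ℝ) : ℂ) * (F (X T t, W T t) * τ t) ∂(ms T)) atTop (𝓝 (L * cm F)) := by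
  rw [Metric.tendsto_nhds]
  intro ε hε
  have hK : 0 < |c| + ‖L‖ + 1 := by positivity
  obtain ⟨G, B, g, h1, h2, h3, h4, h5⟩ := h (ε / 4 / (|c| + ‖L‖ + 1)) (by positivity)
  have hg0 : 0 ≤ ∫ x, g x ∂(gaussianReal 0 1) := integral_nonneg fun x => by
    have := h3 (x, 0) (by simp)
    exact (norm_nonneg _).trans this
  have h6 : (|c| + ‖L‖ + 1) * ∫ x, g x ∂(gaussianReal 0 1) ≤ ε / 4 := by
    rw [le_div_iff₀ hK] at h4
    linarith
  have hc1 : c * ∫ x, g x ∂(gaussianReal 0 1) < ε / 2 := by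
    have a1 : c * ∫ x, g x ∂(gaussianReal 0 1) ≤ (|c| + ‖L‖ + 1) * ∫ x, g x ∂(gaussianReal 0 1) :=
      mul_le_mul_of_nonneg_right (by have := le_abs_self c; have := norm_nonneg L; linarith) hg0
    linarith
  filter_upwards [D.diff hF h1 hA h2 g h3, (D.h0 g).eventually (gt_mem_nhds hc1), (Metric.tendsto_nhds.mp h5) (ε / 8) (by positivity)]
    with T t1 t2 t3
  rw [dist_eq_norm] at t3 ⊢
  have a2 : ‖L * cm G - L * cm F‖ ≤ ε / 4 := by
    rw [← mul_sub, norm_mul, norm_sub_rev]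
    have a3 := cm_sub hF h1 hA h2 (g.integrable _) h3
    have a4 : ‖L‖ * ‖cm F - cm G‖ ≤ ‖L‖ * ∫ x, g x ∂(gaussianReal 0 1) := mul_le_mul_of_nonneg_left a3 (norm_nonneg _)
    have a5 : ‖L‖ * ∫ x, g x ∂(gaussianReal 0 1) ≤ (|c| + ‖L‖ + 1) * ∫ x, g x ∂(gaussianReal 0 1) :=
      mul_le_mul_of_nonneg_right (by have := abs_nonneg c; linarith) hg0
    linarith
  have e1 : (∫ t, ((p T t : ℝ) : ℂ) * (F (X T t, W T t) * τ t) ∂(ms T)) - L * cm F =
      ((∫ t, ((p T t : ℝ) : ℂ) * (F (X T t, W T t) * τ t) ∂(ms T)) -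
        ∫ t, ((p T t : ℝ) : ℂ) * (G (X T t, W T t) * τ t) ∂(ms T)) +
      ((∫ t, ((p T t : ℝ) : ℂ) * (G (X T t, W T t) * τ t) ∂(ms T)) - L * cm G) + (L * cm G - L * cm F) := by ring
  rw [e1]
  have b1 := norm_add_le ((∫ t, ((p T t : ℝ) : ℂ) * (F (X T t, W T t) * τ t) ∂(ms T)) -
        (∫ t, ((p T t : ℝ) : ℂ) * (G (X T t, W T t) * τ t) ∂(ms T)) +
      ((∫ t, ((p T t : ℝ) : ℂ) * (G (X T t, W T t) * τ t) ∂(ms T)) - L * cm G)) (L * cm G - L * cm F)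
  have b2 := norm_add_le ((∫ t, ((p T t : ℝ) : ℂ) * (F (X T t, W T t) * τ t) ∂(ms T)) -
        ∫ t, ((p T t : ℝ) : ℂ) * (G (X T t, W T t) * τ t) ∂(ms T))
      ((∫ t, ((p T t : ℝ) : ℂ) * (G (X T t, W T t) * τ t) ∂(ms T)) - L * cm G)
  linarith

/-- the joint law -/
theorem Dat.joint (D : Dat p X W τ ms c L) {F : ℝ × ℂ → ℂ} (hF : Continuous F) {A : ℝ} (hA : ∀ q : ℝ × ℂ, ‖q.2‖ ≤ 1 → ‖F q‖ ≤ A) :
    Tendsto (fun T => ∫ t, ((p T t : ℝ) : ℂ) * (F (X T t, W T t) * τ t) ∂(ms T)) atTop (𝓝 (L * cm F)) := by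
  have hA0 : 0 ≤ A := (norm_nonneg _).trans (hA (0, 0) (by simp))
  obtain ⟨FR, hFR⟩ : ∃ FR : ℝ → ℝ × ℂ → ℂ, ∀ R q, FR R q = F (cR R q.1, q.2) := ⟨_, fun _ _ => rfl⟩
  have hFRc : ∀ R, Continuous (FR R) := fun R => by
    have : FR R = fun q => F (cR R q.1, q.2) := funext (hFR R)
    rw [this]
    exact hF.comp (((cR_cont R).comp continuous_fst).prodMk continuous_snd)
  have hFRA : ∀ R, ∀ q : ℝ × ℂ, ‖q.2‖ ≤ 1 → ‖FR R q‖ ≤ A := fun R q hq => by rw [hFR]; exact hA _ hq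
  -- the truncated functions
  have step : ∀ R : ℝ, 0 ≤ R → Tendsto (fun T => ∫ t, ((p T t : ℝ) : ℂ) * (FR R (X T t, W T t) * τ t) ∂(ms T)) atTop
      (𝓝 (L * cm (FR R))) := by
    intro R hR
    refine D.lim (hFRc R) (hFRA R) fun ε hε => ?_
    obtain ⟨Φ, hΦ, hd⟩ := MO_dense (R := R) hF hε
    obtain ⟨p1, ⟨B, p2⟩, p3⟩ := MO_prop hR hΦ
    refine ⟨Φ, B, BoundedContinuousFunction.const _ ε, p1, p2, fun q hq => ?_, ?_, D.span hR hΦ⟩
    · rw [hFR, ← p3 q]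
      refine hd _ ⟨?_, ?_⟩
      · exact abs_le.mp (cR_abs hR q.1)
      · rw [mem_closedBall_zero_iff]; exact hq
    · simp
  -- the tails
  obtain ⟨ψ, hψ⟩ : ∃ ψ : ℕ → BoundedContinuousFunction ℝ ℝ, ∀ n x, ψ n x = min 1 (max 0 (|x| - n + 1)) :=
    ⟨fun n => BoundedContinuousFunction.ofNormedAddCommGroup (fun x => min 1 (max 0 (|x| - n + 1)))
      (continuous_const.min (continuous_const.max ((continuous_abs.sub continuous_const).add continuous_const))) 1 (fun x => by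
        rw [Real.norm_eq_abs, abs_of_nonneg (le_min zero_le_one (le_max_left _ _))]
        exact min_le_left _ _), fun n x => rfl⟩
  have hψ0 : ∀ n x, 0 ≤ ψ n x := fun n x => by rw [hψ]; exact le_min zero_le_one (le_max_left _ _)
  have hψ1 : ∀ n x, ψ n x ≤ 1 := fun n x => by rw [hψ]; exact min_le_left _ _
  have hlim : Tendsto (fun n : ℕ => ∫ x, ψ n x ∂(gaussianReal 0 1)) atTop (𝓝 0) := by
    have h0 : ∫ x : ℝ, (0:ℝ) ∂(gaussianReal 0 1) = 0 := by simp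
    suffices h : Tendsto (fun n : ℕ => ∫ x, ψ n x ∂(gaussianReal 0 1)) atTop (𝓝 (∫ x : ℝ, (0:ℝ) ∂(gaussianReal 0 1))) by
      rwa [h0] at h
    refine tendsto_integral_of_dominated_convergence (fun _ => (1:ℝ)) (fun n => (ψ n).continuous.aestronglyMeasurable)
      (integrable_const (μ := gaussianReal 0 1) (1:ℝ)) (fun n => Eventually.of_forall fun x => ?_) (Eventually.of_forall fun x => ?_)
    · rw [Real.norm_eq_abs, abs_of_nonneg (hψ0 n x)]
      exact hψ1 n x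
    · obtain ⟨K, hK⟩ := exists_nat_ge (|x| + 1)
      refine tendsto_const_nhds.congr' ?_
      filter_upwards [eventually_ge_atTop K] with n hn
      have hn' : (K:ℝ) ≤ n := by exact_mod_cast hn
      rw [hψ, max_eq_left (by linarith), min_eq_right zero_le_one]
  refine D.lim hF hA fun ε hε => ?_
  obtain ⟨n, hn⟩ : ∃ n : ℕ, 2 * A * ∫ x, ψ n x ∂(gaussianReal 0 1) < ε := by
    have h1 := hlim.const_mul (2 * A)
    rw [mul_zero] at h1
    exact (h1.eventually (gt_mem_nhds hε)).exists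
  refine ⟨FR n, A, (2 * A) • ψ n, hFRc n, hFRA n, fun q hq => ?_, ?_, step n (Nat.cast_nonneg n)⟩
  · show ‖F q - FR n q‖ ≤ 2 * A * ψ n q.1
    by_cases hx : |q.1| ≤ n
    · rw [hFR, cR_eq hx]
      simp only [Prod.mk.eta, sub_self, norm_zero]
      exact mul_nonneg (by positivity) (hψ0 n q.1)
    · rw [not_le] at hx
      have e1 : ψ n q.1 = 1 := by
        rw [hψ, max_eq_right (by linarith), min_eq_left (by linarith)]
      rw [e1, mul_one]
      refine (norm_sub_le _ _).trans ?_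
      have a1 := hA q hq
      have a2 := hFRA n q hq
      linarith
  · have e1 : ∫ x, ((2 * A) • ψ n) x ∂(gaussianReal 0 1) = 2 * A * ∫ x, ψ n x ∂(gaussianReal 0 1) := by
      rw [← integral_const_mul]
      refine integral_congr_ae (Eventually.of_forall fun x => ?_)
      simp
    rw [e1]
    exact hn.le

end

end Pool.Agent.Run7.h290.PH
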