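import Pool.Agent.Run7.h290.PH.G

set_option autoImplicit false

/-! Test functions of exponential growth. -/

namespace Pool.Agent.Run7.h290.PH

open MeasureTheory Filter Topology ProbabilityTheory

lemma cm_sub2 {F G : ℝ × ℂ → ℂ} (hF : Integrable (fun q : ℝ × ℝ => F (q.1, Complex.exp (q.2 * Complex.I))) lw)
    (hG : Integrable (fun q : ℝ × ℝ => G (q.1, Complex.exp (q.2 * Complex.I))) lw) {g : ℝ → ℝ} (hg : Integrable g (gaussianReal 0 1))
    (h : ∀ q : ℝ × ℂ, ‖q.2‖ ≤ 1 → ‖F q - G q‖ ≤ g q.1) :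
    ‖cm F - cm G‖ ≤ ∫ x, g x ∂(gaussianReal 0 1) := by
  unfold cm
  have hπ : (0:ℝ) < 2 * Real.pi := by positivity
  rw [← mul_sub, ← integral_sub hF hG, norm_mul, norm_inv, Complex.norm_real, Real.norm_of_nonneg hπ.le,
    inv_mul_le_iff₀ hπ]
  have hgi : Integrable (fun q : ℝ × ℝ => g q.1) lw := by
    unfold lw
    exact hg.comp_fst _
  refine (norm_integral_le_of_norm_le hgi (Eventually.of_forall fun q => h (q.1, Complex.exp (q.2 * Complex.I)) (ex_norm _).le)).trans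
    (le_of_eq ?_)
  unfold lw
  rw [integral_prod_symm _ (by unfold lw at hgi; exact hgi)]
  simp only
  rw [integral_const, smul_eq_mul, Measure.real, Measure.restrict_apply_univ, ← Measure.real, Real.volume_real_Ioc_of_le (by positivity),
    sub_zero]

lemma ch_int (s : ℝ) : Integrable (fun x : ℝ => Real.exp (s * x) + Real.exp (-s * x)) (gaussianReal 0 1) :=
  (integrable_exp_mul_gaussianReal s).add (integrable_exp_mul_gaussianReal (-s))

lemma exp_abs_le (s x : ℝ) : Real.exp (s * |x|) ≤ Real.exp (s * x) + Real.exp (-s * x) := by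
  rcases abs_cases x with ⟨h, _⟩ | ⟨h, _⟩
  · rw [h]
    have := Real.exp_pos (-s * x)
    linarith
  · rw [h]
    have h4 : s * -x = -s * x := by ring
    rw [h4]
    have := Real.exp_pos (s * x)
    linarith

/-- from bounded test functions to test functions of exponential growth -/
theorem grow {p : ℝ → ℝ → ℝ} {X : ℝ → ℝ → ℝ} {W : ℝ → ℝ → ℂ} {τ : ℝ → ℂ} {ms : ℝ → Measure ℝ} {L : ℂ}
    (hτ : Measurable τ) (hτ1 : ∀ t, ‖τ t‖ ≤ 1)
    (hev : ∀ᶠ T in atTop, Measurable (p T) ∧ (∀ t, 0 ≤ p T t) ∧ Measurable (X T) ∧ Measurable (W T) ∧ ∀ t, ‖W T t‖ ≤ 1)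
    (hexp : ∀ s : ℝ, ∃ C : ℝ, ∀ᶠ T in atTop, Integrable (fun t => p T t * Real.exp (s * X T t)) (ms T) ∧
      ∫ t, p T t * Real.exp (s * X T t) ∂(ms T) ≤ C)
    (hb : ∀ F : ℝ × ℂ → ℂ, Continuous F → ∀ A : ℝ, (∀ q : ℝ × ℂ, ‖q.2‖ ≤ 1 → ‖F q‖ ≤ A) →
      Tendsto (fun T => ∫ t, ((p T t : ℝ) : ℂ) * (F (X T t, W T t) * τ t) ∂(ms T)) atTop (𝓝 (L * cm F)))
    {F : ℝ × ℂ → ℂ} (hF : Continuous F) {A : ℝ} (hA : ∀ q : ℝ × ℂ, ‖q.2‖ ≤ 1 → ‖F q‖ ≤ A * Real.exp (A * |q.1|)) :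
    Tendsto (fun T => ∫ t, ((p T t : ℝ) : ℂ) * (F (X T t, W T t) * τ t) ∂(ms T)) atTop (𝓝 (L * cm F)) := by
  obtain ⟨B, hB⟩ : ∃ B : ℝ, B = |A| := ⟨_, rfl⟩
  have hB0 : 0 ≤ B := by rw [hB]; exact abs_nonneg A
  have hFB : ∀ q : ℝ × ℂ, ‖q.2‖ ≤ 1 → ‖F q‖ ≤ B * Real.exp (B * |q.1|) := by
    intro q hq
    refine (hA q hq).trans ?_
    have h2 : A ≤ B := by rw [hB]; exact le_abs_self A
    have h3 : Real.exp (A * |q.1|) ≤ Real.exp (B * |q.1|) := Real.exp_le_exp.mpr (mul_le_mul_of_nonneg_right h2 (abs_nonneg _))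
    exact mul_le_mul h2 h3 (Real.exp_pos _).le hB0
  obtain ⟨g, hg⟩ : ∃ g : ℝ → ℝ, ∀ x, g x = Real.exp ((B + 1) * x) + Real.exp (-(B + 1) * x) := ⟨_, fun _ => rfl⟩
  have hge : g = fun x => Real.exp ((B + 1) * x) + Real.exp (-(B + 1) * x) := funext hg
  have hgi : Integrable g (gaussianReal 0 1) := by rw [hge]; exact ch_int _
  have hg0 : ∀ x, 0 ≤ g x := fun x => by rw [hg]; positivity
  have hgB : ∀ x, Real.exp ((B + 1) * |x|) ≤ g x := fun x => by rw [hg]; exact exp_abs_le _ x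
  -- the cutoff
  obtain ⟨ψ, hψ⟩ : ∃ ψ : ℕ → ℝ → ℝ, ∀ n x, ψ n x = min 1 (max 0 (|x| - n + 1)) := ⟨_, fun _ _ => rfl⟩
  have hψc : ∀ n, Continuous (ψ n) := fun n => by
    have : ψ n = fun x : ℝ => min (1:ℝ) (max 0 (|x| - (n:ℝ) + 1)) := funext (hψ n)
    rw [this]
    exact continuous_const.min (continuous_const.max ((continuous_abs.sub continuous_const).add continuous_const))
  have hψ0 : ∀ n x, 0 ≤ ψ n x := fun n x => by rw [hψ]; exact le_min zero_le_one (le_max_left _ _)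
  have hψ1 : ∀ n x, ψ n x ≤ 1 := fun n x => by rw [hψ]; exact min_le_left _ _
  obtain ⟨Fn, hFn⟩ : ∃ Fn : ℕ → ℝ × ℂ → ℂ, ∀ n q, Fn n q = F q * ((1 - ψ n q.1 : ℝ) : ℂ) := ⟨_, fun _ _ => rfl⟩
  have hFnc : ∀ n, Continuous (Fn n) := fun n => by
    have : Fn n = fun q => F q * ((1 - ψ n q.1 : ℝ) : ℂ) := funext (hFn n)
    rw [this]
    exact hF.mul (Complex.continuous_ofReal.comp (continuous_const.sub ((hψc n).comp continuous_fst)))
  have hFnb : ∀ n : ℕ, ∀ q : ℝ × ℂ, ‖q.2‖ ≤ 1 → ‖Fn n q‖ ≤ B * Real.exp (B * n) := by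
    intro n q hq
    rw [hFn, norm_mul, Complex.norm_real, Real.norm_of_nonneg (by have := hψ1 n q.1; linarith)]
    rcases le_or_gt |q.1| n with h | h
    · have h1 := hFB q hq
      have h2 : B * Real.exp (B * |q.1|) ≤ B * Real.exp (B * n) :=
        mul_le_mul_of_nonneg_left (Real.exp_le_exp.mpr (mul_le_mul_of_nonneg_left h hB0)) hB0
      have h3 : 1 - ψ n q.1 ≤ 1 := by have := hψ0 n q.1; linarith
      have h4 : 0 ≤ 1 - ψ n q.1 := by have := hψ1 n q.1; linarith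
      calc _ ≤ (B * Real.exp (B * n)) * 1 := mul_le_mul (h1.trans h2) h3 h4 (by positivity)
        _ = _ := mul_one _
    · have h1 : ψ n q.1 = 1 := by rw [hψ, max_eq_right (by linarith), min_eq_left (by linarith)]
      rw [h1, sub_self, mul_zero]
      positivity
  have hFd : ∀ n : ℕ, ∀ q : ℝ × ℂ, ‖q.2‖ ≤ 1 → ‖F q - Fn n q‖ ≤ B * Real.exp (-((n:ℝ) - 1)) * g q.1 := by
    intro n q hq
    have e1 : F q - Fn n q = F q * ((ψ n q.1 : ℝ) : ℂ) := by rw [hFn]; push_cast; ring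
    rw [e1, norm_mul, Complex.norm_real, Real.norm_of_nonneg (hψ0 n q.1)]
    rcases le_or_gt |q.1| ((n:ℝ) - 1) with h | h
    · have h1 : ψ n q.1 = 0 := by rw [hψ, max_eq_left (by linarith), min_eq_right zero_le_one]
      rw [h1, mul_zero]
      exact mul_nonneg (by positivity) (hg0 _)
    · have h1 := hFB q hq
      have h2 : Real.exp (B * |q.1|) ≤ Real.exp (-((n:ℝ) - 1)) * g q.1 := by
        have h3 : Real.exp (B * |q.1|) = Real.exp (-|q.1|) * Real.exp ((B + 1) * |q.1|) := by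
          rw [← Real.exp_add]; congr 1; ring
        rw [h3]
        exact mul_le_mul (Real.exp_le_exp.mpr (by linarith)) (hgB _) (Real.exp_pos _).le (Real.exp_pos _).le
      calc ‖F q‖ * ψ n q.1 ≤ (B * Real.exp (B * |q.1|)) * 1 := mul_le_mul h1 (hψ1 n q.1) (hψ0 n q.1) (by positivity)
        _ = B * Real.exp (B * |q.1|) := mul_one _
        _ ≤ B * (Real.exp (-((n:ℝ) - 1)) * g q.1) := mul_le_mul_of_nonneg_left h2 hB0
        _ = _ := by ring
  -- integrability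
  have hFi : Integrable (fun q : ℝ × ℝ => F (q.1, Complex.exp (q.2 * Complex.I))) lw := by
    have hc : Continuous fun q : ℝ × ℝ => F (q.1, Complex.exp (q.2 * Complex.I)) :=
      hF.comp (continuous_fst.prodMk (by fun_prop))
    have hd : Integrable (fun q : ℝ × ℝ => B * g q.1) lw := by
      unfold lw
      exact (hgi.const_mul B).comp_fst _
    refine hd.mono' hc.aestronglyMeasurable (Eventually.of_forall fun q => ?_)
    refine (hFB _ (ex_norm q.2).le).trans (mul_le_mul_of_nonneg_left (le_trans ?_ (hgB q.1)) hB0)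
    exact Real.exp_le_exp.mpr (mul_le_mul_of_nonneg_right (by linarith) (abs_nonneg _))
  obtain ⟨C1, hC1⟩ := hexp (B + 1)
  obtain ⟨C2, hC2⟩ := hexp (-(B + 1))
  have hpg : ∀ᶠ T in atTop, Integrable (fun t => p T t * g (X T t)) (ms T) ∧ ∫ t, p T t * g (X T t) ∂(ms T) ≤ C1 + C2 := by
    filter_upwards [hC1, hC2] with T h1 h2
    have e1 : (fun t => p T t * g (X T t)) = fun t => p T t * Real.exp ((B + 1) * X T t) + p T t * Real.exp (-(B + 1) * X T t) := by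
      funext t
      rw [hg]; ring
    rw [e1]
    refine ⟨h1.1.add h2.1, ?_⟩
    rw [integral_add h1.1 h2.1]
    exact add_le_add h1.2 h2.2
  have hint : ∀ᶠ T in atTop, ∀ H : ℝ × ℂ → ℂ, Continuous H → ∀ K : ℝ, 0 ≤ K → (∀ q : ℝ × ℂ, ‖q.2‖ ≤ 1 → ‖H q‖ ≤ K * g q.1) →
      Integrable (fun t => ((p T t : ℝ) : ℂ) * (H (X T t, W T t) * τ t)) (ms T) ∧
      ‖∫ t, ((p T t : ℝ) : ℂ) * (H (X T t, W T t) * τ t) ∂(ms T)‖ ≤ K * (C1 + C2) := by
    filter_upwards [hev, hpg] with T ⟨a1, a2, a3, a4, a5⟩ ⟨b1, b2⟩ H hH K hK hHK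
    have hbd : ∀ t, ‖((p T t : ℝ) : ℂ) * (H (X T t, W T t) * τ t)‖ ≤ K * (p T t * g (X T t)) := by
      intro t
      rw [norm_mul, norm_mul, Complex.norm_real, Real.norm_of_nonneg (a2 t)]
      have h1 := hHK (X T t, W T t) (a5 t)
      have h2 : ‖H (X T t, W T t)‖ * ‖τ t‖ ≤ K * g (X T t) :=
        calc _ ≤ (K * g (X T t)) * 1 := mul_le_mul h1 (hτ1 t) (norm_nonneg _) (mul_nonneg hK (hg0 _))
          _ = _ := mul_one _
      calc _ ≤ p T t * (K * g (X T t)) := mul_le_mul_of_nonneg_left h2 (a2 t)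
        _ = _ := by ring
    refine ⟨(b1.const_mul K).mono' ((Complex.measurable_ofReal.comp a1).mul ((hH.measurable.comp (a3.prodMk a4)).mul
      hτ)).aestronglyMeasurable (Eventually.of_forall hbd), ?_⟩
    refine (norm_integral_le_of_norm_le (b1.const_mul K) (Eventually.of_forall hbd)).trans ?_
    rw [integral_const_mul]
    exact mul_le_mul_of_nonneg_left b2 hK
  have hFg : ∀ q : ℝ × ℂ, ‖q.2‖ ≤ 1 → ‖F q‖ ≤ B * g q.1 := fun q hq => by
    refine (hFB q hq).trans (mul_le_mul_of_nonneg_left (le_trans ?_ (hgB q.1)) hB0)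
    exact Real.exp_le_exp.mpr (mul_le_mul_of_nonneg_right (by linarith) (abs_nonneg _))
  have hFng : ∀ n : ℕ, ∀ q : ℝ × ℂ, ‖q.2‖ ≤ 1 → ‖Fn n q‖ ≤ B * g q.1 := fun n q hq => by
    rw [hFn, norm_mul, Complex.norm_real, Real.norm_of_nonneg (by have := hψ1 n q.1; linarith)]
    have h3 : 1 - ψ n q.1 ≤ 1 := by have := hψ0 n q.1; linarith
    have h4 : 0 ≤ 1 - ψ n q.1 := by have := hψ1 n q.1; linarith
    calc _ ≤ (B * g q.1) * 1 := mul_le_mul (hFg q hq) h3 h4 (mul_nonneg hB0 (hg0 _))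
      _ = _ := mul_one _
  -- conclusion
  rw [Metric.tendsto_nhds]
  intro ε hε
  obtain ⟨G, hG⟩ : ∃ G : ℝ, G = ∫ x, g x ∂(gaussianReal 0 1) := ⟨_, rfl⟩
  have hG0 : 0 ≤ G := by rw [hG]; exact integral_nonneg hg0
  obtain ⟨K, hK⟩ : ∃ K : ℝ, K = B * (|C1 + C2| + ‖L‖ * G + 1) := ⟨_, rfl⟩
  obtain ⟨n, hn⟩ : ∃ n : ℕ, K * Real.exp (-((n:ℝ) - 1)) < ε / 4 := by
    have h1 : Tendsto (fun n : ℕ => K * Real.exp (-((n:ℝ) - 1))) atTop (𝓝 (K * 0)) := by
      refine Tendsto.const_mul K (Real.tendsto_exp_neg_atTop_nhds_zero.comp ?_)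
      exact tendsto_atTop_add_const_right _ (-1) tendsto_natCast_atTop_atTop
    rw [mul_zero] at h1
    exact (h1.eventually (gt_mem_nhds (by positivity))).exists
  obtain ⟨e, he⟩ : ∃ e : ℝ, e = Real.exp (-((n:ℝ) - 1)) := ⟨_, rfl⟩
  have he0 : 0 < e := by rw [he]; exact Real.exp_pos _
  rw [← he] at hn
  have hFd' : ∀ q : ℝ × ℂ, ‖q.2‖ ≤ 1 → ‖F q - Fn n q‖ ≤ B * e * g q.1 := fun q hq => by rw [he]; exact hFd n q hq
  filter_upwards [hint, (Metric.tendsto_nhds.mp (hb (Fn n) (hFnc n) _ (hFnb n))) (ε / 4) (by positivity)] with T t1 t2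
  rw [dist_eq_norm] at t2 ⊢
  obtain ⟨i1, _⟩ := t1 F hF B hB0 hFg
  obtain ⟨i2, _⟩ := t1 (Fn n) (hFnc n) B hB0 (hFng n)
  obtain ⟨_, i3⟩ := t1 (fun q => F q - Fn n q) (hF.sub (hFnc n)) (B * e) (by positivity) hFd'
  have e3 : (∫ t, ((p T t : ℝ) : ℂ) * (F (X T t, W T t) * τ t) ∂(ms T)) - ∫ t, ((p T t : ℝ) : ℂ) * (Fn n (X T t, W T t) * τ t) ∂(ms T) =
      ∫ t, ((p T t : ℝ) : ℂ) * ((F (X T t, W T t) - Fn n (X T t, W T t)) * τ t) ∂(ms T) := by
    rw [← integral_sub i1 i2]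
    refine integral_congr_ae (Eventually.of_forall fun t => ?_)
    simp only
    ring
  have hA1 : ‖(∫ t, ((p T t : ℝ) : ℂ) * (F (X T t, W T t) * τ t) ∂(ms T)) -
      ∫ t, ((p T t : ℝ) : ℂ) * (Fn n (X T t, W T t) * τ t) ∂(ms T)‖ ≤ ε / 4 := by
    rw [e3]
    refine i3.trans ?_
    have h5 : C1 + C2 ≤ |C1 + C2| + ‖L‖ * G + 1 := by
      have := le_abs_self (C1 + C2)
      have : 0 ≤ ‖L‖ * G := mul_nonneg (norm_nonneg _) hG0
      linarith
    have h6 := mul_le_mul_of_nonneg_left h5 (show 0 ≤ B * e by positivity)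
    have h7 : B * e * (|C1 + C2| + ‖L‖ * G + 1) = K * e := by rw [hK]; ring
    linarith
  have hA2 : ‖L * cm (Fn n) - L * cm F‖ ≤ ε / 4 := by
    rw [← mul_sub, norm_mul, norm_sub_rev]
    have h5 := cm_sub2 hFi (cm_int (hFnc n) (hFnb n)) (hgi.const_mul (B * e)) hFd'
    rw [integral_const_mul, ← hG] at h5
    have h6 := mul_le_mul_of_nonneg_left h5 (norm_nonneg L)
    have h7 : ‖L‖ * (B * e * G) = B * e * (‖L‖ * G) := by ring
    have h8 : ‖L‖ * G ≤ |C1 + C2| + ‖L‖ * G + 1 := by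
      have := abs_nonneg (C1 + C2)
      linarith
    have h9 := mul_le_mul_of_nonneg_left h8 (show 0 ≤ B * e by positivity)
    have h10 : B * e * (|C1 + C2| + ‖L‖ * G + 1) = K * e := by rw [hK]; ring
    linarith
  have e1 : (∫ t, ((p T t : ℝ) : ℂ) * (F (X T t, W T t) * τ t) ∂(ms T)) - L * cm F =
      ((∫ t, ((p T t : ℝ) : ℂ) * (F (X T t, W T t) * τ t) ∂(ms T)) -
        ∫ t, ((p T t : ℝ) : ℂ) * (Fn n (X T t, W T t) * τ t) ∂(ms T)) +
      ((∫ t, ((p T t : ℝ) : ℂ) * (Fn n (X T t, W T t) * τ t) ∂(ms T)) - L * cm (Fn n)) + (L * cm (Fn n) - L * cm F) := by ring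
  rw [e1]
  have b1 := norm_add_le ((∫ t, ((p T t : ℝ) : ℂ) * (F (X T t, W T t) * τ t) ∂(ms T)) -
        (∫ t, ((p T t : ℝ) : ℂ) * (Fn n (X T t, W T t) * τ t) ∂(ms T)) +
      ((∫ t, ((p T t : ℝ) : ℂ) * (Fn n (X T t, W T t) * τ t) ∂(ms T)) - L * cm (Fn n))) (L * cm (Fn n) - L * cm F)
  have b2 := norm_add_le ((∫ t, ((p T t : ℝ) : ℂ) * (F (X T t, W T t) * τ t) ∂(ms T)) -
        ∫ t, ((p T t : ℝ) : ℂ) * (Fn n (X T t, W T t) * τ t) ∂(ms T))
      ((∫ t, ((p T t : ℝ) : ℂ) * (Fn n (X T t, W T t) * τ t) ∂(ms T)) - L * cm (Fn n))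
  linarith

end Pool.Agent.Run7.h290.PH
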