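import Pool.Agent.Run7.h290.PH.F
import Pool.Agent.Run7.h290.PH.I
import Pool.Agent.R313.TW.B

set_option autoImplicit false

/-! The joint law of the modulus and the phase. -/

namespace Pool.Agent.Run7.h290.PH

open Finset Filter MeasureTheory MonoidAlgebra Topology ProbabilityTheory
open Pool.Agent.Y755
open Pool.Agent.Y753.NL
open Pool.Agent.Y753.SHR
open Pool.Agent.W184.NZ
open Pool.Agent.R313.TW
open Pool.Agent.W184 (zn zn_nonneg zn_cont zn_le')
open Pool.Agent.H306R2 (aF aF_pos)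

lemma phs_le (δ t : ℝ) : ‖phs δ t‖ ≤ 1 := by
  by_cases hz : zs δ t = 0
  · have : phs δ t = 0 := by unfold phs; rw [hz, zero_div]
    rw [this, norm_zero]; norm_num
  · exact (phs_norm hz).le

/-- the data off the sets of the construction -/
theorem dat_U {δ : ℝ → ℝ} (hδ0 : Tendsto δ atTop (𝓝 0)) (hδL : Tendsto (fun T => δ T * Real.log T) atTop atTop)
    {U : ℝ → Set ℝ} {N : ℝ → ℕ} (hN : Tendsto N atTop atTop) (hU : ∀ᶠ T in atTop, Stg (N T) T (δ T) (U T))
    (hP : ∀ᶠ T in atTop, StP (N T) (δ T) (U T)) {α : ℝ} (h0 : 0 < α) {h k : ℕ} (hh : h ≠ 0) (hk : k ≠ 0) (hc : h.Coprime k) :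
    Dat (fun T t => (2 * δ T) ^ (α ^ 2) / T * zn (1 / 2 + δ T) t ^ (2 * α)) (fun T => XX α (δ T)) (fun T => phs (δ T)) (tw h k)
      (fun T => volume.restrict (U T)) (aF α) ((aF α * Nu α h k : ℝ) : ℂ) := by
  have hpos : ∀ᶠ T in atTop, 0 < δ T := by
    filter_upwards [hδL.eventually_gt_atTop 0, eventually_gt_atTop 1] with T hT hT1
    exact (pos_iff_pos_of_mul_pos hT).mpr (Real.log_pos hT1)
  have hlt : ∀ᶠ T in atTop, δ T < 1 / 2 := hδ0.eventually (gt_mem_nhds (by norm_num))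
  have hUs : ∀ᶠ T in atTop, U T ⊆ Set.Icc 0 T := hU.mono fun T hT => hT.1.2.1
  have key : ∀ {h k : ℕ}, h ≠ 0 → k ≠ 0 → h.Coprime k → ∀ (g : BoundedContinuousFunction ℝ ℝ) (m : ℤ),
      Tendsto (fun T => ∫ t in U T, ((((2 * δ T) ^ (α ^ 2) / T * zn (1 / 2 + δ T) t ^ (2 * α)) * g (XX α (δ T) t) : ℝ) : ℂ) *
        (phs (δ T) t ^ m * tw h k t)) atTop
      (𝓝 (if m = 0 then ((aF α * Nu α h k : ℝ) : ℂ) * ((∫ x, g x ∂(gaussianReal 0 1) : ℝ) : ℂ) else 0)) := by
    intro h k hh hk hc g m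
    have e1 : ∀ T, ∫ t in U T, ((((2 * δ T) ^ (α ^ 2) / T * zn (1 / 2 + δ T) t ^ (2 * α)) * g (XX α (δ T) t) : ℝ) : ℂ) *
        (phs (δ T) t ^ m * tw h k t) = (((2 * δ T) ^ (α ^ 2) / T : ℝ) : ℂ) * ∫ t in U T, ((zn (1 / 2 + δ T) t ^ (2 * α) *
        g ((Real.log (zn (1 / 2 + δ T) t) - α * ell (δ T)) / sg (δ T)) : ℝ) : ℂ) * wt m h k (δ T) t := by
      intro T
      rw [← integral_const_mul]
      refine integral_congr_ae (Eventually.of_forall fun t => ?_)
      simp only [XX, wt]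
      push_cast
      ring
    simp_rw [e1]
    split_ifs with hm
    · subst hm
      have h1 := tilt_mass hδ0 hδL hN hU h0 hh hk hc g
      have e2 : ((aF α * Nu α h k : ℝ) : ℂ) * ((∫ x, g x ∂(gaussianReal 0 1) : ℝ) : ℂ) =
          ((aF α * (Nu α h k * ∫ x, g x ∂(gaussianReal 0 1)) : ℝ) : ℂ) := by push_cast; ring
      rw [e2]
      refine h1.congr fun T => ?_
      congr 1
      refine integral_congr_ae (Eventually.of_forall fun t => ?_)
      simp only [wt, zpow_zero, one_mul]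
    · exact ph_mass hδ0 hδL hN hU hP h0 hh hk hc hm g
  refine ⟨(tw_cont h k).measurable, fun t => (tw_norm h k t).le, ?_, fun g => ?_, key hh hk hc⟩
  · filter_upwards [hpos, hlt, hUs, eventually_gt_atTop 0] with T t1 t2 t3 t4
    have hz : Continuous fun t => zn (1 / 2 + δ T) t ^ (2 * α) := znp_cont (by linarith) (by positivity)
    refine ⟨(hz.const_mul _).measurable, fun t => mul_nonneg (by positivity) (Real.rpow_nonneg (zn_nonneg _ _) _),
      (int_U hz t3).const_mul _, XX_meas t2, phs_meas t2, fun t => phs_le _ _, fun t ht => ?_⟩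
    refine phs_norm fun h3 => ht ?_
    show (2 * δ T) ^ (α ^ 2) / T * zn (1 / 2 + δ T) t ^ (2 * α) = 0
    rw [zn_zs, h3, norm_zero, Real.zero_rpow (by positivity), mul_zero]
  · have h1 := key one_ne_zero one_ne_zero (Nat.coprime_one_left 1) g 0
    rw [if_pos rfl, Nu_one, mul_one] at h1
    have h2 := (Complex.continuous_re.tendsto _).comp h1
    rw [← Complex.ofReal_mul, Complex.ofReal_re] at h2
    refine h2.congr fun T => ?_
    simp only [Function.comp, zpow_zero, tw_one, mul_one]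
    rw [integral_complex_ofReal, Complex.ofReal_re]

/-- the joint law: all orders off a small set of large values, orders at most four on the whole interval -/
theorem main_all {δ : ℝ → ℝ} (hδ : Tendsto δ atTop (𝓝 0)) (hδL : Tendsto (fun T => δ T * Real.log T) atTop atTop)
    {κ : ℝ} (hκ : 0 ≤ κ) :
    ∃ E : ℝ → Set ℝ, (∀ T, MeasurableSet (E T) ∧ E T ⊆ Set.Icc 0 T ∧ ∀ t ∈ E T, (δ T) ^ (-(2 + κ)) < za (δ T) 0 t) ∧
      Tendsto (fun T => (volume (E T)).toReal / (T * (δ T) ^ (4 + 4 * κ))) atTop (𝓝 0) ∧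
      ∀ α : ℝ, 0 < α → ∀ h k : ℕ, h ≠ 0 → k ≠ 0 → h.Coprime k → ∀ F : ℝ × ℂ → ℂ, Continuous F →
        ∀ A : ℝ, (∀ q : ℝ × ℂ, ‖q.2‖ ≤ 1 → ‖F q‖ ≤ A) →
        ((α ≤ 2 ∨ 4 + 4 * κ ≤ 2 * α) → Tendsto (fun T => (((2 * δ T) ^ (α ^ 2) / T : ℝ) : ℂ) * ∫ t in Set.Icc 0 T \ E T,
          ((zn (1 / 2 + δ T) t ^ (2 * α) : ℝ) : ℂ) * (F (XX α (δ T) t, phs (δ T) t) * tw h k t)) atTop
          (𝓝 (((aF α * Nu α h k : ℝ) : ℂ) * cm F))) ∧
        (α ≤ 2 → Tendsto (fun T => (((2 * δ T) ^ (α ^ 2) / T : ℝ) : ℂ) * ∫ t in Set.Icc 0 T,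
          ((zn (1 / 2 + δ T) t ^ (2 * α) : ℝ) : ℂ) * (F (XX α (δ T) t, phs (δ T) t) * tw h k t)) atTop
          (𝓝 (((aF α * Nu α h k : ℝ) : ℂ) * cm F))) := by
  obtain ⟨U, N, hN, hUm, hU, hP⟩ := path_U' hδ hδL
  obtain ⟨E, hEd⟩ : ∃ E : ℝ → Set ℝ, ∀ T, E T = Set.Icc 0 T \ U T := ⟨_, fun _ => rfl⟩
  have hE : ∀ T, MeasurableSet (E T) ∧ E T ⊆ Set.Icc 0 T := fun T => by
    rw [hEd]; exact ⟨measurableSet_Icc.diff (hUm T), Set.sdiff_subset⟩
  have hEU : ∀ᶠ T in atTop, Set.Icc 0 T \ E T = U T := by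
    filter_upwards [hU] with T hT
    rw [hEd, Set.sdiff_sdiff_cancel_left hT.1.2.1]
  have hone : ∀ s : ℝ, 0 < s → Tendsto (fun T : ℝ => (2 * δ T) ^ (s ^ 2) / T * ∫ t in Set.Icc 0 T \ E T, za (δ T) 0 t ^ (2 * s))
      atTop (𝓝 (aF s)) := by
    intro s hs
    refine (mass_U hδ hδL hN hU hs).congr' ?_
    filter_upwards [hEU] with T hT
    rw [hT]
    simp_rw [zn_za]
    ring
  have h4 := small_E (by norm_num) le_rfl hδ hδL hE 0 (hone 2 (by norm_num))
  obtain ⟨E', hE', hvol, hV⟩ := shrink (κ := κ) hδ hδL hE (a := fun _ => 0) fun _ => h4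
  refine ⟨E', fun T => ⟨(hE' T).1, (hE' T).2.1.trans (hE T).2, fun t ht => ((hE' T).2.2 t ht).choose_spec⟩, hvol, ?_⟩
  intro α h0 h k hh hk hc F hF A hA
  have hA0 : 0 ≤ A := (norm_nonneg _).trans (hA (0, 0) (by simp))
  have D := dat_U hδ hδL hN hU hP h0 hh hk hc
  have main : Tendsto (fun T => (((2 * δ T) ^ (α ^ 2) / T : ℝ)) • ∫ t in Set.Icc 0 T \ E T,
          ((zn (1 / 2 + δ T) t ^ (2 * α) : ℝ) : ℂ) * (F (XX α (δ T) t, phs (δ T) t) * tw h k t)) atTop
          (𝓝 (((aF α * Nu α h k : ℝ) : ℂ) * cm F)) := by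
    refine (D.joint hF hA).congr' ?_
    filter_upwards [hEU] with T hT
    rw [hT, Complex.real_smul, ← integral_const_mul]
    refine integral_congr_ae (Eventually.of_forall fun t => ?_)
    simp only
    push_cast
    ring
  have hδ2 := hδ.eventually (gt_mem_nhds (show (0:ℝ) < 1 / 2 by norm_num))
  have c1 : ∀ᶠ T in atTop, 0 ≤ (2 * δ T) ^ (α ^ 2) / T := by
    filter_upwards [pos_path hδL, eventually_gt_atTop 0] with T t1 t2
    positivity
  have c2 : ∀ᶠ T in atTop, IntegrableOn (fun t => ((zn (1 / 2 + δ T) t ^ (2 * α) : ℝ) : ℂ) *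
      (F (XX α (δ T) t, phs (δ T) t) * tw h k t)) (Set.Icc 0 T) := by
    filter_upwards [hδ2] with T hT
    have hz : Continuous fun t => zn (1 / 2 + δ T) t ^ (2 * α) := znp_cont (by linarith) (by positivity)
    refine ((int_U hz subset_rfl).ofReal (𝕜 := ℂ)).mul_bdd (c := A)
      ((hF.measurable.comp ((XX_meas hT).prodMk (phs_meas hT))).mul (tw_cont h k).measurable).aestronglyMeasurable
      (Eventually.of_forall fun t => ?_)
    rw [norm_mul, tw_norm, mul_one]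
    exact hA _ (phs_le _ _)
  have c3 : ∀ᶠ T in atTop, IntegrableOn (fun t => A * za (δ T) 0 t ^ (2 * α)) (Set.Icc 0 T) := by
    filter_upwards [hδ2] with T hT
    exact (((za_cont hT 0).rpow_const fun t => Or.inr (by positivity)).continuousOn.integrableOn_compact isCompact_Icc).const_mul _
  have c4 : ∀ᶠ T in atTop, ∀ t, ‖((zn (1 / 2 + δ T) t ^ (2 * α) : ℝ) : ℂ) *
      (F (XX α (δ T) t, phs (δ T) t) * tw h k t)‖ ≤ A * za (δ T) 0 t ^ (2 * α) := by
    refine Eventually.of_forall fun T t => ?_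
    rw [norm_mul, norm_mul, tw_norm, mul_one, Complex.norm_real, Real.norm_of_nonneg (Real.rpow_nonneg (zn_nonneg _ _) _), zn_za, mul_comm]
    exact mul_le_mul_of_nonneg_right (hA _ (phs_le _ _)) (Real.rpow_nonneg (za_nonneg _ _ _) _)
  have cE : ∀ (E1 E2 : ℝ → Set ℝ), Tendsto (fun T : ℝ => (2 * δ T) ^ (α ^ 2) / T * ∫ t in E1 T \ E2 T, za (δ T) 0 t ^ (2 * α)) atTop (𝓝 0) →
      Tendsto (fun T => (2 * δ T) ^ (α ^ 2) / T * ∫ t in E1 T \ E2 T, A * za (δ T) 0 t ^ (2 * α)) atTop (𝓝 0) := by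
    intro E1 E2 hd
    have h1 := hd.const_mul A
    rw [mul_zero] at h1
    refine h1.congr fun T => ?_
    rw [integral_const_mul]
    ring
  refine ⟨fun hα => ?_, fun hα => ?_⟩
  · have hd := diff_E hκ h0 hα hδ hδL hE (fun T => ⟨(hE' T).1, (hE' T).2.1⟩) 0 (hV 0) h4 (hone _ h0)
    have h5 := transfer (V := ℂ) (c := fun T => (2 * δ T) ^ (α ^ 2) / T) (f := fun T t => ((zn (1 / 2 + δ T) t ^ (2 * α) : ℝ) : ℂ) *
      (F (XX α (δ T) t, phs (δ T) t) * tw h k t)) (g := fun T t => A * za (δ T) 0 t ^ (2 * α)) (E := E) (E' := E')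
      (L := ((aF α * Nu α h k : ℝ) : ℂ) * cm F) c1 hE (fun T => ⟨(hE' T).1, (hE' T).2.1⟩) c2 c3 c4 main (cE E E' hd)
    refine h5.congr fun T => ?_
    rw [Complex.real_smul]
  · have hsm := small_E h0 hα hδ hδL hE 0 (hone _ h0)
    have hsm' : Tendsto (fun T : ℝ => (2 * δ T) ^ (α ^ 2) / T * ∫ t in E T \ (fun _ => (∅ : Set ℝ)) T, za (δ T) 0 t ^ (2 * α)) atTop (𝓝 0) := by
      simpa using hsm
    have h5 := transfer (V := ℂ) (c := fun T => (2 * δ T) ^ (α ^ 2) / T) (f := fun T t => ((zn (1 / 2 + δ T) t ^ (2 * α) : ℝ) : ℂ) *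
      (F (XX α (δ T) t, phs (δ T) t) * tw h k t)) (g := fun T t => A * za (δ T) 0 t ^ (2 * α)) (E := E) (E' := fun _ => ∅)
      (L := ((aF α * Nu α h k : ℝ) : ℂ) * cm F) c1 hE (fun T => ⟨MeasurableSet.empty, Set.empty_subset _⟩) c2 c3 c4 main
      (cE E (fun _ => ∅) hsm')
    refine h5.congr fun T => ?_
    rw [Complex.real_smul, Set.sdiff_empty]

/-- test functions of exponential growth, orders less than four -/
theorem main_grow {δ : ℝ → ℝ} (hδ : Tendsto δ atTop (𝓝 0)) (hδL : Tendsto (fun T => δ T * Real.log T) atTop atTop)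
    {α : ℝ} (h0 : 0 < α) (h2 : α < 2) {h k : ℕ} (hh : h ≠ 0) (hk : k ≠ 0) (hc : h.Coprime k) {F : ℝ × ℂ → ℂ} (hF : Continuous F)
    {A : ℝ} (hA : ∀ q : ℝ × ℂ, ‖q.2‖ ≤ 1 → ‖F q‖ ≤ A * Real.exp (A * |q.1|)) :
    Tendsto (fun T => (((2 * δ T) ^ (α ^ 2) / T : ℝ) : ℂ) * ∫ t in Set.Icc 0 T,
      ((zn (1 / 2 + δ T) t ^ (2 * α) : ℝ) : ℂ) * (F (XX α (δ T) t, phs (δ T) t) * tw h k t)) atTop
      (𝓝 (((aF α * Nu α h k : ℝ) : ℂ) * cm F)) := by
  have hpos : ∀ᶠ T in atTop, 0 < δ T := by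
    filter_upwards [hδL.eventually_gt_atTop 0, eventually_gt_atTop 1] with T hT hT1
    exact (pos_iff_pos_of_mul_pos hT).mpr (Real.log_pos hT1)
  have hlt : ∀ᶠ T in atTop, δ T < 1 / 2 := hδ.eventually (gt_mem_nhds (by norm_num))
  have hsg := sg_tendsto hpos hδ
  have hα : ∀ s : ℝ, ∀ᶠ T in atTop, 0 < α + s / (2 * sg (δ T)) := by
    intro s
    have h1 : Tendsto (fun T => α + s / (2 * sg (δ T))) atTop (𝓝 (α + 0)) :=
      tendsto_const_nhds.add (tendsto_const_nhds.div_atTop (hsg.const_mul_atTop (by norm_num)))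
    rw [add_zero] at h1
    exact h1.eventually (lt_mem_nhds h0)
  obtain ⟨_, _, _, hall⟩ := main_all hδ hδL (le_refl (0:ℝ))
  have main := grow (p := fun T t => (2 * δ T) ^ (α ^ 2) / T * zn (1 / 2 + δ T) t ^ (2 * α)) (X := fun T => XX α (δ T))
    (W := fun T => phs (δ T)) (τ := tw h k) (ms := fun T => volume.restrict (Set.Icc 0 T)) (L := ((aF α * Nu α h k : ℝ) : ℂ))
    (tw_cont h k).measurable (fun t => (tw_norm h k t).le) ?_ ?_ ?_ hF hA
  · refine main.congr fun T => ?_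
    rw [← integral_const_mul]
    refine integral_congr_ae (Eventually.of_forall fun t => ?_)
    simp only
    push_cast
    ring
  · filter_upwards [hpos, hlt, eventually_gt_atTop 0] with T t1 t2 t4
    have hz : Continuous fun t => zn (1 / 2 + δ T) t ^ (2 * α) := znp_cont (by linarith) (by positivity)
    exact ⟨(hz.const_mul _).measurable, fun t => mul_nonneg (by positivity) (Real.rpow_nonneg (zn_nonneg _ _) _),
      XX_meas t2, phs_meas t2, fun t => phs_le _ _⟩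
  · intro s
    have h1 := full_grow hδ hδL h0 h2 one_ne_zero one_ne_zero (Nat.coprime_one_left 1) (F := fun x => Real.exp (s * x)) (by fun_prop)
      (A := |s| + 1) (fun x => by
        rw [abs_of_pos (Real.exp_pos _)]
        have a1 : s * x ≤ (|s| + 1) * |x| := by
          calc s * x ≤ |s * x| := le_abs_self _
            _ = |s| * |x| := abs_mul _ _
            _ ≤ _ := mul_le_mul_of_nonneg_right (by linarith) (abs_nonneg _)
        calc Real.exp (s * x) ≤ 1 * Real.exp ((|s| + 1) * |x|) := by rw [one_mul]; exact Real.exp_le_exp.mpr a1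
          _ ≤ _ := mul_le_mul_of_nonneg_right (by have := abs_nonneg s; linarith) (Real.exp_pos _).le)
    obtain ⟨Λ, hΛ⟩ : ∃ Λ : ℂ, Λ = (((aF α * Nu α 1 1 : ℝ) : ℂ) * ((∫ x, Real.exp (s * x) ∂(gaussianReal 0 1) : ℝ) : ℂ)) := ⟨_, rfl⟩
    rw [← hΛ] at h1
    have h3 := (Complex.continuous_re.tendsto _).comp h1
    refine ⟨Λ.re + 1, ?_⟩
    filter_upwards [h3.eventually (gt_mem_nhds (show Λ.re < Λ.re + 1 by linarith)), hα s, hlt] with T t1 t2 t3
    have e1 : ∀ t, (2 * δ T) ^ (α ^ 2) / T * zn (1 / 2 + δ T) t ^ (2 * α) * Real.exp (s * XX α (δ T) t) =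
        (2 * δ T) ^ (α ^ 2) / T * (zn (1 / 2 + δ T) t ^ (2 * (α + s / (2 * sg (δ T)))) *
          Real.exp (-(s * α * ell (δ T) / sg (δ T)))) := by
      intro t
      rw [mul_assoc]
      congr 1
      exact tilt_id (l := ell (δ T)) (zn_nonneg (1 / 2 + δ T) t) h0 t2
    constructor
    · simp_rw [e1]
      exact ((int_U (znp_cont (by linarith) (by positivity)) subset_rfl).mul_const _).const_mul _
    · refine le_trans (le_of_eq ?_) t1.le
      simp only [Function.comp]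
      simp_rw [tw_one, mul_one]
      rw [integral_complex_ofReal, ← Complex.ofReal_mul, Complex.ofReal_re, ← integral_const_mul]
      refine integral_congr_ae (Eventually.of_forall fun t => ?_)
      simp only
      ring
  · intro G hG K hK
    refine ((hall α h0 h k hh hk hc G hG K hK).2 h2.le).congr fun T => ?_
    rw [← integral_const_mul]
    refine integral_congr_ae (Eventually.of_forall fun t => ?_)
    simp only
    push_cast
    ring

end Pool.Agent.Run7.h290.PH
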