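import Pool.Agent.Run7.h290.PH.H

set_option autoImplicit false

/-! The law of the pair and convergence on Borel sets. -/

namespace Pool.Agent.Run7.h290.PH

open MeasureTheory Filter Topology ProbabilityTheory

/-- the uniform law on the unit circle -/
noncomputable def circ : Measure ℂ :=
  ENNReal.ofReal (1 / (2 * Real.pi)) • (volume.restrict (Set.Ioc 0 (2 * Real.pi))).map fun θ : ℝ => Complex.exp (Complex.I * (θ : ℂ))

lemma circ_meas : Measurable fun θ : ℝ => Complex.exp (Complex.I * (θ : ℂ)) :=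
  (by fun_prop : Continuous fun θ : ℝ => Complex.exp (Complex.I * (θ : ℂ))).measurable

instance : IsProbabilityMeasure circ := by
  constructor
  unfold circ
  rw [Measure.smul_apply, Measure.map_apply circ_meas MeasurableSet.univ, Set.preimage_univ, Measure.restrict_apply_univ,
    Real.volume_Ioc, sub_zero, smul_eq_mul, ← ENNReal.ofReal_mul (by positivity)]
  have : 1 / (2 * Real.pi) * (2 * Real.pi) = 1 := by
    have := Real.pi_pos
    field_simp
  rw [this, ENNReal.ofReal_one]

/-- the law of a pair of independent variables, a standard normal one and a uniform point of the circle -/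
noncomputable def law : Measure (ℝ × ℂ) := (gaussianReal 0 1).prod circ

instance : IsProbabilityMeasure law := by unfold law; infer_instance

lemma law_eq : law = ENNReal.ofReal (1 / (2 * Real.pi)) • lw.map fun q : ℝ × ℝ => (q.1, Complex.exp (Complex.I * (q.2 : ℂ))) := by
  unfold law circ lw
  have h1 := Measure.map_prod_map (gaussianReal 0 1) (volume.restrict (Set.Ioc 0 (2 * Real.pi))) (f := fun x : ℝ => x)
    (g := fun θ : ℝ => Complex.exp (Complex.I * (θ : ℂ))) measurable_id circ_meas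
  have h2 : (gaussianReal 0 1).map (fun x : ℝ => x) = gaussianReal 0 1 := Measure.map_id
  rw [h2] at h1
  rw [Measure.prod_smul_right, h1]
  rfl

lemma cm_law {F : ℝ × ℂ → ℂ} (hF : Continuous F) : cm F = ∫ q, F q ∂law := by
  have hm : Measurable fun q : ℝ × ℝ => (q.1, Complex.exp (Complex.I * (q.2 : ℂ))) :=
    measurable_fst.prodMk (circ_meas.comp measurable_snd)
  rw [law_eq, integral_smul_measure, integral_map hm.aemeasurable hF.aestronglyMeasurable]
  unfold cm
  rw [ENNReal.toReal_ofReal (by positivity), Complex.real_smul]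
  congr 1
  · push_cast
    rw [one_div]
  · refine integral_congr_ae (Eventually.of_forall fun q => ?_)
    simp only
    rw [mul_comm (q.2 : ℂ) Complex.I]

/-- convergence on Borel sets -/
theorem weak_B {p : ℝ → ℝ → ℝ} {V : ℝ → ℝ → ℝ × ℂ} {ms : ℝ → Measure ℝ}
    (hp : ∀ᶠ T in atTop, Measurable (p T) ∧ (∀ t, 0 ≤ p T t) ∧ Integrable (p T) (ms T) ∧ Measurable (V T))
    {c : ℝ} (hc : 0 < c)
    (hb : ∀ F : BoundedContinuousFunction (ℝ × ℂ) ℝ, Tendsto (fun T => ∫ t, p T t * F (V T t) ∂(ms T)) atTop (𝓝 (c * ∫ q, F q ∂law)))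
    {B : Set (ℝ × ℂ)} (hB : MeasurableSet B) (hfr : law (frontier B) = 0) :
    Tendsto (fun T => (∫ t in V T ⁻¹' B, p T t ∂(ms T)) / ∫ t, p T t ∂(ms T)) atTop (𝓝 (law.real B)) := by
  classical
  obtain ⟨m, hmd⟩ : ∃ m : ℝ → ℝ, ∀ T, m T = ∫ t, p T t ∂(ms T) := ⟨_, fun _ => rfl⟩
  have hm0 : Tendsto m atTop (𝓝 c) := by
    have h0 := hb (BoundedContinuousFunction.const _ 1)
    simp only [BoundedContinuousFunction.const_apply, mul_one, integral_const, smul_eq_mul, probReal_univ] at h0
    exact h0.congr fun T => (hmd T).symm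
  have hmp : ∀ᶠ T in atTop, 0 < m T := hm0.eventually (lt_mem_nhds hc)
  simp_rw [← hmd]
  obtain ⟨γ, hγ⟩ : ∃ γ : ProbabilityMeasure (ℝ × ℂ), (γ : Measure (ℝ × ℂ)) = law := ⟨⟨law, inferInstance⟩, rfl⟩
  obtain ⟨W, hW⟩ : ∃ W : ℝ → Measure (ℝ × ℂ), ∀ T, W T = ((ms T).withDensity fun t => ENNReal.ofReal (p T t / m T)).map (V T) :=
    ⟨_, fun _ => rfl⟩
  have hq : ∀ᶠ T : ℝ in atTop, (Measurable fun t => ENNReal.ofReal (p T t / m T)) ∧ (∀ t, 0 ≤ p T t / m T) ∧
      Integrable (fun t => p T t / m T) (ms T) ∧ ∫ t, p T t / m T ∂(ms T) = 1 ∧ Measurable (V T) := by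
    filter_upwards [hp, hmp] with T h1 h2
    refine ⟨ENNReal.measurable_ofReal.comp (h1.1.div_const _), fun t => div_nonneg (h1.2.1 t) h2.le, h1.2.2.1.div_const _, ?_, h1.2.2.2⟩
    rw [integral_div, ← hmd, div_self h2.ne']
  have hprob : ∀ᶠ T in atTop, IsProbabilityMeasure (W T) := by
    filter_upwards [hq] with T h1
    constructor
    rw [hW, Measure.map_apply h1.2.2.2.2 MeasurableSet.univ, Set.preimage_univ, withDensity_apply _ MeasurableSet.univ,
      Measure.restrict_univ, ← ofReal_integral_eq_lintegral_ofReal h1.2.2.1 (Eventually.of_forall h1.2.1), h1.2.2.2.1,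
      ENNReal.ofReal_one]
  obtain ⟨μ, hμ⟩ : ∃ μ : ℝ → ProbabilityMeasure (ℝ × ℂ), ∀ᶠ T : ℝ in atTop, (μ T : Measure (ℝ × ℂ)) = W T := by
    have hex : ∀ T : ℝ, ∃ μT : ProbabilityMeasure (ℝ × ℂ), IsProbabilityMeasure (W T) → (μT : Measure (ℝ × ℂ)) = W T := by
      intro T
      by_cases h : IsProbabilityMeasure (W T)
      · exact ⟨⟨W T, h⟩, fun _ => rfl⟩
      · exact ⟨γ, fun h1 => absurd h1 h⟩
    choose μ hμ using hex
    refine ⟨μ, ?_⟩
    filter_upwards [hprob] with T h1
    exact hμ T h1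
  have hT : Tendsto μ atTop (𝓝 γ) := by
    rw [ProbabilityMeasure.tendsto_iff_forall_integral_tendsto]
    intro F
    rw [hγ]
    have h1 := (hb F).div hm0 hc.ne'
    rw [mul_div_cancel_left₀ _ hc.ne'] at h1
    refine h1.congr' ?_
    filter_upwards [hq, hμ] with T h3 h4
    rw [h4, hW, integral_map h3.2.2.2.2.aemeasurable F.continuous.aestronglyMeasurable,
      integral_withDensity_eq_integral_toReal_smul h3.1 (Eventually.of_forall fun _ => ENNReal.ofReal_lt_top)]
    show (∫ t, p T t * F (V T t) ∂(ms T)) / m T = _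
    rw [← integral_div]
    refine integral_congr_ae (Eventually.of_forall fun t => ?_)
    show p T t * F (V T t) / m T = (ENNReal.ofReal (p T t / m T)).toReal • F (V T t)
    rw [ENNReal.toReal_ofReal (h3.2.1 t), smul_eq_mul]
    ring
  have h1 := ProbabilityMeasure.tendsto_measure_of_null_frontier_of_tendsto' hT (E := B) (by rw [hγ]; exact hfr)
  rw [hγ] at h1
  have h2 := (ENNReal.tendsto_toReal (measure_ne_top law B)).comp h1
  refine h2.congr' ?_
  filter_upwards [hq, hμ, hp] with T h3 h4 h5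
  show ((μ T : Measure (ℝ × ℂ)) B).toReal = _
  have hVB : MeasurableSet (V T ⁻¹' B) := h3.2.2.2.2 hB
  rw [h4, hW, Measure.map_apply h3.2.2.2.2 hB, withDensity_apply _ hVB,
    ← ofReal_integral_eq_lintegral_ofReal h3.2.2.1.integrableOn (Eventually.of_forall h3.2.1),
    ENNReal.toReal_ofReal (integral_nonneg fun t => h3.2.1 t), integral_div]

end Pool.Agent.Run7.h290.PH
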